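import Mathlib

/-! Project SR (hard row MP_071ec9_an, wandering domains of the 3x+1 map of
Letherman-Schleicher-Wood): the boundary regularity of a wandering domain containing an integer is
exactly the growth of the trajectory.  Statements of the packages; proofs in the docstrings. -/

set_option autoImplicit false

open Filter Topology Metric Set

namespace Pool.Agent.P8H70.SR

/-- Taylor coefficient at `0` -/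
noncomputable def co (m : ℕ) (f : ℂ → ℂ) : ℂ := iteratedDeriv m f 0 / (m.factorial : ℂ)

/-- binary digit sum -/
def sd (m : ℕ) : ℕ := (Nat.digits 2 m).sum

/-- truncated norm with weights `κ ^ sd l` -/
noncomputable def NN (κ : ℝ) (m : ℕ) (f : ℂ → ℂ) : ℝ :=
  ∑ l ∈ Finset.range (m + 1), ‖co l f‖ * κ ^ sd l

/-- DIG (60 lines).  The recursions from `Nat.digits_def'`; subadditivity by strong induction on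
`a + b` (write `a = 2 a' + i`, `b = 2 b' + j`, `i, j ∈ {0, 1}`; for `i = j = 1`:
`sd (2 (a' + b' + 1)) = sd (a' + b' + 1) ≤ sd (a' + b') + 1`, so prove `sd (m + 1) ≤ sd m + 1`
first); `sd m ≤ m` from this; last part: `sd (2 ^ r - 1) = r` by induction and
`2 ^ r - 1 = (2 ^ r - l) + (l - 1)`, so `r ≤ sd (2 ^ r - l) + sd (l - 1)`. -/
def S_DIG : Prop :=
  (sd 0 = 0) ∧ (∀ m, sd (2 * m) = sd m) ∧ (∀ m, sd (2 * m + 1) = sd m + 1) ∧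
  (∀ a b, sd (a + b) ≤ sd a + sd b) ∧ (∀ m, sd m ≤ m) ∧
  ∀ r l : ℕ, 1 ≤ l → l ≤ 2 ^ r → r ≤ sd (2 ^ r - l) + (l - 1)

/-- CO (120 lines).  Taylor coefficients: linear, multiplicative (`iteratedDeriv_mul` or
`iteratedDeriv_fun_mul`, `AnalyticAt.contDiffAt`), shift, rotation, powers, Euler operator,
locality, Cauchy estimate (`Complex.norm_iteratedDeriv_le_of_forall_mem_sphere_norm_le` on the
circles of radius `r < R`, then `r → R`). -/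
def S_CO : Prop :=
  (∀ (m : ℕ) (f g : ℂ → ℂ), f =ᶠ[𝓝 0] g → co m f = co m g) ∧
  (∀ (m : ℕ) (f g : ℂ → ℂ), AnalyticAt ℂ f 0 → AnalyticAt ℂ g 0 →
    co m (fun z => f z + g z) = co m f + co m g) ∧
  (∀ (m : ℕ) (c : ℂ) (f : ℂ → ℂ), AnalyticAt ℂ f 0 → co m (fun z => c * f z) = c * co m f) ∧
  (∀ (m : ℕ) (f g : ℂ → ℂ), AnalyticAt ℂ f 0 → AnalyticAt ℂ g 0 →
    co m (fun z => f z * g z) = ∑ p ∈ Finset.HasAntidiagonal.antidiagonal m, co p.1 f * co p.2 g) ∧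
  (∀ (m : ℕ) (f : ℂ → ℂ), AnalyticAt ℂ f 0 → co (m + 1) (fun z => z * f z) = co m f) ∧
  (∀ (m : ℕ) (f : ℂ → ℂ) (ω : ℂ), AnalyticAt ℂ f 0 →
    co m (fun z => f (ω * z)) = ω ^ m * co m f) ∧
  (∀ m k : ℕ, co m (fun z => z ^ k) = if m = k then 1 else 0) ∧
  (∀ (m : ℕ) (f : ℂ → ℂ), AnalyticAt ℂ f 0 → co m (fun z => z * deriv f z) = m * co m f) ∧
  (∀ (m : ℕ) (f : ℂ → ℂ) (R B : ℝ), 0 < R → DifferentiableOn ℂ f (ball 0 R) →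
    (∀ z ∈ ball (0 : ℂ) R, ‖f z‖ ≤ B) → ‖co m f‖ ≤ B / R ^ m)

/-- COMP (100 lines, from `S_CO`).  Taylor coefficients of a composition.  On `ball 0 R` the
function `Ψ` is the sum of its Taylor series `∑ co l Ψ w ^ l` (`DifferentiableOn.hasFPowerSeriesOnBall`
on closed balls of radius `r' ∈ (r, R)` or `Complex.hasSum_taylorSeries_on_ball`); the partial sums
`F_L` satisfy `‖Ψ w - F_L w‖ ≤ B q ^ L` for `‖w‖ ≤ r` with some `q < 1` (Cauchy estimate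
`‖co l Ψ‖ ≤ B' / r' ^ l`), so `Ψ ∘ f - F_L ∘ f` is at most `B q ^ L` on `ball 0 δ`; the Cauchy
estimate in `S_CO` for `co m` gives convergence of `∑_{l<L} co l Ψ * co m (f ^ l) = co m (F_L ∘ f)`,
and the same estimates give absolute summability. -/
def S_COMP : Prop :=
  ∀ (Ψ f : ℂ → ℂ) (R r δ : ℝ), 0 < r → r < R → 0 < δ → DifferentiableOn ℂ Ψ (ball 0 R) →
    DifferentiableOn ℂ f (ball 0 δ) → (∀ z ∈ ball (0 : ℂ) δ, ‖f z‖ ≤ r) → ∀ m : ℕ,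
      HasSum (fun l : ℕ => co l Ψ * co m (fun z => f z ^ l)) (co m (fun z => Ψ (f z)))

/-- abstract system -/
structure Sys (g L : ℕ → ℂ → ℂ) (ρ : ℕ → ℝ) (σ : ℕ → ℂ) (A r₀ ε : ℝ) : Prop where
  hσ : ∀ i, ‖σ i‖ = 1
  g_diff : ∀ i, DifferentiableOn ℂ (g i) (ball 0 1)
  g_bdd : ∀ i, ∀ ζ ∈ ball (0 : ℂ) 1, ‖g i ζ‖ ≤ 1 / 2
  g_zero : ∀ i, g i 0 = 0
  L_diff : ∀ i, DifferentiableOn ℂ (L i) (ball 0 r₀)
  L_bdd : ∀ i, ∀ h ∈ ball (0 : ℂ) r₀, ‖L i h‖ ≤ 1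
  L_zero : ∀ i, L i 0 = 0
  L_one : ∀ i, ‖co 1 (L i)‖ ≤ A * ρ i
  ρ_pos : ∀ i, 0 < ρ i
  ρ_le : ∀ i, ρ i ≤ ε
  ρ_step : ∀ i, ρ i ≤ 4 * ρ (i + 1)
  eq : ∀ i, ∀ ζ ∈ ball (0 : ℂ) 1,
    2 * g i ζ = -L i (ρ i * ζ * Complex.exp (g i ζ)) + g (i + 1) (σ i * ζ ^ 2)

/-- NRM (150 lines, from `S_DIG`, `S_CO`, `S_COMP`).  Properties of the norm `NN`:
submultiplicative (regroup the product over pairs `(a, b)`, `a, b ≤ m`, and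
`κ ^ sd (a + b) ≤ κ ^ sd a * κ ^ sd b`), powers, shift, squaring of the variable (`S_COMP` with
inner function `σ z ^ 2` gives `co (2 l) = σ ^ l co l f`, odd coefficients vanish), composition. -/
def S_NRM : Prop :=
  ∀ κ : ℝ, 1 ≤ κ →
  (∀ (m : ℕ) (f g : ℂ → ℂ), AnalyticAt ℂ f 0 → AnalyticAt ℂ g 0 →
    NN κ m (fun z => f z * g z) ≤ NN κ m f * NN κ m g) ∧
  (∀ (m l : ℕ) (f : ℂ → ℂ), AnalyticAt ℂ f 0 → NN κ m (fun z => f z ^ l) ≤ NN κ m f ^ l) ∧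
  (∀ (m : ℕ) (f : ℂ → ℂ), AnalyticAt ℂ f 0 →
    NN κ (m + 1) (fun z => z * f z) ≤ κ * NN κ m f) ∧
  (∀ (m : ℕ) (f : ℂ → ℂ) (σ : ℂ), AnalyticAt ℂ f 0 → ‖σ‖ = 1 →
    NN κ m (fun z => f (σ * z ^ 2)) ≤ NN κ (m / 2) f ∧
    co (2 * m) (fun z => f (σ * z ^ 2)) = σ ^ m * co m f) ∧
  (∀ (Ψ f : ℂ → ℂ) (R r δ : ℝ), 0 < r → r < R → 0 < δ → DifferentiableOn ℂ Ψ (ball 0 R) →
    DifferentiableOn ℂ f (ball 0 δ) → (∀ z ∈ ball (0 : ℂ) δ, ‖f z‖ ≤ r) → ∀ (m : ℕ) (B : ℝ),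
      (∀ N : ℕ, ∑ l ∈ Finset.range N, ‖co l Ψ‖ * NN κ m f ^ l ≤ B) →
      NN κ m (fun z => Ψ (f z)) ≤ B)

/-- CORE (200 lines, from `S_DIG`, `S_CO`, `S_COMP`, `S_NRM`).  Put `h i ζ = ρ i ζ exp (g i ζ)`,
`C₁ = 3 A + 18 / r₀ ^ 2`.  (1) for `0 ≤ t ≤ r₀ / 2`:
`∑_{l<N} ‖co l (L i)‖ t ^ l ≤ A ρ_i t + 2 (t / r₀) ^ 2` (`co 0 = 0`, Cauchy `‖co l‖ ≤ r₀ ^ (-l)`).
(2) `NN κ m (g i) ≤ 1` for all `i` by induction on `m`: for `m = 0` it is `0`; step: `NN (m+1) (h i)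
≤ κ ρ_i NN m (exp ∘ g i) ≤ κ ρ_i exp 1 ≤ 3 κ ρ_i =: t`, hence by (1)
`NN (m+1) (L i ∘ h i) ≤ C₁ κ ^ 2 ρ_i ^ 2 ≤ 1`, and the equation gives
`NN (m+1) (g i) ≤ 1/2 (1 + NN ((m+1)/2) (g (i+1))) ≤ 1`.
(3) for `s ≥ 1`: `κ ^ s ‖co (2 ^ s) (L i ∘ h i)‖ ≤ C₁ κ ρ_i ^ 2`: by `S_COMP` it is
`∑_{l ≥ 1} co l (L i) co (2 ^ s) ((h i) ^ l)`, where `(h i) ^ l = ρ_i ^ l ζ ^ l exp (l g i)` has
`co (2 ^ s) = ρ_i ^ l co (2 ^ s - l) (exp (g i) ^ l)` (zero if `l > 2 ^ s`), at most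
`ρ_i ^ l κ ^ (-sd (2 ^ s - l)) exp l ≤ ρ_i ^ l 3 ^ l κ ^ (l - 1 - s)`.
(4) `X i r = 2 ^ r co (2 ^ r) (g i)` satisfies `‖X i r‖ - ‖X (i+1) (r-1)‖` in absolute value at most
`2 ^ (r-1) ‖co (2 ^ r) (L i ∘ h i)‖ ≤ 2 ^ (r-1) C₁ κ ^ (1 - r) ρ_i ^ 2`, and
`ρ_i ≤ 4 ^ (r-1) ρ_(i+r-1)`; sum over the steps from `r` down to `2`: total at most
`C₁ ρ ^ 2 ∑_{s ≥ 2} (32 / κ) ^ (s-1) ≤ 64 C₁ ρ ^ 2 / κ = ρ ^ 2 / 4` for `κ = 256 C₁`. -/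
def S_CORE : Prop :=
  ∀ A r₀ : ℝ, 1 ≤ A → 0 < r₀ → r₀ ≤ 1 → ∃ ε : ℝ, 0 < ε ∧
    ∀ (g L : ℕ → ℂ → ℂ) (ρ : ℕ → ℝ) (σ : ℕ → ℂ), Sys g L ρ σ A r₀ ε → ∀ i r : ℕ,
      |‖(2 : ℂ) ^ (r + 1) * co (2 ^ (r + 1)) (g i)‖ - ‖2 * co 2 (g (i + r))‖| ≤
        ρ (i + r) ^ 2 / 4

/-- SECOND (80 lines, from `S_CO`, `S_COMP`).  Compare the coefficients of `ζ` and `ζ ^ 2` in the
equation: `2 co 1 (g i) = - co 1 (L i) ρ_i`, `2 co 2 (g i) = - (co 1 (L i) ρ_i co 1 (g i) +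
co 2 (L i) ρ_i ^ 2) + σ_i co 1 (g (i+1))`. -/
def S_SECOND : Prop :=
  ∀ (g L : ℕ → ℂ → ℂ) (ρ : ℕ → ℝ) (σ : ℕ → ℂ) (A r₀ ε : ℝ), 0 < r₀ → Sys g L ρ σ A r₀ ε →
    ∀ i : ℕ, 2 * co 2 (g i) = (co 1 (L i) ^ 2 / 2 - co 2 (L i)) * (ρ i : ℂ) ^ 2 -
      σ i / 2 * co 1 (L (i + 1)) * ρ (i + 1)

/-- LOG2 (60 lines, from `S_CO`; or directly with derivatives): the first two Taylor coefficients of
`log (1 + E)` for `E 0 = 0`. -/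
def S_LOG2 : Prop :=
  ∀ E : ℂ → ℂ, AnalyticAt ℂ E 0 → E 0 = 0 →
    co 1 (fun h => Complex.log (1 + E h)) = co 1 E ∧
    co 2 (fun h => Complex.log (1 + E h)) = co 2 E - co 1 E ^ 2 / 2

/-- TRIG (60 lines): Taylor coefficients 3 and 4 of the explicit function. -/
def S_TRIG : Prop :=
  ∀ ε m : ℂ,
    co 3 (fun h : ℂ => (h - Complex.sin (2 * Real.pi * h) / (2 * Real.pi)) +
      ε / 2 * (Complex.sin (Real.pi * h) / Real.pi - h * Complex.cos (Real.pi * h)) +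
      ε / 2 * (m + 1 / 2) * (1 - Complex.cos (Real.pi * h))) =
        Real.pi ^ 2 * (2 / 3 + ε / 6) ∧
    co 4 (fun h : ℂ => (h - Complex.sin (2 * Real.pi * h) / (2 * Real.pi)) +
      ε / 2 * (Complex.sin (Real.pi * h) / Real.pi - h * Complex.cos (Real.pi * h)) +
      ε / 2 * (m + 1 / 2) * (1 - Complex.cos (Real.pi * h))) =
        -(ε * (m + 1 / 2) * Real.pi ^ 4 / 48)

/-- HF (60 lines, from `S_CO`).  Decay of the Taylor coefficients of a Hölder function: apply the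
Cauchy estimate to `P z - P (ω z)`, `ω = exp (i π / m)`, `ω ^ m = -1`, `‖1 - ω‖ ≤ π / m`. -/
def S_HF : Prop :=
  ∀ (P : ℂ → ℂ) (H α : ℝ), 0 ≤ H → 0 < α → DifferentiableOn ℂ P (ball 0 1) →
    (∀ z ∈ ball (0 : ℂ) 1, ∀ w ∈ ball (0 : ℂ) 1, ‖P z - P w‖ ≤ H * ‖z - w‖ ^ α) →
    ∀ m : ℕ, 1 ≤ m → ‖co m P‖ ≤ H * (Real.pi / m) ^ α

/-- HB (150 lines, only real/complex estimates).  Hölder continuity of an infinite product.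
Put `z_0 = z`, `z_(i+1) = σ_i z_i ^ 2`, `d = ‖z - w‖ ≤ 2`; then `‖z_i - w_i‖ ≤ min 2 (2 ^ i d)`.
`P 0 z ∏_{i<N} q i (z_i) = P N (z_N)`, so `P 0 z / P 0 w = (P N z_N / P N w_N) ∏ (q i w_i / q i z_i)`
and `‖q i w_i / q i z_i - 1‖ ≤ 2 a_i min 2 (2 ^ i d)`; hence `‖P 0 z / P 0 w - 1‖ ≤ exp D - 1`
with `D = ∑ 2 a_i min 2 (2 ^ i d) ≤ 2 A F d`, `F d = ∑_{i<N} 2 ^ (-α i) min 2 (2 ^ i d)`, after
`N → ∞`.  Lemma: `F d ≤ K d ^ α - K' d` for `0 ≤ d ≤ 2`, all `N`, with `K' = 1 / (2 ^ (1-α) - 1)`,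
`K = 2 / (1 - 2 ^ (-α)) + 2 K'`, by induction on `N` from
`F_(N+1) d = min 2 d + 2 ^ (-α) F_N (2 d)` (for `d > 1` bound `F` trivially by
`2 / (1 - 2 ^ (-α))`). -/
def S_HB : Prop :=
  ∀ (P q : ℕ → ℂ → ℂ) (σ : ℕ → ℂ) (a b : ℕ → ℝ) (A α : ℝ), 0 < α → α < 1 → (∀ i, ‖σ i‖ = 1) →
    (∀ i, 0 ≤ a i) → (∀ i, a i ≤ 1 / 2) → (∀ i : ℕ, a i ≤ A * (2 : ℝ) ^ (-α * i)) →
    (∀ i, ∀ z ∈ ball (0 : ℂ) 1, ‖q i z - 1‖ ≤ a i) →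
    (∀ i, ∀ z ∈ ball (0 : ℂ) 1, ∀ w ∈ ball (0 : ℂ) 1, ‖q i z - q i w‖ ≤ a i * ‖z - w‖) →
    (∀ i, ∀ z ∈ ball (0 : ℂ) 1, P i z * q i z = P (i + 1) (σ i * z ^ 2)) →
    (∀ i, ∀ z ∈ ball (0 : ℂ) 1, ‖P i z - 1‖ ≤ b i) → Tendsto b atTop (𝓝 0) → (∀ i, b i ≤ 1 / 2) →
    ∃ H : ℝ, 0 ≤ H ∧ ∀ z ∈ ball (0 : ℂ) 1, ∀ w ∈ ball (0 : ℂ) 1,
      ‖P 0 z - P 0 w‖ ≤ H * ‖z - w‖ ^ α

end Pool.Agent.P8H70.SR
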