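import Mathlib
import Pool.Agent.P8H70.SR.Stm

/-! Project SR, part 2: all Hölder exponents.  Statements of the packages. -/

set_option autoImplicit false

open Filter Topology Metric Set

namespace Pool.Agent.P8H70.SR

/-- Hölder continuity on a set -/
def HO (α : ℝ) (f : ℂ → ℂ) (S : Set ℂ) : Prop :=
  ∃ H : ℝ, ∀ z ∈ S, ∀ w ∈ S, ‖f z - f w‖ ≤ H * ‖z - w‖ ^ α

/-- HB1 (80 lines; Lipschitz version of `S_HB`, model `Pool/Agent/P8H45/SR/Hb.lean`).  As there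
`‖P 0 z / P 0 w - 1‖ ≤ exp D - 1` with `D = ∑ 2 a_i 2 ^ i d ≤ 2 A d / (1 - 2 ^ (1 - β))`,
`d = ‖z - w‖ ≤ 2`, so `exp D - 1 ≤ D exp D` gives `K = 2 * (2 A / (1 - 2 ^ (1 - β))) * exp (...)`. -/
def S_HB1 : Prop :=
  ∀ A β : ℝ, 1 < β → ∃ K : ℝ, 0 ≤ K ∧
    ∀ (P q : ℕ → ℂ → ℂ) (σ : ℕ → ℂ) (a b : ℕ → ℝ), (∀ i, ‖σ i‖ = 1) →
    (∀ i, 0 ≤ a i) → (∀ i, a i ≤ 1 / 2) → (∀ i : ℕ, a i ≤ A * (2 : ℝ) ^ (-β * i)) →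
    (∀ i, ∀ z ∈ ball (0 : ℂ) 1, ‖q i z - 1‖ ≤ a i) →
    (∀ i, ∀ z ∈ ball (0 : ℂ) 1, ∀ w ∈ ball (0 : ℂ) 1, ‖q i z - q i w‖ ≤ a i * ‖z - w‖) →
    (∀ i, ∀ z ∈ ball (0 : ℂ) 1, P i z * q i z = P (i + 1) (σ i * z ^ 2)) →
    (∀ i, ∀ z ∈ ball (0 : ℂ) 1, ‖P i z - 1‖ ≤ b i) → Tendsto b atTop (𝓝 0) → (∀ i, b i ≤ 1 / 2) →
    ∀ z ∈ ball (0 : ℂ) 1, ∀ w ∈ ball (0 : ℂ) 1, ‖P 0 z - P 0 w‖ ≤ K * ‖z - w‖

/-- HB2 (200 lines).  Hölder continuity of the derivative of the infinite product, `γ = β - 1`.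
`z_0 = z`, `z_(i+1) = σ_i z_i ^ 2`, so `z_i = s_i z ^ (2 ^ i)`, `‖s_i‖ = 1`.  The logarithmic
derivative of `P 0 z ∏_{i<N} q i (z_i) = P N (z_N)` is
`P 0' / P 0 (z) = 2 ^ N s_N z ^ (2 ^ N - 1) (P N' / P N) (z_N) - ∑_{i<N} t_i z`,
`t_i z = 2 ^ i s_i z ^ (2 ^ i - 1) (q i' / q i) (z_i)`.  For fixed `z` the first term is at most
`2 K 2 ^ N ‖z‖ ^ (2 ^ N - 1) → 0`.  `‖t_i‖ ≤ 2 ^ i 2 a_i` and `t_i` is Lipschitz with the constant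
`C (1 + B) 2 ^ (2 i) a_i` (first differences of `z ^ (2 ^ i - 1)`, `q i'`, `q i`), so
`‖t_i z - t_i w‖ ≤ C' 2 ^ i a_i min 2 (2 ^ i d)` and `2 ^ i a_i ≤ A 2 ^ (-γ i)`; the sum over `i` is at
most `C'' d ^ γ` by the lemma in `S_HB` (`Pool/Agent/P8H45/SR/Hb.lean`).  Hence `P 0' / P 0` is
`γ`-Hölder, and so is `P 0' = P 0 (P 0' / P 0)`. -/
def S_HB2 : Prop :=
  ∀ (P q : ℕ → ℂ → ℂ) (σ : ℕ → ℂ) (a : ℕ → ℝ) (A β B K : ℝ), 1 < β → β < 2 →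
    0 ≤ B → 0 ≤ K → (∀ i, ‖σ i‖ = 1) →
    (∀ i, 0 ≤ a i) → (∀ i, a i ≤ 1 / 2) → (∀ i : ℕ, a i ≤ A * (2 : ℝ) ^ (-β * i)) →
    (∀ i, DifferentiableOn ℂ (P i) (ball 0 1)) → (∀ i, DifferentiableOn ℂ (q i) (ball 0 1)) →
    (∀ i, ∀ z ∈ ball (0 : ℂ) 1, ‖P i z - 1‖ ≤ 1 / 2) →
    (∀ i, ∀ z ∈ ball (0 : ℂ) 1, ‖deriv (P i) z‖ ≤ K) →
    (∀ i, ∀ z ∈ ball (0 : ℂ) 1, ‖q i z - 1‖ ≤ a i) →
    (∀ i, ∀ z ∈ ball (0 : ℂ) 1, ‖deriv (q i) z‖ ≤ a i) →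
    (∀ i, ∀ z ∈ ball (0 : ℂ) 1, ∀ w ∈ ball (0 : ℂ) 1,
      ‖deriv (q i) z - deriv (q i) w‖ ≤ B * a i * ‖z - w‖) →
    (∀ i, ∀ z ∈ ball (0 : ℂ) 1, P i z * q i z = P (i + 1) (σ i * z ^ 2)) →
    HO (β - 1) (deriv (P 0)) (ball 0 1)

/-- LG (150 lines; model `Pool/Agent/P8H57/SR/Hfl.lean`).  Local Hölder continuity of
`E (s z ^ (2 ^ m))` implies Hölder continuity of `E`.  `N = 2 ^ m`.  `W` contains the points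
`r exp (i θ)`, `r₀ < r < 1`, `|θ - θ₀| < η`; `m₀` with `2 π / 2 ^ m₀ < η / 2`.  Every `w` with
`r₁ := r₀ ^ N < ‖w‖ < 1` is `s z ^ N`, `z = r exp (i θ)`, `r₀ < r < 1`, `θ₀ ≤ θ < θ₀ + η / 2`; if
`u = w' / w` is close to `1` then `z' = z exp (log u / N)` has `s z' ^ N = w'`, `z' ∈ W` (if also
`r₁ < ‖w'‖ < 1`) and `‖z' - z‖ ≤ 4 ‖u - 1‖`; so `‖E w - E w'‖ ≤ H (4 ‖w - w'‖ / r₁) ^ γ` for
`‖w - w'‖ < δ`.  `E` is bounded on the annulus, hence on the disc (compactness), which settles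
`‖w - w'‖ ≥ δ`; for `‖w - w'‖ < δ` (`δ` small) either both are in the annulus or both are in a compact
disc of radius `< 1`, where `E` is Lipschitz. -/
def S_LG : Prop :=
  ∀ W : Set ℂ, IsOpen W → (W ∩ sphere (0 : ℂ) 1).Nonempty → ∃ m₀ : ℕ, ∀ m : ℕ, m₀ ≤ m →
    ∀ (E : ℂ → ℂ) (s : ℂ) (γ : ℝ), ‖s‖ = 1 → 0 < γ → γ < 1 → DifferentiableOn ℂ E (ball 0 1) →
      HO γ (fun z => E (s * z ^ (2 ^ m))) (ball 0 1 ∩ W) → HO γ E (ball 0 1)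

/-- DIV (80 lines).  `E z = z F z`, `‖E‖ ≤ H` on the disc, `‖F‖ ≤ 2 H` (max principle).
For `‖z‖, ‖w‖ ≥ 1/2`: `F z - F w = (E z - E w) / z + E w (1 / z - 1 / w)`; for
`‖z‖, ‖w‖ ≤ 3/4`: `F` is Lipschitz (Cauchy estimate); otherwise `‖z - w‖ ≥ 1/4`. -/
def S_DIV : Prop :=
  ∀ (F : ℂ → ℂ) (γ : ℝ), 0 < γ → γ ≤ 1 → DifferentiableOn ℂ F (ball 0 1) →
    HO γ (fun z => z * F z) (ball 0 1) → HO γ F (ball 0 1)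

/-- UP (60 lines, from `S_DIV`).  `w φ' + w ^ 2 φ'' = w G₁'` with `G₁ = w φ'`; by `S_DIV` `G₁'` is
`α`-Hölder, hence bounded, `G₁` is Lipschitz, by `S_DIV` with `γ = 1` `φ'` is Lipschitz, so
`w φ'' = G₁' - φ'` is `α`-Hölder, and again `S_DIV`. -/
def S_UP : Prop :=
  ∀ (φ : ℂ → ℂ) (α : ℝ), 0 < α → α < 1 → DifferentiableOn ℂ φ (ball 0 1) →
    HO α (fun w => w * deriv φ w + w ^ 2 * deriv (deriv φ) w) (ball 0 1) →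
    HO α (deriv (deriv φ)) (ball 0 1)

/-- CMP (100 lines).  `S` is bounded and convex, so `φ''` is bounded on `S`, `φ'` is bounded and
Lipschitz on `S`, `φ` is Lipschitz on `S`; `f`, `f'`, `f''` are bounded and Lipschitz on the
closed disc of radius `R`; `(f ∘ φ)' = f' (φ) φ'`, `(f ∘ φ)'' = f'' (φ) φ' ^ 2 + f' (φ) φ''`. -/
def S_CMP : Prop :=
  ∀ (f φ : ℂ → ℂ) (S : Set ℂ) (R α : ℝ), 0 < α → α < 1 → Differentiable ℂ f →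
    DifferentiableOn ℂ φ (ball 0 1) → IsOpen S → Convex ℝ S → S ⊆ ball 0 1 →
    (∀ z ∈ ball (0 : ℂ) 1, ‖φ z‖ ≤ R) → HO α (deriv (deriv φ)) S →
    HO α (fun z => z * deriv (fun z => f (φ z)) z + z ^ 2 * deriv (deriv (fun z => f (φ z))) z) S

/-- CHN (50 lines).  Chain rule for the operator `(z d/dz) ^ 2`. -/
def S_CHN : Prop :=
  ∀ (φ : ℂ → ℂ) (s : ℂ) (N : ℕ), 1 ≤ N → ‖s‖ = 1 → DifferentiableOn ℂ φ (ball 0 1) →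
    ∀ z ∈ ball (0 : ℂ) 1, z * deriv (fun z => φ (s * z ^ N)) z +
      z ^ 2 * deriv (deriv (fun z => φ (s * z ^ N))) z =
      (N : ℂ) ^ 2 * ((s * z ^ N) * deriv φ (s * z ^ N) +
        (s * z ^ N) ^ 2 * deriv (deriv φ) (s * z ^ N))

/-- DOWN (60 lines).  A function with a bounded derivative on a bounded convex open set is bounded and
Lipschitz; apply this to `iteratedDeriv j φ`, `j = k, k - 1, ..., 2` (`iteratedDeriv_succ`). -/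
def S_DOWN : Prop :=
  ∀ (φ : ℂ → ℂ) (S : Set ℂ) (k : ℕ) (α α' : ℝ), 0 < α → α < 1 → 0 < α' → α' < 1 → 2 ≤ k →
    DifferentiableOn ℂ φ (ball 0 1) → IsOpen S → Convex ℝ S → S ⊆ ball 0 1 →
    HO α (iteratedDeriv (k + 1) φ) S → HO α' (deriv (deriv φ)) S

end Pool.Agent.P8H70.SR
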