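import Mathlib
import Pool.Agent.P8H70.SR.Stm

/-! Project SR, local version. -/

set_option autoImplicit false

open Filter Topology Metric Set

namespace Pool.Agent.P8H70.SR

/-- HFL (120 lines, from `S_CO`).  Local Hölder continuity implies decay of Taylor coefficients.
`W` contains a neighbourhood of a point `exp (i θ₀)`, so there are `r₀ < 1`, `η > 0` with
`r exp (i θ) ∈ W` for `r₀ < r < 1`, `|θ - θ₀| < η`.  Choose `m` with `2 π / 2 ^ m < η / 2`.  Put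
`z_0 = z`, `z_(i+1) = σ_i z_i ^ 2`, so that `z_m = s z ^ (2 ^ m)` with a fixed `s`, `‖s‖ = 1`.
`P 0 z ∏_{i<m} q i (z_i) = P m (z_m)`, hence `R z = P m (s z ^ (2 ^ m))` satisfies
`‖R z - R w‖ ≤ H₁ ‖z - w‖ ^ α` on `W ∩ ball 0 1` (finite product of bounded Lipschitz functions,
`‖z - w‖ ≤ 2 ‖z - w‖ ^ α`).  Let `M ≥ 1`, `ω = exp (i π / M)`.  For `r₀ ^ (2 ^ m) < ‖w‖ < 1` there is
`z = ‖w‖ ^ (1 / 2 ^ m) exp (i θ)`, `θ₀ ≤ θ < θ₀ + 2 π / 2 ^ m`, with `s z ^ (2 ^ m) = w`, and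
`z' = z exp (i π / (M 2 ^ m)) ∈ W` satisfies `s z' ^ (2 ^ m) = ω w`; so
`‖P m w - P m (ω w)‖ = ‖R z - R z'‖ ≤ H₁ (π / M) ^ α`.  The Cauchy estimate on the circles of radius
`< 1` near `1` for `D w = P m w - P m (ω w)`, whose coefficient is `(1 - ω ^ M) co M (P m) =
2 co M (P m)`, gives the result. -/
def S_HFL : Prop :=
  ∀ (P q : ℕ → ℂ → ℂ) (σ : ℕ → ℂ) (α H : ℝ) (W : Set ℂ), 0 < α → α < 1 → (∀ i, ‖σ i‖ = 1) →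
    (∀ i, DifferentiableOn ℂ (P i) (ball 0 1)) →
    (∀ i, ∀ z ∈ ball (0 : ℂ) 1, ‖P i z‖ ≤ 2) → (∀ i, ∀ z ∈ ball (0 : ℂ) 1, ‖q i z‖ ≤ 2) →
    (∀ i, ∀ z ∈ ball (0 : ℂ) 1, ∀ w ∈ ball (0 : ℂ) 1, ‖q i z - q i w‖ ≤ ‖z - w‖) →
    (∀ i, ∀ z ∈ ball (0 : ℂ) 1, P i z * q i z = P (i + 1) (σ i * z ^ 2)) →
    IsOpen W → (W ∩ sphere (0 : ℂ) 1).Nonempty →
    (∀ z ∈ ball (0 : ℂ) 1 ∩ W, ∀ w ∈ ball (0 : ℂ) 1 ∩ W, ‖P 0 z - P 0 w‖ ≤ H * ‖z - w‖ ^ α) →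
    ∃ (m : ℕ) (H' : ℝ), ∀ M : ℕ, 1 ≤ M → ‖co M (P m)‖ ≤ H' * (Real.pi / M) ^ α

end Pool.Agent.P8H70.SR
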