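import Mathlib
import Pool.Agent.P8H70.SR.Stm
import Pool.Agent.P8H70.WD.Inv

/-! The conformal maps of the wandering domains of `f₀` form an abstract system. -/

set_option autoImplicit false

open Filter Topology Metric Set

namespace Pool.Agent.P8H70.SR

open Pool.Agent.H384R2.Fatou Pool.Agent.H723R2.LSW Pool.Agent.Y282.WD Pool.Agent.P8H70.WD

theorem E_eq (m : ℤ) {h : ℂ} (h0 : h ≠ 0) :
    E m h = (f₀ (m + h) - (T m : ℂ) - sg m * bt m * h ^ 2) / (sg m * bt m * h ^ 2) := by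
  have h1 := Q_eq m h
  have h2 : Q m h = f₀ (m + h) - (T m : ℂ) := rfl
  have hsb := sb_ne (bt0 m)
  rw [← h2, h1]
  unfold E
  clear h1 h2
  generalize dslope (dslope (Q m) 0) 0 h = R
  generalize sg m * (bt m : ℂ) = c at *
  field_simp

theorem E_bd : ∃ C : ℝ, 1 ≤ C ∧ ∀ (m : ℤ) (h : ℂ), ‖h‖ ≤ 1 →
    ‖E m h‖ ≤ C * ‖h‖ * (1 / bt m + ‖h‖) := by
  obtain ⟨C, hC1, hC⟩ := near'
  refine ⟨C, hC1, fun m => ?_⟩
  have hb := bt0 m
  have main : ∀ h : ℂ, h ≠ 0 → ‖h‖ ≤ 1 → ‖E m h‖ ≤ C * ‖h‖ * (1 / bt m + ‖h‖) := by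
    intro h h0 h1
    have hn : 0 < ‖h‖ := norm_pos_iff.2 h0
    rw [E_eq m h0, norm_div]
    have e2 : ‖sg m * (bt m : ℂ) * h ^ 2‖ = bt m * ‖h‖ ^ 2 := by
      rw [norm_mul, norm_mul, sg_norm, norm_pow, Complex.norm_real, Real.norm_of_nonneg hb.le,
        one_mul]
    rw [e2, div_le_iff₀ (by positivity)]
    refine (hC m h h1).trans (le_of_eq ?_)
    field_simp
  intro h hh
  by_cases h0 : h = 0
  · subst h0
    have h1 : Tendsto (fun w => ‖E m w‖) (𝓝[≠] (0 : ℂ)) (𝓝 ‖E m 0‖) :=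
      ((E_diff m).continuous.norm.tendsto 0).mono_left nhdsWithin_le_nhds
    have h2 : Tendsto (fun w : ℂ => C * ‖w‖ * (1 / bt m + ‖w‖)) (𝓝[≠] (0 : ℂ))
        (𝓝 (C * ‖(0 : ℂ)‖ * (1 / bt m + ‖(0 : ℂ)‖))) := by
      refine (Continuous.tendsto ?_ 0).mono_left nhdsWithin_le_nhds
      fun_prop
    refine le_of_tendsto_of_tendsto h1 h2 ?_
    have h3 : ∀ᶠ w in 𝓝 (0 : ℂ), ‖w‖ ≤ 1 := by
      filter_upwards [closedBall_mem_nhds (0 : ℂ) one_pos] with w hw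
      simpa using hw
    filter_upwards [self_mem_nhdsWithin, nhdsWithin_le_nhds h3] with w hw1 hw2
    exact main w hw1 hw2
  · exact main h h0 hh

theorem E_zero (m : ℤ) : E m 0 = 0 := by
  obtain ⟨C, -, hC⟩ := E_bd
  have h1 := hC m 0 (by simp)
  simpa using h1

theorem E_small : ∃ r₀ : ℝ, 0 < r₀ ∧ r₀ ≤ 1 ∧ ∀ (m : ℤ), ∀ h ∈ ball (0 : ℂ) r₀,
    ‖E m h‖ ≤ 1 / 2 := by
  obtain ⟨C, hC1, hC⟩ := E_bd
  have hC0 : 0 < C := by linarith
  have hr1 : 1 / (4 * C) ≤ 1 := by rw [div_le_one (by positivity)]; linarith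
  refine ⟨1 / (4 * C), by positivity, hr1, fun m h hh => ?_⟩
  rw [mem_ball, dist_zero_right] at hh
  have hb : 1 < bt m := (hT.1 m).1
  have h0 : 0 ≤ ‖h‖ := norm_nonneg h
  refine (hC m h (hh.le.trans hr1)).trans ?_
  have h1 : C * ‖h‖ ≤ 1 / 4 := by
    rw [lt_div_iff₀ (by positivity)] at hh
    linarith
  have h2 : 1 / bt m ≤ 1 := by rw [div_le_one (by linarith)]; exact hb.le
  have h3 : ‖h‖ ≤ 1 := hh.le.trans hr1
  have h4 : 0 < 1 / bt m := by positivity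
  calc C * ‖h‖ * (1 / bt m + ‖h‖) ≤ 1 / 4 * (1 + 1) := by gcongr
    _ = 1 / 2 := by norm_num

/-- minus the logarithm of the distortion factor -/
noncomputable def gg (n : ℤ) (i : ℕ) (ζ : ℂ) : ℂ := -S (T^[i] n) (ph (T^[i] n) ζ)

noncomputable def LL (n : ℤ) (i : ℕ) (h : ℂ) : ℂ := Complex.log (1 + E (T^[i] n) h)

theorem GT_iter {C : ℝ} {n : ℤ} (h : GT C n) (i : ℕ) : GT C (T^[i] n) := by
  induction i with
  | zero => exact h
  | succ i ih => rw [Function.iterate_succ_apply']; exact GT_step ih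

theorem f₀_iter_int (n : ℤ) (i : ℕ) : f₀^[i] (n : ℂ) = ((T^[i] n : ℤ) : ℂ) := by
  induction i with
  | zero => simp
  | succ i ih => rw [Function.iterate_succ_apply', ih, f₀_int, Function.iterate_succ_apply']

theorem S_self (n : ℤ) : S n n = 0 := by
  unfold S
  have : ∀ i : ℕ, g n i n = 0 := by
    intro i
    unfold g P8H70.WD.F
    rw [f₀_iter_int, sub_self, E_zero, add_zero, Complex.log_one, zero_div]
  simp_rw [this]
  exact tsum_zero

theorem ph_exp {C : ℝ} {n : ℤ} (h : GT C n) {ζ : ℂ} (hζ : ζ ∈ closedBall (0 : ℂ) 1) :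
    ph n ζ - n = rho n * ζ * Complex.exp (-S n (ph n ζ)) := by
  have h1 := B_ph h hζ
  have h2 : (rho n : ℂ) ≠ 0 := by exact_mod_cast (rho_pos n).ne'
  unfold B at h1
  rw [Complex.exp_neg]
  have h3 := Complex.exp_ne_zero (S n (ph n ζ))
  generalize Complex.exp (S n (ph n ζ)) = e at *
  generalize ph n ζ - n = w at *
  rw [← h1]
  field_simp

theorem sys_diff {C : ℝ} {n : ℤ} (h : GT C n) (i : ℕ) : DifferentiableOn ℂ (gg n i) (ball 0 1) := by
  intro ζ hζ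
  have h1 := GT_iter h i
  exact ((S_hasDeriv h1 (ph_U h1 hζ)).comp ζ (ph_deriv_in h1 hζ)).neg.differentiableAt.differentiableWithinAt

theorem sys_eq {C : ℝ} {n : ℤ} (h : GT C n) (i : ℕ) {ζ : ℂ} (hζ : ζ ∈ closedBall (0 : ℂ) 1) :
    2 * gg n i ζ = -LL n i (rho (T^[i] n) * ζ * Complex.exp (gg n i ζ)) +
      gg n (i + 1) (sg (T^[i] n) * ζ ^ 2) := by
  have h1 := GT_iter h i
  have h2 := ph_exp h1 hζ
  have h3 := S_rec h1.he h1.tl (W_sub_K h1 (ph_mem h1 hζ))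
  have h4 := ph_eq h1 hζ
  unfold gg LL
  rw [← h2, Function.iterate_succ_apply', ← h4]
  have h5 : P8H70.WD.F (T^[i] n) 0 (ph (T^[i] n) ζ) =
      1 + E (T^[i] n) (ph (T^[i] n) ζ - (T^[i] n : ℤ)) := by
    unfold P8H70.WD.F; simp
  rw [h5] at h3
  linear_combination (-1 : ℂ) * h3

theorem sys {C : ℝ} {n : ℤ} {r₀ A ε : ℝ} (hE : ∀ (m : ℤ), ∀ h ∈ ball (0 : ℂ) r₀,
    ‖E m h‖ ≤ 1 / 2) (hA : ∀ i, ‖co 1 (LL n i)‖ ≤ A * rho (T^[i] n))
    (hε : ∀ i : ℕ, 3 / ε ≤ bt (T^[i] n)) (hε0 : 0 < ε) (h : GT C n) :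
    Sys (gg n) (LL n) (fun i => rho (T^[i] n)) (fun i => sg (T^[i] n)) A r₀ ε where
  hσ := fun i => sg_norm _
  g_diff := sys_diff h
  g_bdd := fun i ζ hζ => by
    have h1 := GT_iter h i
    have h2 := S_le h1.he h1.tl (W_sub_K h1 (ph_mem h1 (ball_subset_closedBall hζ)))
    have h3 := dl_le h1.he h1.tl
    unfold gg
    rw [norm_neg]
    linarith
  g_zero := fun i => by
    have h1 := GT_iter h i
    unfold gg
    rw [ph_zero h1, S_self, neg_zero]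
  L_diff := fun i => by
    intro w hw
    have h1 : 1 + E (T^[i] n) w ∈ Complex.slitPlane :=
      Complex.mem_slitPlane_of_norm_lt_one (lt_of_le_of_lt (hE _ w hw) (by norm_num))
    exact ((((E_diff (T^[i] n)) w).const_add 1).clog h1).differentiableWithinAt
  L_bdd := fun i w hw => by
    have h1 := hE (T^[i] n) w hw
    have h2 := Complex.norm_log_one_add_half_le_self h1
    unfold LL
    linarith
  L_zero := fun i => by
    unfold LL
    rw [E_zero, add_zero, Complex.log_one]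
  L_one := hA
  ρ_pos := fun i => rho_pos _
  ρ_le := fun i => by
    have h1 := (hT.2 (T^[i] n)).2.2.2
    have h2 := hε i
    have h3 := rho_pos (T^[i] n)
    have h4 : 3 / ε * rho (T^[i] n) ≤ 3 := le_trans (by gcongr) h1
    have h5 : 3 / ε * rho (T^[i] n) = 3 * rho (T^[i] n) / ε := by ring
    rw [h5, div_le_iff₀ hε0] at h4
    show rho (T^[i] n) ≤ ε
    linarith
  ρ_step := fun i => by
    have h1 := hT.2 (T^[i] n)
    show rho (T^[i] n) ≤ 4 * rho (T^[i + 1] n)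
    rw [Function.iterate_succ_apply', h1.2.1]
    have h2 := h1.2.2.1
    have h3 := h1.1
    nlinarith
  eq := fun i ζ hζ => sys_eq h i (ball_subset_closedBall hζ)

end Pool.Agent.P8H70.SR
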