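import Mathlib
import Pool.Agent.P8H70.SR.Sysf

/-! The second Taylor coefficient: the main term. -/

set_option autoImplicit false

open Filter Topology Metric Set

namespace Pool.Agent.P8H70.SR

open Pool.Agent.H384R2.Fatou Pool.Agent.H723R2.LSW Pool.Agent.Y282.WD Pool.Agent.P8H70.WD

theorem E_an (m : ℤ) : AnalyticAt ℂ (E m) 0 := (E_diff m).analyticAt 0

theorem co_const (hco : S_CO) (m : ℕ) (hm : m ≠ 0) (c : ℂ) : co m (fun _ => c) = 0 := by
  obtain ⟨-, -, h2, -, -, -, h6, -, -⟩ := hco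
  have h := h2 m c (fun z => z ^ 0) (by fun_prop)
  rw [h6, if_neg hm, mul_zero] at h
  simpa using h

theorem co_shift2 (hco : S_CO) (m : ℤ) (k : ℕ) (hk : k ≠ 0) :
    co (k + 2) (Q m) = sg m * bt m * co k (E m) := by
  have hc := co_const hco k hk 1
  obtain ⟨-, h1, h2, -, h4, -, -, -, -⟩ := hco
  have e : Q m = fun z => (sg m * bt m) * (z * (z * (1 + E m z))) := by
    funext z
    have h := f₀_eq m (bt0 m) (m + z)
    rw [add_sub_cancel_left] at h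
    show f₀ (m + z) - (T m : ℂ) = _
    linear_combination h
  have a1 : AnalyticAt ℂ (fun z => 1 + E m z) 0 := analyticAt_const.add (E_an m)
  have a2 : AnalyticAt ℂ (fun z => z * (1 + E m z)) 0 := analyticAt_id.mul a1
  have a3 : AnalyticAt ℂ (fun z => z * (z * (1 + E m z))) 0 := analyticAt_id.mul a2
  rw [e, h2 _ _ _ a3, h4 _ _ a2, h4 _ _ a1, h1 k (fun _ => 1) (E m) analyticAt_const (E_an m), hc,
    zero_add]

/-- `cos (π m)` -/
noncomputable def ev (m : ℤ) : ℝ := if m % 2 = 0 then 1 else -1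

theorem ev_cos (m : ℤ) : Complex.cos (Real.pi * (m : ℂ)) = (ev m : ℂ) := by
  rw [cos_int]; unfold ev; split_ifs <;> simp

theorem Q_fun (m : ℤ) : Q m = fun h : ℂ => (h - Complex.sin (2 * Real.pi * h) / (2 * Real.pi)) +
      (ev m : ℂ) / 2 * (Complex.sin (Real.pi * h) / Real.pi - h * Complex.cos (Real.pi * h)) +
      (ev m : ℂ) / 2 * ((m : ℂ) + 1 / 2) * (1 - Complex.cos (Real.pi * h)) := by
  funext h
  have h1 := key' m h
  rw [ev_cos] at h1
  have hp : (Real.pi : ℂ) ≠ 0 := by exact_mod_cast Real.pi_ne_zero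
  have h2 : Complex.sin (2 * Real.pi * h) =
      2 * Complex.sin (Real.pi * h) * Complex.cos (Real.pi * h) := by
    rw [mul_assoc, Complex.sin_two_mul]
  show f₀ (m + h) - (T m : ℂ) = _
  rw [h1, h2]
  unfold Y888.WD.fA Y888.WD.fB Y888.WD.fD
  field_simp

theorem e_one (hco : S_CO) (ht : S_TRIG) (m : ℤ) :
    co 1 (E m) = Real.pi ^ 2 * (2 / 3 + (ev m : ℂ) / 6) / (sg m * bt m) := by
  have h1 := co_shift2 hco m 1 one_ne_zero
  have h2 := (ht (ev m) m).1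
  rw [← Q_fun] at h2
  rw [eq_div_iff (sb_ne (bt0 m)), ← h2, h1]
  ring

theorem ev_ne (m : ℤ) : (ev m : ℂ) ≠ 0 := by
  unfold ev; split_ifs <;> simp

theorem half_ne (m : ℤ) : (m : ℂ) + 1 / 2 ≠ 0 := by
  intro h
  have h1 : (2 * m + 1 : ℂ) = 0 := by linear_combination 2 * h
  have h2 : 2 * m + 1 = 0 := by exact_mod_cast h1
  omega

theorem e_two (hco : S_CO) (ht : S_TRIG) (m : ℤ) : co 2 (E m) = -(Real.pi : ℂ) ^ 2 / 12 := by
  have h1 := co_shift2 hco m 2 two_ne_zero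
  have h2 := (ht (ev m) m).2
  rw [← Q_fun, h1, sg_bt, ev_cos] at h2
  have hp : (Real.pi : ℂ) ≠ 0 := by exact_mod_cast Real.pi_ne_zero
  have h3 := ev_ne m
  have h4 := half_ne m
  have h5 : (ev m : ℂ) * ((m : ℂ) + 1 / 2) * (Real.pi : ℂ) ^ 2 / 4 ≠ 0 := by
    have := mul_ne_zero (mul_ne_zero h3 h4) (pow_ne_zero 2 hp)
    exact div_ne_zero this (by norm_num)
  apply mul_left_cancel₀ h5
  linear_combination h2

theorem LL_one (hco : S_CO) (ht : S_TRIG) (hl : S_LOG2) (n : ℤ) (i : ℕ) :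
    co 1 (LL n i) = Real.pi ^ 2 * (2 / 3 + (ev (T^[i] n) : ℂ) / 6) /
      (sg (T^[i] n) * bt (T^[i] n)) := by
  rw [← e_one hco ht]
  exact (hl _ (E_an _) (E_zero _)).1

theorem LL_two (hco : S_CO) (ht : S_TRIG) (hl : S_LOG2) (n : ℤ) (i : ℕ) :
    co 2 (LL n i) = -(Real.pi : ℂ) ^ 2 / 12 - co 1 (LL n i) ^ 2 / 2 := by
  rw [show co 1 (LL n i) = co 1 (E (T^[i] n)) from (hl _ (E_an _) (E_zero _)).1, ← e_two hco ht
    (T^[i] n)]
  exact (hl _ (E_an _) (E_zero _)).2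

theorem ev_bd (m : ℤ) : ev m = 1 ∨ ev m = -1 := by
  unfold ev; split_ifs <;> simp

theorem LL_one_le (hco : S_CO) (ht : S_TRIG) (hl : S_LOG2) (n : ℤ) (i : ℕ) :
    ‖co 1 (LL n i)‖ ≤ 9 / bt (T^[i] n) := by
  rw [LL_one hco ht hl, norm_div, norm_mul, norm_mul, sg_norm, one_mul, Complex.norm_real,
    Real.norm_of_nonneg (bt0 _).le]
  have hb := bt0 (T^[i] n)
  have h1 : ‖(Real.pi : ℂ) ^ 2‖ ≤ 10 := by
    rw [norm_pow, Complex.norm_real, Real.norm_of_nonneg Real.pi_pos.le]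
    have := Real.pi_lt_d2
    have := Real.pi_pos
    nlinarith
  have h2 : ‖(2 / 3 + (ev (T^[i] n) : ℂ) / 6)‖ ≤ 5 / 6 := by
    have : (2 / 3 + (ev (T^[i] n) : ℂ) / 6) = ((2 / 3 + ev (T^[i] n) / 6 : ℝ) : ℂ) := by
      push_cast; ring
    rw [this, Complex.norm_real, Real.norm_eq_abs, abs_le]
    rcases ev_bd (T^[i] n) with h | h <;> rw [h] <;> constructor <;> norm_num
  gcongr
  exact (mul_le_mul h1 h2 (norm_nonneg _) (by norm_num)).trans (by norm_num)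

theorem LL_one_le' (hco : S_CO) (ht : S_TRIG) (hl : S_LOG2) (n : ℤ) (i : ℕ) :
    ‖co 1 (LL n i)‖ ≤ 18 * rho (T^[i] n) := by
  refine (LL_one_le hco ht hl n i).trans ?_
  have hb := bt0 (T^[i] n)
  have h1 := (hT.2 (T^[i] n)).2.2.1
  rw [div_le_iff₀ hb]
  linarith

/-- the ratio of consecutive coefficients -/
theorem ratio (x : ℤ) (hx : 250 ≤ bt (T x)) :
    |bt x / bt (T x) - 2| ≤ 1 / 100 ∨ |bt x / bt (T x) - 2 / 3| ≤ 1 / 100 := by
  have hp : 0 < Real.pi ^ 2 / 4 := by positivity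
  have hpp : Real.pi ^ 2 / 4 ≤ 5 / 2 := by
    have := Real.pi_lt_d2
    have := Real.pi_pos
    nlinarith
  unfold bt at *
  rw [mul_div_mul_left _ _ hp.ne']
  have hY : 100 ≤ |(T x : ℝ) + 1 / 2| := by
    have h0 : 0 ≤ |(T x : ℝ) + 1 / 2| := abs_nonneg _
    nlinarith
  have hY0 : 0 < |(T x : ℝ) + 1 / 2| := by linarith
  have key : ∀ c d : ℝ, |(|(x : ℝ) + 1 / 2| - c * |(T x : ℝ) + 1 / 2|)| ≤ d → d ≤ 1 →
      |(|(x : ℝ) + 1 / 2| / |(T x : ℝ) + 1 / 2| - c)| ≤ 1 / 100 := by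
    intro c d h1 h2
    have e : |(x : ℝ) + 1 / 2| / |(T x : ℝ) + 1 / 2| - c =
        (|(x : ℝ) + 1 / 2| - c * |(T x : ℝ) + 1 / 2|) / |(T x : ℝ) + 1 / 2| := by
      clear hY hx h1
      generalize |(x : ℝ) + 1 / 2| = X
      generalize |(T x : ℝ) + 1 / 2| = Y at *
      field_simp
    rw [e, abs_div, abs_abs, div_le_iff₀ hY0]
    linarith
  rcases Int.even_or_odd x with ⟨k, hk⟩ | ⟨k, hk⟩
  · left
    apply key 2 (1 / 2) _ (by norm_num)
    have hT' : T x = k := by rw [hk]; unfold T; rw [if_pos (by omega)]; omega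
    have e : 2 * |(T x : ℝ) + 1 / 2| = |2 * ((T x : ℝ) + 1 / 2)| := by
      rw [abs_mul, abs_of_pos (by norm_num : (0 : ℝ) < 2)]
    rw [e]
    refine (abs_abs_sub_abs_le _ _).trans ?_
    rw [hT', hk]
    push_cast
    rw [abs_le]
    constructor <;> linarith
  · right
    apply key (2 / 3) (1 / 6) _ (by norm_num)
    have hT' : T x = 3 * k + 2 := by rw [hk]; unfold T; rw [if_neg (by omega)]; omega
    have e : 2 / 3 * |(T x : ℝ) + 1 / 2| = |2 / 3 * ((T x : ℝ) + 1 / 2)| := by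
      rw [abs_mul, abs_of_pos (by norm_num : (0 : ℝ) < 2 / 3)]
    rw [e]
    refine (abs_abs_sub_abs_le _ _).trans ?_
    rw [hT', hk]
    push_cast
    rw [abs_le]
    constructor <;> linarith

theorem sg_real (m : ℤ) : sg m = 1 ∨ sg m = -1 := by
  unfold sg; split_ifs <;> simp

theorem num_bd {p a R s : ℝ} (hp1 : 9.8 ≤ p) (hp2 : p ≤ 9.9) (ha : a = 5 / 6 ∨ a = 1 / 2)
    (hs : s = 1 ∨ s = -1) (hR : |R - 2| ≤ 1 / 100 ∨ |R - 2 / 3| ≤ 1 / 100) :
    6 / 10 ≤ |p / 12 - s / 2 * (p * a) * R| ∧ |p / 12 - s / 2 * (p * a) * R| ≤ 99 / 10 := by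
  have e : p / 12 - s / 2 * (p * a) * R = p * (1 / 12 - s / 2 * a * R) := by ring
  rw [e, abs_mul, abs_of_pos (by linarith : (0 : ℝ) < p)]
  have hR' : ∃ R₀ : ℝ, (R₀ = 2 ∨ R₀ = 2 / 3) ∧ R₀ - 1 / 100 ≤ R ∧ R ≤ R₀ + 1 / 100 := by
    rcases hR with h | h
    · refine ⟨2, Or.inl rfl, ?_, ?_⟩ <;> linarith [(abs_le.1 h).1, (abs_le.1 h).2]
    · refine ⟨2 / 3, Or.inr rfl, ?_, ?_⟩ <;> linarith [(abs_le.1 h).1, (abs_le.1 h).2]
  obtain ⟨R₀, hR₀, l1, l2⟩ := hR'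
  have key : 7 / 100 ≤ |1 / 12 - s / 2 * a * R| ∧ |1 / 12 - s / 2 * a * R| ≤ 94 / 100 := by
    rcases ha with rfl | rfl <;> rcases hs with rfl | rfl <;> rcases hR₀ with rfl | rfl
    · rw [abs_of_nonpos (by linarith)]; constructor <;> linarith
    · rw [abs_of_nonpos (by linarith)]; constructor <;> linarith
    · rw [abs_of_nonneg (by linarith)]; constructor <;> linarith
    · rw [abs_of_nonneg (by linarith)]; constructor <;> linarith
    · rw [abs_of_nonpos (by linarith)]; constructor <;> linarith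
    · rw [abs_of_nonpos (by linarith)]; constructor <;> linarith
    · rw [abs_of_nonneg (by linarith)]; constructor <;> linarith
    · rw [abs_of_nonneg (by linarith)]; constructor <;> linarith
  constructor <;> nlinarith [key.1, key.2]

theorem main_eq (hco : S_CO) (ht : S_TRIG) (hl : S_LOG2) (hs : S_SECOND) {n : ℤ}
    {A r₀ ε : ℝ} (hr : 0 < r₀) (hy : Sys (gg n) (LL n) (fun i => rho (T^[i] n))
      (fun i => sg (T^[i] n)) A r₀ ε) (i : ℕ) :
    ∃ p : ℂ, ‖p‖ ≤ 81 / bt (T^[i] n) ^ 2 ∧ ∃ a R s : ℝ, (a = 5 / 6 ∨ a = 1 / 2) ∧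
      (s = 1 ∨ s = -1) ∧ R = bt (T^[i] n) / bt (T (T^[i] n)) ∧
    2 * co 2 (gg n i) = ((rho (T^[i] n) : ℝ) : ℂ) ^ 2 *
      (((Real.pi ^ 2 / 12 - s / 2 * (Real.pi ^ 2 * a) * R : ℝ) : ℂ) + p) := by
  have h1 := hs _ _ _ _ _ _ _ hr hy i
  have h2 := LL_one hco ht hl n (i + 1)
  rw [Function.iterate_succ_apply'] at h2
  refine ⟨co 1 (LL n i) ^ 2, ?_, 2 / 3 + ev (T (T^[i] n)) / 6, _,
    (if sg (T^[i] n) = sg (T (T^[i] n)) then 1 else -1), ?_, ?_, rfl, ?_⟩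
  · rw [norm_pow]
    have h3 := LL_one_le hco ht hl n i
    calc ‖co 1 (LL n i)‖ ^ 2 ≤ (9 / bt (T^[i] n)) ^ 2 := by gcongr
      _ = _ := by rw [div_pow]; norm_num
  · rcases ev_bd (T (T^[i] n)) with h | h <;> rw [h]
    · left; norm_num
    · right; norm_num
  · split_ifs <;> simp
  · rw [h1, h2, LL_two hco ht hl]
    simp only [Function.iterate_succ_apply']
    rw [(hT.2 (T^[i] n)).2.1]
    have hb : (bt (T (T^[i] n)) : ℂ) ≠ 0 := by exact_mod_cast (bt0 _).ne'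
    have e : sg (T^[i] n) / sg (T (T^[i] n)) =
        (((if sg (T^[i] n) = sg (T (T^[i] n)) then 1 else -1 : ℝ)) : ℂ) := by
      rcases sg_real (T^[i] n) with h | h <;> rcases sg_real (T (T^[i] n)) with h' | h' <;>
        rw [h, h']
      · norm_num
      · have : ¬ (1 : ℂ) = -1 := by norm_num
        rw [if_neg this]; norm_num
      · have : ¬ (-1 : ℂ) = 1 := by norm_num
        rw [if_neg this]; norm_num
      · norm_num
    have hsg : sg (T (T^[i] n)) ≠ 0 := by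
      rcases sg_real (T (T^[i] n)) with h | h <;> rw [h] <;> norm_num
    push_cast
    rw [← e]
    field_simp
    ring

theorem main_bd (hco : S_CO) (ht : S_TRIG) (hl : S_LOG2) (hs : S_SECOND) {n : ℤ}
    {A r₀ ε : ℝ} (hr : 0 < r₀) (hy : Sys (gg n) (LL n) (fun i => rho (T^[i] n))
      (fun i => sg (T^[i] n)) A r₀ ε) (hb : ∀ i : ℕ, 250 ≤ bt (T^[i] n)) (i : ℕ) :
    rho (T^[i] n) ^ 2 / 2 ≤ ‖2 * co 2 (gg n i)‖ ∧ ‖2 * co 2 (gg n i)‖ ≤ 10 * rho (T^[i] n) ^ 2 := by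
  obtain ⟨p, hp, a, R, s, ha, hs', hR, he⟩ := main_eq hco ht hl hs hr hy i
  have h1 := ratio (T^[i] n) (by
    have := hb (i + 1)
    rwa [Function.iterate_succ_apply'] at this)
  rw [← hR] at h1
  have hp0 := Real.pi_gt_d6
  have hp1 := Real.pi_lt_d6
  obtain ⟨l1, l2⟩ := num_bd (p := Real.pi ^ 2) (by nlinarith) (by nlinarith) ha hs' h1
  have hp2 : ‖p‖ ≤ 1 / 100 := by
    refine hp.trans ?_
    have := hb i
    rw [div_le_iff₀ (by positivity)]
    nlinarith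
  obtain ⟨V, hV⟩ : ∃ V : ℝ, V = Real.pi ^ 2 / 12 - s / 2 * (Real.pi ^ 2 * a) * R := ⟨_, rfl⟩
  rw [← hV] at he l1 l2
  rw [he, norm_mul, norm_pow, Complex.norm_real, Real.norm_of_nonneg (rho_pos _).le]
  have l3 : ‖(V : ℂ)‖ = |V| := by rw [Complex.norm_real, Real.norm_eq_abs]
  have h2 : ‖(V : ℂ) + p‖ ≤ 10 := (norm_add_le _ _).trans (by rw [l3]; linarith)
  have h3 : 1 / 2 ≤ ‖(V : ℂ) + p‖ := by
    have := norm_sub_norm_le (V : ℂ) (-p)
    rw [norm_neg, sub_neg_eq_add, l3] at this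
    linarith
  have hr2 : 0 ≤ rho (T^[i] n) ^ 2 := sq_nonneg _
  constructor <;> nlinarith

end Pool.Agent.P8H70.SR
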