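import Mathlib
import Pool.Agent.P8H70.SR.Sysf

/-! The logarithmic derivative of the conformal maps and its product formula. -/

set_option autoImplicit false

open Filter Topology Metric Set

namespace Pool.Agent.P8H70.SR

open Pool.Agent.H384R2.Fatou Pool.Agent.H723R2.LSW Pool.Agent.Y282.WD Pool.Agent.P8H70.WD

/-- `ζ φ' / (φ - x)` -/
noncomputable def PP (n : ℤ) (i : ℕ) (ζ : ℂ) : ℂ := 1 + ζ * deriv (gg n i) ζ

noncomputable def Th (m : ℤ) (h : ℂ) : ℂ := h * deriv (E m) h / (1 + E m h)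

noncomputable def qq (n : ℤ) (i : ℕ) (ζ : ℂ) : ℂ :=
  1 + Th (T^[i] n) (ph (T^[i] n) ζ - (T^[i] n : ℤ)) / 2

section
variable {C : ℝ} {n : ℤ} (h : GT C n) (i : ℕ)
include h

theorem gg_hasDeriv {ζ : ℂ} (hζ : ζ ∈ ball (0 : ℂ) 1) :
    HasDerivAt (gg n i) (deriv (gg n i) ζ) ζ :=
  ((sys_diff h i).differentiableAt (isOpen_ball.mem_nhds hζ)).hasDerivAt

theorem gg_lip {ζ ζ' : ℂ} (hζ : ζ ∈ ball (0 : ℂ) 1) (hζ' : ζ' ∈ ball (0 : ℂ) 1) :
    ‖gg n i ζ - gg n i ζ'‖ ≤ 6 * AL C (T^[i] n) * ‖ζ - ζ'‖ := by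
  have h1 := GT_iter h i
  have h2 := ph_lip h1 (ball_subset_closedBall hζ) (ball_subset_closedBall hζ')
  have h3 := S_lip h1.he h1.tl h1.hs h1.hA (W_sub_K h1 (ph_mem h1 (ball_subset_closedBall hζ)))
    (W_sub_K h1 (ph_mem h1 (ball_subset_closedBall hζ')))
  have hr := rho_pos (T^[i] n)
  have hA := AL_nonneg h1.he (T^[i] n)
  have e : gg n i ζ - gg n i ζ' =
      -(S (T^[i] n) (ph (T^[i] n) ζ) - S (T^[i] n) (ph (T^[i] n) ζ')) := by
    unfold gg; ring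
  rw [e, norm_neg]
  calc _ ≤ AL C (T^[i] n) * (3 / rho (T^[i] n)) * (2 * rho (T^[i] n) * ‖ζ - ζ'‖) := by
        refine h3.trans ?_
        gcongr
    _ = _ := by field_simp; ring

theorem gg_deriv_le {ζ : ℂ} (hζ : ζ ∈ ball (0 : ℂ) 1) :
    ‖deriv (gg n i) ζ‖ ≤ 6 * AL C (T^[i] n) := by
  have hA := AL_nonneg (GT_iter h i).he (T^[i] n)
  refine (gg_hasDeriv h i hζ).le_of_lip' (by positivity) ?_
  filter_upwards [isOpen_ball.mem_nhds hζ] with w hw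
  exact gg_lip h i hw hζ

theorem PP_near {ζ : ℂ} (hζ : ζ ∈ ball (0 : ℂ) 1) :
    ‖PP n i ζ - 1‖ ≤ 6 * AL C (T^[i] n) := by
  have h1 := gg_deriv_le h i hζ
  have h2 : ‖ζ‖ ≤ 1 := by
    rw [mem_ball, dist_zero_right] at hζ
    exact hζ.le
  have h3 : 0 ≤ ‖deriv (gg n i) ζ‖ := norm_nonneg _
  unfold PP
  rw [add_sub_cancel_left, norm_mul]
  nlinarith

theorem gg_le {ζ : ℂ} (hζ : ζ ∈ ball (0 : ℂ) 1) : ‖gg n i ζ‖ ≤ 1 / 1000 := by
  have h1 := GT_iter h i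
  have h2 := S_le h1.he h1.tl (W_sub_K h1 (ph_mem h1 (ball_subset_closedBall hζ)))
  have h3 := dl_le h1.he h1.tl
  unfold gg
  rw [norm_neg]
  linarith

theorem ph_deriv_eq {ζ : ℂ} (hζ : ζ ∈ ball (0 : ℂ) 1) :
    deriv (ph (T^[i] n)) ζ = rho (T^[i] n) * Complex.exp (gg n i ζ) * PP n i ζ := by
  have h1 := GT_iter h i
  have h2 : HasDerivAt (fun ζ : ℂ => (rho (T^[i] n) : ℂ) * ζ * Complex.exp (gg n i ζ))
      (rho (T^[i] n) * 1 * Complex.exp (gg n i ζ) + rho (T^[i] n) * ζ *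
        (Complex.exp (gg n i ζ) * deriv (gg n i) ζ)) ζ :=
    ((hasDerivAt_id ζ).const_mul _).mul (gg_hasDeriv h i hζ).cexp
  have h3 : HasDerivAt (ph (T^[i] n))
      (rho (T^[i] n) * 1 * Complex.exp (gg n i ζ) + rho (T^[i] n) * ζ *
        (Complex.exp (gg n i ζ) * deriv (gg n i) ζ)) ζ := by
    refine (h2.const_add ((T^[i] n : ℤ) : ℂ)).congr_of_eventuallyEq ?_
    filter_upwards [isOpen_ball.mem_nhds hζ] with w hw
    have := ph_exp h1 (ball_subset_closedBall hw)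
    show ph (T^[i] n) w = _
    rw [← sub_eq_iff_eq_add', this]
    rfl
  rw [h3.deriv]
  unfold PP
  ring

theorem h_le {ζ : ℂ} (hζ : ζ ∈ ball (0 : ℂ) 1) :
    ‖ph (T^[i] n) ζ - (T^[i] n : ℤ)‖ ≤ 4 / bt (T^[i] n) := by
  have h1 := GT_iter h i
  rw [ph_exp h1 (ball_subset_closedBall hζ), norm_mul, norm_mul, Complex.norm_real,
    Real.norm_of_nonneg (rho_pos _).le]
  have h2 := gg_le h i hζ
  have h3 : ‖Complex.exp (-S (T^[i] n) (ph (T^[i] n) ζ))‖ ≤ 4 / 3 := by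
    rw [Complex.norm_exp]
    have h4 : (-S (T^[i] n) (ph (T^[i] n) ζ)).re ≤ 1 / 1000 := (Complex.re_le_norm _).trans h2
    have h5 := Real.exp_bound_div_one_sub_of_interval (x := 1 / 1000) (by norm_num) (by norm_num)
    have h6 := Real.exp_le_exp.2 h4
    exact h6.trans (h5.trans (by norm_num))
  have h4 := (hT.2 (T^[i] n)).2.2.2
  have hb := bt0 (T^[i] n)
  have hr := rho_pos (T^[i] n)
  have h5 : rho (T^[i] n) ≤ 3 / bt (T^[i] n) := by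
    rw [le_div_iff₀ hb]; linarith
  have h6 : ‖ζ‖ ≤ 1 := by
    rw [mem_ball, dist_zero_right] at hζ
    exact hζ.le
  calc _ ≤ 3 / bt (T^[i] n) * 1 * (4 / 3) := by gcongr
    _ = 4 / bt (T^[i] n) := by ring

theorem PP_rec {ζ : ℂ} (hζ : ζ ∈ ball (0 : ℂ) 1) :
    PP n i ζ * qq n i ζ = PP n (i + 1) (sg (T^[i] n) * ζ ^ 2) := by
  have h1 := GT_iter h i
  have hn : ‖ζ‖ < 1 := by simpa using hζ
  have hsq : sg (T^[i] n) * ζ ^ 2 ∈ ball (0 : ℂ) 1 := by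
    rw [mem_ball, dist_zero_right, norm_mul, sg_norm, one_mul, norm_pow]
    exact pow_lt_one₀ (norm_nonneg _) hn two_ne_zero
  have hK := W_sub_K h1 (ph_mem h1 (ball_subset_closedBall hζ))
  have hsl := F_slit h1.he h1.tl hK 0
  have hF : P8H70.WD.F (T^[i] n) 0 (ph (T^[i] n) ζ) =
      1 + E (T^[i] n) (ph (T^[i] n) ζ - (T^[i] n : ℤ)) := by
    unfold P8H70.WD.F; simp
  rw [hF] at hsl
  -- differentiate the functional equation
  have d0 : HasDerivAt (fun ζ => ph (T^[i] n) ζ - ((T^[i] n : ℤ) : ℂ)) (deriv (ph (T^[i] n)) ζ) ζ := by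
    have := (ph_deriv_in h1 hζ)
    rw [this.deriv]
    exact this.sub_const _
  have d1 : HasDerivAt (fun ζ => Complex.log (1 + E (T^[i] n) (ph (T^[i] n) ζ - (T^[i] n : ℤ))))
      (deriv (E (T^[i] n)) (ph (T^[i] n) ζ - (T^[i] n : ℤ)) * deriv (ph (T^[i] n)) ζ /
        (1 + E (T^[i] n) (ph (T^[i] n) ζ - (T^[i] n : ℤ)))) ζ := by
    have e1 : HasDerivAt (E (T^[i] n)) (deriv (E (T^[i] n)) (ph (T^[i] n) ζ - (T^[i] n : ℤ)))
      (ph (T^[i] n) ζ - (T^[i] n : ℤ)) := ((E_diff _) _).hasDerivAt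
    have e2 : HasDerivAt (fun ζ => 1 + E (T^[i] n) (ph (T^[i] n) ζ - (T^[i] n : ℤ)))
        (deriv (E (T^[i] n)) (ph (T^[i] n) ζ - (T^[i] n : ℤ)) * deriv (ph (T^[i] n)) ζ) ζ :=
      (HasDerivAt.comp (h₂ := E (T^[i] n)) ζ e1 d0).const_add 1
    exact e2.clog hsl
  have d2 : HasDerivAt (fun ζ => gg n (i + 1) (sg (T^[i] n) * ζ ^ 2))
      (deriv (gg n (i + 1)) (sg (T^[i] n) * ζ ^ 2) * (sg (T^[i] n) * (2 * ζ))) ζ := by
    have e1 := gg_hasDeriv h (i + 1) hsq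
    have e2 : HasDerivAt (fun ζ : ℂ => sg (T^[i] n) * ζ ^ 2) (sg (T^[i] n) * (2 * ζ)) ζ := by
      have := (hasDerivAt_pow 2 ζ).const_mul (sg (T^[i] n))
      simpa using this
    exact HasDerivAt.comp (h₂ := gg n (i + 1)) ζ e1 e2
  have d3 := (d1.neg.add d2)
  have d4 : HasDerivAt (fun ζ => 2 * gg n i ζ) (2 * deriv (gg n i) ζ) ζ :=
    (gg_hasDeriv h i hζ).const_mul 2
  have heq : (fun ζ => 2 * gg n i ζ) =ᶠ[𝓝 ζ]
      ((-fun ζ => Complex.log (1 + E (T^[i] n) (ph (T^[i] n) ζ - (T^[i] n : ℤ)))) +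
        fun ζ => gg n (i + 1) (sg (T^[i] n) * ζ ^ 2)) := by
    filter_upwards [isOpen_ball.mem_nhds hζ] with w hw
    have e1 := sys_eq h i (ball_subset_closedBall hw)
    have e2 := ph_exp h1 (ball_subset_closedBall hw)
    rw [e1]
    show _ = -Complex.log (1 + E (T^[i] n) (ph (T^[i] n) w - (T^[i] n : ℤ))) +
      gg n (i + 1) (sg (T^[i] n) * w ^ 2)
    rw [e2]
    rfl
  have d5 := (d3.congr_of_eventuallyEq heq).unique d4
  have hph := ph_deriv_eq h i hζ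
  have hexp := ph_exp h1 (ball_subset_closedBall hζ)
  have hne : 1 + E (T^[i] n) (ph (T^[i] n) ζ - (T^[i] n : ℤ)) ≠ 0 := Complex.slitPlane_ne_zero hsl
  have hz : ζ * deriv (ph (T^[i] n)) ζ = (ph (T^[i] n) ζ - (T^[i] n : ℤ)) * PP n i ζ := by
    rw [hph, hexp]
    unfold gg
    ring
  unfold qq Th
  have hPP : PP n (i + 1) (sg (T^[i] n) * ζ ^ 2) =
      1 + (sg (T^[i] n) * ζ ^ 2) * deriv (gg n (i + 1)) (sg (T^[i] n) * ζ ^ 2) := rfl
  have hP0 : PP n i ζ = 1 + ζ * deriv (gg n i) ζ := rfl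
  rw [hPP]
  obtain ⟨a, ha⟩ : ∃ a, a = deriv (gg n (i + 1)) (sg (T^[i] n) * ζ ^ 2) := ⟨_, rfl⟩
  obtain ⟨b, hb⟩ : ∃ b, b = deriv (gg n i) ζ := ⟨_, rfl⟩
  obtain ⟨w, hw⟩ : ∃ w, w = ph (T^[i] n) ζ - ((T^[i] n : ℤ) : ℂ) := ⟨_, rfl⟩
  obtain ⟨e', he'⟩ : ∃ e', e' = deriv (E (T^[i] n)) w := ⟨_, rfl⟩
  obtain ⟨e, he⟩ : ∃ e, e = 1 + E (T^[i] n) w := ⟨_, rfl⟩
  obtain ⟨d, hd⟩ : ∃ d, d = deriv (ph (T^[i] n)) ζ := ⟨_, rfl⟩
  obtain ⟨p, hp⟩ : ∃ p, p = PP n i ζ := ⟨_, rfl⟩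
  rw [← hw] at d5 hne hz ⊢
  rw [← he', ← he, ← ha, ← hb, ← hd] at d5
  rw [← hd, ← hp] at hz
  rw [← hp, ← hb] at hP0
  rw [← he] at hne
  rw [← he', ← he, ← ha, ← hp]
  have h7 : e' * d / e * ζ = w * e' / e * p := by
    have : e' * d / e * ζ = e' / e * (ζ * d) := by ring
    rw [this, hz]; ring
  linear_combination (-ζ / 2) * d5 - (1 / 2 : ℂ) * h7 + hP0

end

theorem dE_le {C : ℝ} (hC : HE C) {m : ℤ} (hb : 12 ≤ bt m) {w : ℂ} (hw : ‖w‖ ≤ 5 / bt m) :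
    ‖deriv (E m) w‖ ≤ C / bt m := by
  have hb0 : 0 < bt m := by linarith
  have h1 := Complex.norm_deriv_le_of_forall_mem_sphere_norm_le (c := w) (R := 1 / bt m)
    (C := C / bt m ^ 2) (f := E m) (by positivity) (E_diff m).diffContOnCl (by
      intro z hz
      rw [mem_sphere, dist_eq_norm] at hz
      refine hC.e1 m z hb ?_
      calc ‖z‖ = ‖(z - w) + w‖ := by rw [sub_add_cancel]
        _ ≤ ‖z - w‖ + ‖w‖ := norm_add_le _ _
        _ ≤ 1 / bt m + 5 / bt m := by rw [hz]; gcongr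
        _ = 6 / bt m := by ring)
  refine h1.trans (le_of_eq ?_)
  field_simp

theorem E_half' {C : ℝ} (hC : HE C) {m : ℤ} (hb : 100 * C ≤ bt m) {w : ℂ}
    (hw : ‖w‖ ≤ 6 / bt m) : ‖E m w‖ ≤ 1 / 2 := by
  have hC1 := hC.one
  have hb0 : 0 < bt m := by linarith
  refine (hC.e1 m w (by linarith) hw).trans ?_
  rw [div_le_iff₀ (by positivity)]
  nlinarith

theorem one_E_ge {C : ℝ} (hC : HE C) {m : ℤ} (hb : 100 * C ≤ bt m) {w : ℂ}
    (hw : ‖w‖ ≤ 6 / bt m) : 1 / 2 ≤ ‖1 + E m w‖ := by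
  have h1 := E_half' hC hb hw
  have := norm_sub_norm_le (1 : ℂ) (-E m w)
  rw [norm_one, norm_neg, sub_neg_eq_add] at this
  linarith

theorem Th_le {C : ℝ} (hC : HE C) {m : ℤ} (hb : 100 * C ≤ bt m) {w : ℂ}
    (hw : ‖w‖ ≤ 5 / bt m) : ‖Th m w‖ ≤ 10 * C / bt m ^ 2 := by
  have hC1 := hC.one
  have hb0 : 0 < bt m := by linarith
  have h1 := dE_le hC (by linarith) hw
  have h2 := one_E_ge hC hb (hw.trans (by gcongr; norm_num))
  unfold Th
  rw [norm_div, norm_mul, div_le_iff₀ (by linarith)]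
  calc ‖w‖ * ‖deriv (E m) w‖ ≤ 5 / bt m * (C / bt m) := by gcongr
    _ = 10 * C / bt m ^ 2 * (1 / 2) := by field_simp; norm_num
    _ ≤ _ := by gcongr

theorem Th_diff {C : ℝ} (hC : HE C) {m : ℤ} (hb : 100 * C ≤ bt m) {w : ℂ}
    (hw : ‖w‖ ≤ 6 / bt m) : DifferentiableAt ℂ (Th m) w := by
  have h2 := one_E_ge hC hb hw
  have h3 : 1 + E m w ≠ 0 := by
    intro h
    rw [h, norm_zero] at h2
    norm_num at h2
  have h4 : DifferentiableAt ℂ (deriv (E m)) w :=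
    (((E_diff m).contDiff (n := 2)).differentiable_deriv_two) w
  exact (differentiableAt_id.mul h4).div ((E_diff m w).const_add 1) h3

theorem Th_lip {C : ℝ} (hC : HE C) {m : ℤ} (hb : 100 * C ≤ bt m) {w w' : ℂ}
    (hw : ‖w‖ ≤ 4 / bt m) (hw' : ‖w'‖ ≤ 4 / bt m) :
    ‖Th m w - Th m w'‖ ≤ 10 * C / bt m * ‖w - w'‖ := by
  have hC1 := hC.one
  have hb0 : 0 < bt m := by linarith
  have hder : ∀ w ∈ closedBall (0 : ℂ) (4 / bt m), ‖deriv (Th m) w‖ ≤ 10 * C / bt m := by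
    intro w hw
    rw [mem_closedBall, dist_zero_right] at hw
    have hin : ∀ z, ‖z - w‖ ≤ 1 / bt m → ‖z‖ ≤ 5 / bt m := by
      intro z hz
      calc ‖z‖ = ‖(z - w) + w‖ := by rw [sub_add_cancel]
        _ ≤ ‖z - w‖ + ‖w‖ := norm_add_le _ _
        _ ≤ 1 / bt m + 4 / bt m := by gcongr
        _ = 5 / bt m := by ring
    have h1 := Complex.norm_deriv_le_of_forall_mem_sphere_norm_le (c := w) (R := 1 / bt m)
      (C := 10 * C / bt m ^ 2) (f := Th m) (by positivity) (by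
        refine DifferentiableOn.diffContOnCl ?_
        intro z hz
        rw [closure_ball _ (by positivity), mem_closedBall, dist_eq_norm] at hz
        exact (Th_diff hC hb ((hin z hz).trans (by gcongr; norm_num))).differentiableWithinAt) (by
        intro z hz
        rw [mem_sphere, dist_eq_norm] at hz
        exact Th_le hC hb (hin z hz.le))
    refine h1.trans (le_of_eq ?_)
    field_simp
  exact (convex_closedBall (0 : ℂ) (4 / bt m)).norm_image_sub_le_of_norm_deriv_le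
    (f := Th m) (C := 10 * C / bt m) (fun z hz => Th_diff hC hb (by
      rw [mem_closedBall, dist_zero_right] at hz
      exact hz.trans (by gcongr; norm_num))) hder
    (show w' ∈ closedBall (0 : ℂ) (4 / bt m) by simpa using hw')
    (show w ∈ closedBall (0 : ℂ) (4 / bt m) by simpa using hw)

theorem qq_near {C : ℝ} {n : ℤ} (h : GT C n) (i : ℕ) {ζ : ℂ} (hζ : ζ ∈ ball (0 : ℂ) 1) :
    ‖qq n i ζ - 1‖ ≤ 30 * C / bt (T^[i] n) ^ 2 := by
  have h1 := GT_iter h i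
  have hb := bt0 (T^[i] n)
  have hC1 := h.he.one
  have h2 := h_le h i hζ
  have h3 := Th_le h1.he (by simpa using h1.tl 0) (h2.trans (by gcongr; norm_num))
  unfold qq
  rw [add_sub_cancel_left, norm_div, Complex.norm_ofNat]
  have h4 : 10 * C / bt (T^[i] n) ^ 2 ≤ 30 * C / bt (T^[i] n) ^ 2 := by gcongr; norm_num
  have h5 : 0 ≤ 10 * C / bt (T^[i] n) ^ 2 := by positivity
  linarith

theorem qq_lip {C : ℝ} {n : ℤ} (h : GT C n) (i : ℕ) {ζ ζ' : ℂ} (hζ : ζ ∈ ball (0 : ℂ) 1)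
    (hζ' : ζ' ∈ ball (0 : ℂ) 1) :
    ‖qq n i ζ - qq n i ζ'‖ ≤ 30 * C / bt (T^[i] n) ^ 2 * ‖ζ - ζ'‖ := by
  have h1 := GT_iter h i
  have hb := bt0 (T^[i] n)
  have hC1 := h.he.one
  have h3 := Th_lip h1.he (by simpa using h1.tl 0) (h_le h i hζ) (h_le h i hζ')
  rw [sub_sub_sub_cancel_right] at h3
  have h4 := ph_lip h1 (ball_subset_closedBall hζ) (ball_subset_closedBall hζ')
  have h5 := (hT.2 (T^[i] n)).2.2.2
  have hr := rho_pos (T^[i] n)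
  have h6 : rho (T^[i] n) ≤ 3 / bt (T^[i] n) := by
    rw [le_div_iff₀ hb]; linarith
  have e : qq n i ζ - qq n i ζ' = (Th (T^[i] n) (ph (T^[i] n) ζ - (T^[i] n : ℤ)) -
      Th (T^[i] n) (ph (T^[i] n) ζ' - (T^[i] n : ℤ))) / 2 := by
    unfold qq; ring
  rw [e, norm_div, Complex.norm_ofNat, div_le_iff₀ (by norm_num)]
  calc _ ≤ 10 * C / bt (T^[i] n) * (2 * (3 / bt (T^[i] n)) * ‖ζ - ζ'‖) := by
        refine h3.trans ?_
        gcongr
        refine h4.trans ?_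
        gcongr
    _ = _ := by field_simp; ring

end Pool.Agent.P8H70.SR
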