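import Mathlib
import Pool.Agent.P8H70.SR.E12
import Pool.Agent.P8H70.SR.Hold

/-! Hölder continuity of the derivative and growth of the orbit. -/

set_option autoImplicit false

open Filter Topology Metric Set

namespace Pool.Agent.P8H70.SR

open Pool.Agent.H384R2.Fatou Pool.Agent.H723R2.LSW Pool.Agent.Y282.WD Pool.Agent.P8H70.WD

/-- Hölder continuity on the disc -/
def Hol (α : ℝ) (f : ℂ → ℂ) : Prop :=
  ∃ H : ℝ, ∀ z ∈ ball (0 : ℂ) 1, ∀ w ∈ ball (0 : ℂ) 1, ‖f z - f w‖ ≤ H * ‖z - w‖ ^ α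

theorem dist_pow {α : ℝ} (h0 : 0 < α) (h1 : α < 1) {z w : ℂ} (hz : z ∈ ball (0 : ℂ) 1)
    (hw : w ∈ ball (0 : ℂ) 1) : ‖z - w‖ ≤ 2 * ‖z - w‖ ^ α := by
  rw [mem_ball, dist_zero_right] at hz hw
  have h2 : ‖z - w‖ ≤ 2 := (norm_sub_le _ _).trans (by linarith)
  have h3 : 0 ≤ ‖z - w‖ := norm_nonneg _
  rcases h3.eq_or_lt with h | h
  · rw [← h, Real.zero_rpow h0.ne']; norm_num
  · have e : ‖z - w‖ = ‖z - w‖ ^ α * ‖z - w‖ ^ (1 - α) := by
      rw [← Real.rpow_add h, add_sub_cancel, Real.rpow_one]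
    have h4 : ‖z - w‖ ^ (1 - α) ≤ 2 ^ (1 - α) := Real.rpow_le_rpow h3 h2 (by linarith)
    have h5 : (2 : ℝ) ^ (1 - α) ≤ 2 ^ (1 : ℝ) :=
      Real.rpow_le_rpow_of_exponent_le (by norm_num) (by linarith)
    rw [Real.rpow_one] at h5
    have h6 : 0 ≤ ‖z - w‖ ^ α := by positivity
    calc ‖z - w‖ = ‖z - w‖ ^ α * ‖z - w‖ ^ (1 - α) := e
      _ ≤ ‖z - w‖ ^ α * 2 := by gcongr; linarith
      _ = _ := by ring

/-- bounded Lipschitz times Hölder -/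
theorem hol_mul {α : ℝ} (h0 : 0 < α) (h1 : α < 1) {f g : ℂ → ℂ} {F G L : ℝ} (hL : 0 ≤ L)
    (hf : ∀ z ∈ ball (0 : ℂ) 1, ‖f z‖ ≤ F) (hg : ∀ z ∈ ball (0 : ℂ) 1, ‖g z‖ ≤ G)
    (hfl : ∀ z ∈ ball (0 : ℂ) 1, ∀ w ∈ ball (0 : ℂ) 1, ‖f z - f w‖ ≤ L * ‖z - w‖)
    (hgh : Hol α g) : Hol α (fun z => f z * g z) := by
  obtain ⟨H, hH⟩ := hgh
  have hF : 0 ≤ F := (norm_nonneg _).trans (hf 0 (by simp))
  have hG : 0 ≤ G := (norm_nonneg _).trans (hg 0 (by simp))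
  refine ⟨F * H + 2 * L * G, fun z hz w hw => ?_⟩
  have e : f z * g z - f w * g w = f z * (g z - g w) + (f z - f w) * g w := by ring
  rw [e]
  have h2 := dist_pow h0 h1 hz hw
  have h3 : 0 ≤ ‖z - w‖ ^ α := by positivity
  calc ‖f z * (g z - g w) + (f z - f w) * g w‖
      ≤ ‖f z‖ * ‖g z - g w‖ + ‖f z - f w‖ * ‖g w‖ := by
        refine (norm_add_le _ _).trans ?_
        rw [norm_mul, norm_mul]
    _ ≤ F * (H * ‖z - w‖ ^ α) + (L * ‖z - w‖) * G :=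
        add_le_add (mul_le_mul (hf z hz) (hH z hz w hw) (norm_nonneg _) hF)
          (mul_le_mul (hfl z hz w hw) (hg w hw) (norm_nonneg _) (by positivity))
    _ ≤ F * (H * ‖z - w‖ ^ α) + (L * (2 * ‖z - w‖ ^ α)) * G := by gcongr
    _ = _ := by ring

theorem hol_congr {α : ℝ} {f g : ℂ → ℂ} (h : ∀ z ∈ ball (0 : ℂ) 1, f z = g z) :
    Hol α f ↔ Hol α g := by
  constructor
  · rintro ⟨H, hH⟩
    exact ⟨H, fun z hz w hw => by rw [← h z hz, ← h w hw]; exact hH z hz w hw⟩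
  · rintro ⟨H, hH⟩
    exact ⟨H, fun z hz w hw => by rw [h z hz, h w hw]; exact hH z hz w hw⟩

theorem exp_bd {w : ℂ} (hw : ‖w‖ ≤ 1 / 1000) : ‖Complex.exp w‖ ≤ 2 := by
  rw [Complex.norm_exp]
  have h4 : w.re ≤ 1 / 2 := (Complex.re_le_norm _).trans (by linarith)
  exact (Real.exp_le_exp.2 h4).trans exp_half

theorem exp_lip {w w' : ℂ} (hw : ‖w‖ ≤ 1 / 1000) (hw' : ‖w'‖ ≤ 1 / 1000) :
    ‖Complex.exp w - Complex.exp w'‖ ≤ 4 * ‖w - w'‖ := by
  have e : Complex.exp w - Complex.exp w' = Complex.exp w' * (Complex.exp (w - w') - 1) := by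
    rw [mul_sub, ← Complex.exp_add]; ring_nf
  have h1 : ‖w - w'‖ ≤ 1 := (norm_sub_le _ _).trans (by linarith)
  have h2 := Complex.norm_exp_sub_one_le h1
  rw [e, norm_mul]
  calc _ ≤ 2 * (2 * ‖w - w'‖) := by
        gcongr
        exact exp_bd hw'
    _ = _ := by ring

theorem pow_half (α : ℝ) (i : ℕ) : ((2 : ℝ) ^ (α * i / 2)) ^ 2 = (2 : ℝ) ^ (α * i) := by
  rw [← Real.rpow_natCast, ← Real.rpow_mul (by norm_num)]
  congr 1
  push_cast
  ring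

theorem bt_le {m : ℤ} (h : 1 ≤ |(m : ℝ)|) : bt m ≤ 4 * |(m : ℝ)| := by
  unfold bt
  have h1 : |(m : ℝ) + 1 / 2| ≤ |(m : ℝ)| + 1 / 2 := by
    refine (abs_add_le _ _).trans ?_
    rw [abs_of_pos (by norm_num : (0 : ℝ) < 1 / 2)]
  have h2 : Real.pi ^ 2 / 4 ≤ 5 / 2 := by
    have := Real.pi_lt_d2
    have := Real.pi_pos
    nlinarith
  calc Real.pi ^ 2 / 4 * |(m : ℝ) + 1 / 2| ≤ 5 / 2 * (|(m : ℝ)| + 1 / 2) := by gcongr
    _ ≤ _ := by linarith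

theorem co_PP (hco : S_CO) {C : ℝ} {n : ℤ} (h : GT C n) {m : ℕ} (hm : m ≠ 0) :
    co m (PP n 0) = m * co m (gg n 0) := by
  have hc := co_const hco m hm 1
  obtain ⟨-, h1, -, -, -, -, -, h7, -⟩ := hco
  have ha : AnalyticAt ℂ (gg n 0) 0 :=
    (sys_diff h 0).analyticAt (isOpen_ball.mem_nhds (by simp))
  have e := h1 m (fun _ => 1) (fun z => z * deriv (gg n 0) z) analyticAt_const
    (analyticAt_id.mul ha.deriv)
  rw [hc, h7 m _ ha, zero_add] at e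
  exact e

/-- decay of the coefficients implies growth -/
theorem growth_of_decay (hco : S_CO) {C : ℝ} {n : ℤ} (h : GT C n) {α : ℝ}
    (h0 : 0 < α) (h1 : α < 1) (hx : ∀ j : ℕ, 1 ≤ |((T^[j] n : ℤ) : ℝ)|)
    (hX : ∀ r : ℕ, rho (T^[r] n) ^ 2 / 4 ≤ ‖(2 : ℂ) ^ (r + 1) * co (2 ^ (r + 1)) (gg n 0)‖)
    {G : ℝ} (hG0 : 0 < G) (h3 : ∀ m : ℕ, 1 ≤ m → ‖co m (PP n 0)‖ ≤ G * (Real.pi / m) ^ α) :
    ∃ c : ℝ, 0 < c ∧ ∀ j : ℕ, c * (2 : ℝ) ^ (α * j / 2) ≤ |((T^[j] n : ℤ) : ℝ)| := by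
  refine ⟨Real.sqrt (1 / (1024 * G)), by positivity, fun r => ?_⟩
  have h4 := h3 (2 ^ (r + 1)) Nat.one_le_two_pow
  rw [co_PP hco h (by positivity)] at h4
  have h5 := hX r
  push_cast at h4
  have h6 := h5.trans h4
  have h7 : (Real.pi / (2 : ℝ) ^ (r + 1)) ^ α ≤ 4 * ((2 : ℝ) ^ (α * r))⁻¹ := by
    have e1 : Real.pi / (2 : ℝ) ^ (r + 1) = (Real.pi / 2) * ((2 : ℝ) ^ (r : ℝ))⁻¹ := by
      rw [Real.rpow_natCast, pow_succ]; field_simp
    rw [e1, Real.mul_rpow (by positivity) (by positivity), Real.inv_rpow (by positivity),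
      ← Real.rpow_mul (by norm_num), mul_comm (r : ℝ) α]
    have hp1 := Real.pi_gt_d2
    have hp2 := Real.pi_lt_d2
    have e2 : (Real.pi / 2) ^ α ≤ (Real.pi / 2) ^ (1 : ℝ) :=
      Real.rpow_le_rpow_of_exponent_le (by linarith) h1.le
    rw [Real.rpow_one] at e2
    gcongr
    linarith
  have h8 := (hT.2 (T^[r] n)).2.2.1
  have h9 := bt_le (hx r)
  have hr := rho_pos (T^[r] n)
  have hxr := hx r
  obtain ⟨X, hX'⟩ : ∃ X : ℝ, X = |((T^[r] n : ℤ) : ℝ)| := ⟨_, rfl⟩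
  rw [← hX'] at h9 hxr ⊢
  have h10 : 1 ≤ 8 * X * rho (T^[r] n) := by
    calc 1 ≤ 2 * bt (T^[r] n) * rho (T^[r] n) := h8
      _ ≤ 2 * (4 * X) * rho (T^[r] n) := by gcongr
      _ = _ := by ring
  have h11 : 1 ≤ 64 * X ^ 2 * rho (T^[r] n) ^ 2 := by nlinarith
  have hu : 0 < (2 : ℝ) ^ (α * r) := by positivity
  have h12 : rho (T^[r] n) ^ 2 ≤ 16 * G * ((2 : ℝ) ^ (α * r))⁻¹ := by
    have : rho (T^[r] n) ^ 2 / 4 ≤ G * (4 * ((2 : ℝ) ^ (α * r))⁻¹) :=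
      h6.trans (by gcongr)
    linarith
  have h13 : (2 : ℝ) ^ (α * r) ≤ 1024 * G * X ^ 2 := by
    have e1 : (2 : ℝ) ^ (α * r) * rho (T^[r] n) ^ 2 ≤ 16 * G := by
      calc (2 : ℝ) ^ (α * r) * rho (T^[r] n) ^ 2
          ≤ (2 : ℝ) ^ (α * r) * (16 * G * ((2 : ℝ) ^ (α * r))⁻¹) := by gcongr
        _ = 16 * G := by field_simp
    calc (2 : ℝ) ^ (α * r) = (2 : ℝ) ^ (α * r) * 1 := (mul_one _).symm
      _ ≤ (2 : ℝ) ^ (α * r) * (64 * X ^ 2 * rho (T^[r] n) ^ 2) := by gcongr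
      _ = 64 * X ^ 2 * ((2 : ℝ) ^ (α * r) * rho (T^[r] n) ^ 2) := by ring
      _ ≤ 64 * X ^ 2 * (16 * G) := by gcongr
      _ = _ := by ring
  have h14 : Real.sqrt (1 / (1024 * G)) * (2 : ℝ) ^ (α * r / 2) =
      Real.sqrt (1 / (1024 * G) * (2 : ℝ) ^ (α * r)) := by
    rw [Real.sqrt_mul (by positivity), ← pow_half, Real.sqrt_sq (by positivity)]
  rw [h14]
  apply Real.sqrt_le_iff.2
  refine ⟨by linarith, ?_⟩
  calc 1 / (1024 * G) * (2 : ℝ) ^ (α * r) ≤ 1 / (1024 * G) * (1024 * G * X ^ 2) := by gcongr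
    _ = X ^ 2 := by field_simp

theorem PP_diff {C : ℝ} {n : ℤ} (h : GT C n) (i : ℕ) : DifferentiableOn ℂ (PP n i) (ball 0 1) := by
  have e1 : DifferentiableOn ℂ (deriv (gg n i)) (ball 0 1) := (sys_diff h i).deriv isOpen_ball
  exact (differentiableOn_id.mul e1).const_add 1

/-- Hölder continuity implies growth -/
theorem growth_of_hol (hco : S_CO) (hHF : S_HF) {C : ℝ} {n : ℤ} (h : GT C n) {α : ℝ} (h0 : 0 < α)
    (h1 : α < 1) (hx : ∀ j : ℕ, 1 ≤ |((T^[j] n : ℤ) : ℝ)|)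
    (hX : ∀ r : ℕ, rho (T^[r] n) ^ 2 / 4 ≤ ‖(2 : ℂ) ^ (r + 1) * co (2 ^ (r + 1)) (gg n 0)‖)
    (hH : Hol α (PP n 0)) :
    ∃ c : ℝ, 0 < c ∧ ∀ j : ℕ, c * (2 : ℝ) ^ (α * j / 2) ≤ |((T^[j] n : ℤ) : ℝ)| := by
  obtain ⟨H, hH⟩ := hH
  have h2 : ∀ z ∈ ball (0 : ℂ) 1, ∀ w ∈ ball (0 : ℂ) 1,
      ‖PP n 0 z - PP n 0 w‖ ≤ (|H| + 1) * ‖z - w‖ ^ α := by
    intro z hz w hw
    refine (hH z hz w hw).trans ?_
    have : H ≤ |H| + 1 := by linarith [le_abs_self H]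
    gcongr
  have hG0 : 0 < |H| + 1 := by positivity
  exact growth_of_decay hco h h0 h1 hx hX hG0 (hHF (PP n 0) _ α hG0.le h0 (PP_diff h 0) h2)

section
variable {C : ℝ} {n : ℤ} (h : GT C n)
include h

theorem PP_le {ζ : ℂ} (hζ : ζ ∈ ball (0 : ℂ) 1) (i : ℕ) : ‖PP n i ζ‖ ≤ 2 := by
  have h1 := PP_near h i hζ
  have h2 := (GT_iter h i).hA
  have h3 : ‖PP n i ζ‖ ≤ ‖PP n i ζ - 1‖ + ‖(1 : ℂ)‖ := by
    have := norm_add_le (PP n i ζ - 1) 1
    rwa [sub_add_cancel] at this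
  rw [norm_one] at h3
  linarith

/-- the derivative of the conformal map and `P` have the same regularity -/
theorem hol_iff {α : ℝ} (h0 : 0 < α) (h1 : α < 1) :
    Hol α (deriv (ph n)) ↔ Hol α (PP n 0) := by
  have hr := rho_pos n
  have hr' : (rho n : ℂ) ≠ 0 := by exact_mod_cast hr.ne'
  have hA := h.hA
  have hA0 := AL_nonneg h.he n
  have hd : ∀ z ∈ ball (0 : ℂ) 1, deriv (ph n) z =
      (rho n * Complex.exp (gg n 0 z)) * PP n 0 z := fun z hz => ph_deriv_eq h 0 hz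
  have hd' : ∀ z ∈ ball (0 : ℂ) 1, PP n 0 z =
      ((rho n : ℂ)⁻¹ * Complex.exp (-gg n 0 z)) * deriv (ph n) z := by
    intro z hz
    rw [hd z hz, Complex.exp_neg]
    have := Complex.exp_ne_zero (gg n 0 z)
    field_simp
  have hg := fun z hz => gg_le h 0 (ζ := z) hz
  have hl : ∀ z ∈ ball (0 : ℂ) 1, ∀ w ∈ ball (0 : ℂ) 1,
      ‖gg n 0 z - gg n 0 w‖ ≤ 1 * ‖z - w‖ := by
    intro z hz w hw
    refine (gg_lip h 0 hz hw).trans ?_
    have : AL C (T^[0] n) ≤ 1 / 100 := hA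
    gcongr
    linarith
  constructor
  · intro hH
    rw [hol_congr hd']
    refine hol_mul h0 h1 (F := (rho n)⁻¹ * 2) (G := rho n * 2 * 2) (L := (rho n)⁻¹ * (4 * 1))
      (by positivity) ?_ ?_ ?_ hH
    · intro z hz
      rw [norm_mul, norm_inv, Complex.norm_real, Real.norm_of_nonneg hr.le]
      gcongr
      exact exp_bd (by rw [norm_neg]; exact hg z hz)
    · intro z hz
      rw [hd z hz, norm_mul, norm_mul, Complex.norm_real, Real.norm_of_nonneg hr.le]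
      gcongr
      · exact exp_bd (hg z hz)
      · exact PP_le h hz 0
    · intro z hz w hw
      rw [← mul_sub, norm_mul, norm_inv, Complex.norm_real, Real.norm_of_nonneg hr.le, mul_assoc]
      gcongr
      refine (exp_lip (by rw [norm_neg]; exact hg z hz) (by rw [norm_neg]; exact hg w hw)).trans ?_
      have e : -gg n 0 z - -gg n 0 w = -(gg n 0 z - gg n 0 w) := by ring
      rw [e, norm_neg, mul_assoc]
      gcongr
      exact hl z hz w hw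
  · intro hH
    rw [hol_congr hd]
    refine hol_mul h0 h1 (F := rho n * 2) (G := 2) (L := rho n * (4 * 1))
      (by positivity) ?_ (fun z hz => PP_le h hz 0) ?_ hH
    · intro z hz
      rw [norm_mul, Complex.norm_real, Real.norm_of_nonneg hr.le]
      gcongr
      exact exp_bd (hg z hz)
    · intro z hz w hw
      rw [← mul_sub, norm_mul, Complex.norm_real, Real.norm_of_nonneg hr.le, mul_assoc]
      gcongr
      refine (exp_lip (hg z hz) (hg w hw)).trans ?_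
      rw [mul_assoc]
      gcongr
      exact hl z hz w hw

omit h in
theorem AL_tendsto : Tendsto (fun i : ℕ => AL C (T^[i] n)) atTop (𝓝 0) := by
  have h1 := tendsto_sum_nat_add (fun i : ℕ => al C (T^[i] n))
  refine h1.congr fun i => ?_
  unfold AL
  refine tsum_congr fun k => ?_
  rw [← Function.iterate_add_apply]

theorem AL_iter_le (i : ℕ) : AL C (T^[i] n) ≤ 1 / 100 := (GT_iter h i).hA

/-- growth implies Hölder continuity -/
theorem hol_of_growth (hHB : S_HB) {α : ℝ} (h0 : 0 < α) (h1 : α < 1) {c : ℝ} (hc : 0 < c)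
    (hg : ∀ i : ℕ, c * (2 : ℝ) ^ (α * i / 2) ≤ bt (T^[i] n)) : Hol α (PP n 0) := by
  have hC1 := h.he.one
  obtain ⟨H, -, hH⟩ := hHB (PP n) (qq n) (fun i => sg (T^[i] n)) (fun i => 30 * C / bt (T^[i] n) ^ 2)
    (fun i => 6 * AL C (T^[i] n)) (30 * C / c ^ 2) α h0 h1 (fun i => sg_norm _)
    (fun i => by positivity) (fun i => by
      have hb := h.tl i
      have hb0 := bt0 (T^[i] n)
      rw [div_le_iff₀ (by positivity)]
      nlinarith) (fun i => by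
      have hb := hg i
      have hb0 := bt0 (T^[i] n)
      rw [neg_mul, Real.rpow_neg (by norm_num), ← pow_half, div_le_iff₀ (by positivity)]
      have h2 : (c * (2 : ℝ) ^ (α * i / 2)) ^ 2 ≤ bt (T^[i] n) ^ 2 := by gcongr
      have h3 : 30 * C / c ^ 2 * (((2 : ℝ) ^ (α * i / 2)) ^ 2)⁻¹ * bt (T^[i] n) ^ 2 =
          30 * C * (bt (T^[i] n) ^ 2 / (c * (2 : ℝ) ^ (α * i / 2)) ^ 2) := by
        rw [mul_pow]
        have : (2 : ℝ) ^ (α * i / 2) ≠ 0 := by positivity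
        generalize (2 : ℝ) ^ (α * i / 2) = u at *
        field_simp
      rw [h3]
      have h4 : 1 ≤ bt (T^[i] n) ^ 2 / (c * (2 : ℝ) ^ (α * i / 2)) ^ 2 := by
        rw [one_le_div (by positivity)]
        exact h2
      nlinarith)
    (fun i z hz => qq_near h i hz) (fun i z hz w hw => qq_lip h i hz hw)
    (fun i z hz => PP_rec h i hz) (fun i z hz => PP_near h i hz)
    (by simpa using (AL_tendsto (C := C) (n := n)).const_mul 6) (fun i => by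
      have := AL_iter_le h i
      linarith)
  exact ⟨H, hH⟩

end

end Pool.Agent.P8H70.SR
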