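import Mathlib
import Pool.Agent.P8H70.SR.Fin1
import Pool.Agent.P8H70.WD.Fin
import Pool.Agent.P8H53.SR.Dig
import Pool.Agent.P8H53.SR.Co
import Pool.Agent.P8H45.SR.Hb
import Pool.Agent.P8H45.SR.Core
import Pool.Agent.P8H71.SR.Comp
import Pool.Agent.P8H71.SR.Nrm
import Pool.Agent.P8H79.SR.Hf
import Pool.Agent.P8H79.SR.Trig
import Pool.Agent.P8H79.SR.Sec

/-! Assembly: the regularity of the conformal maps is the growth of the orbit. -/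

set_option autoImplicit false

open Filter Topology Metric Set

namespace Pool.Agent.P8H70.SR

open Pool.Agent.H384R2.Fatou Pool.Agent.H723R2.LSW Pool.Agent.Y282.WD Pool.Agent.P8H70.WD

theorem hco : S_CO := Pool.Agent.P8H53.SR.co_thm

theorem hdig : S_DIG := Pool.Agent.P8H53.SR.dig

theorem hcomp : S_COMP := Pool.Agent.P8H71.SR.comp hco

theorem hnrm : S_NRM := Pool.Agent.P8H71.SR.nrm hdig hco hcomp

theorem hcore : S_CORE := Pool.Agent.P8H45.SR.Core.core hdig hco hcomp hnrm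

theorem hhf : S_HF := Pool.Agent.P8H79.SR.hf hco

theorem hlog2 : S_LOG2 := Pool.Agent.P8H79.SR.log2 hco

theorem htrig : S_TRIG := Pool.Agent.P8H79.SR.trig hco

theorem hsec : S_SECOND := Pool.Agent.P8H79.SR.second hco hcomp

theorem hhb : S_HB := Pool.Agent.P8H45.SR.Hb.hb

/-- the Taylor coefficients with indices `2 ^ j` are comparable to the squares of the radii -/
theorem main_const : ∃ C0 : ℝ, 1 ≤ C0 ∧ ∀ n : ℤ, Wild n →
    (∀ j : ℕ, C0 ≤ |((T^[j] n : ℤ) : ℝ)|) → ∃ C : ℝ, GT C n ∧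
      ∀ r : ℕ, rho (T^[r] n) ^ 2 / 4 ≤ ‖(2 : ℂ) ^ (r + 1) * co (2 ^ (r + 1)) (gg n 0)‖ ∧
        ‖(2 : ℂ) ^ (r + 1) * co (2 ^ (r + 1)) (gg n 0)‖ ≤ 11 * rho (T^[r] n) ^ 2 := by
  obtain ⟨C, C1, hC1, key⟩ := exists_GT
  obtain ⟨r₀, hr0, hr1, hE⟩ := E_small
  obtain ⟨ε, hε, hcor⟩ := hcore 18 r₀ (by norm_num) hr0 hr1
  refine ⟨max C1 (max (3 / ε) 250), hC1.trans (le_max_left _ _), fun n hw hj => ?_⟩
  have h1 : ∀ j : ℕ, C1 ≤ |((T^[j] n : ℤ) : ℝ)| := fun j => (le_max_left _ _).trans (hj j)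
  have h2 : ∀ j : ℕ, 3 / ε ≤ |((T^[j] n : ℤ) : ℝ)| := fun j =>
    ((le_max_left _ _).trans (le_max_right _ _)).trans (hj j)
  have h3 : ∀ j : ℕ, 250 ≤ |((T^[j] n : ℤ) : ℝ)| := fun j =>
    ((le_max_right _ _).trans (le_max_right _ _)).trans (hj j)
  have hb : ∀ j : ℕ, |((T^[j] n : ℤ) : ℝ)| ≤ bt (T^[j] n) := fun j =>
    bt_ge ((by norm_num : (1 : ℝ) ≤ 250).trans (h3 j)) le_rfl
  obtain ⟨hG, -⟩ := key n C1 hw le_rfl h1
  refine ⟨C, hG, ?_⟩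
  have hS := sys hE (LL_one_le' hco htrig hlog2 n) (fun i => (h2 i).trans (hb i)) hε hG
  intro r
  have h4 := hcor _ _ _ _ hS 0 r
  obtain ⟨h5, h6⟩ := main_bd hco htrig hlog2 hsec hr0 hS (fun i => (h3 i).trans (hb i)) (0 + r)
  rw [abs_le] at h4
  simp only [zero_add] at h4 h5 h6
  constructor <;> linarith [h4.1, h4.2]

/-- **the regularity of the conformal map is the growth of the orbit** -/
theorem holder_iff : ∃ C0 : ℝ, 1 ≤ C0 ∧ ∀ n : ℤ, Wild n →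
    (∀ j : ℕ, C0 ≤ |((T^[j] n : ℤ) : ℝ)|) → (∃ C : ℝ, GT C n) ∧ ∀ α : ℝ, 0 < α → α < 1 →
      (Hol α (deriv (ph n)) ↔
        ∃ c : ℝ, 0 < c ∧ ∀ j : ℕ, c * (2 : ℝ) ^ (α * j / 2) ≤ |((T^[j] n : ℤ) : ℝ)|) := by
  obtain ⟨C0, hC0, key⟩ := main_const
  refine ⟨C0, hC0, fun n hw hj => ?_⟩
  obtain ⟨C, hG, hX⟩ := key n hw hj
  refine ⟨⟨C, hG⟩, fun α h0 h1 => ?_⟩
  rw [hol_iff hG h0 h1]
  have hj1 : ∀ j : ℕ, 1 ≤ |((T^[j] n : ℤ) : ℝ)| := fun j => hC0.trans (hj j)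
  constructor
  · exact growth_of_hol hco hhf hG h0 h1 hj1 (fun r => (hX r).1)
  · rintro ⟨c, hc, hg⟩
    exact hol_of_growth hG hhb h0 h1 hc fun i => (hg i).trans (bt_ge (hj1 i) le_rfl)

end Pool.Agent.P8H70.SR
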