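import Mathlib
import Pool.Agent.Helper202.Univ
import Pool.Agent.P8H70.SR.Fin1

/-! The conformal maps are unique up to rotations. -/

set_option autoImplicit false

open Filter Topology Metric Set

namespace Pool.Agent.P8H70.SR

open Pool.Agent.H384R2.Fatou Pool.Agent.H723R2.LSW Pool.Agent.Y282.WD Pool.Agent.P8H70.WD

theorem conf_eq {C : ℝ} {n : ℤ} (h : GT C n) {φ : ℂ → ℂ} (hd : DifferentiableOn ℂ φ (ball 0 1))
    (hi : InjOn φ (ball 0 1)) (him : φ '' ball 0 1 = U n) (h0 : φ 0 = n) :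
    ∃ ω : ℂ, ‖ω‖ = 1 ∧ ∀ z ∈ ball (0 : ℂ) 1, φ z = ph n (ω * z) := by
  have hmem : ∀ z ∈ ball (0 : ℂ) 1, φ z ∈ U n := fun z hz => by rw [← him]; exact ⟨z, hz, rfl⟩
  have hz0 : (0 : ℂ) ∈ ball (0 : ℂ) 1 := by simp
  obtain ⟨χ, hχ⟩ : ∃ χ : ℂ → ℂ, χ = Function.invFunOn φ (ball 0 1) := ⟨_, rfl⟩
  have hχ1 : ∀ w ∈ U n, χ w ∈ ball (0 : ℂ) 1 ∧ φ (χ w) = w := by
    intro w hw
    rw [← him] at hw
    rw [hχ]
    exact ⟨Function.invFunOn_mem hw, Function.invFunOn_eq hw⟩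
  have hχ2 : ∀ z ∈ ball (0 : ℂ) 1, χ (φ z) = z := fun z hz =>
    hi (hχ1 _ (hmem z hz)).1 hz (hχ1 _ (hmem z hz)).2
  have hχd : ∀ w ∈ U n, DifferentiableAt ℂ χ w := by
    intro w hw
    have h1 := Pool.Agent.Helper202.Univ.hasDerivAt_inv isOpen_ball hd hi (hχ1 w hw).1
    rw [(hχ1 w hw).2] at h1
    rw [hχ]
    exact h1.differentiableAt
  -- the two maps of the disc
  have hψm : ∀ z ∈ ball (0 : ℂ) 1, B n (φ z) ∈ ball (0 : ℂ) 1 := fun z hz => by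
    rw [← B_image h]; exact ⟨_, hmem z hz, rfl⟩
  have hψd : DifferentiableOn ℂ (fun z => B n (φ z)) (ball 0 1) := fun z hz =>
    ((B_hasDeriv h (hmem z hz)).differentiableAt.comp z
      (hd.differentiableAt (isOpen_ball.mem_nhds hz))).differentiableWithinAt
  have hψ0 : B n (φ 0) = 0 := by rw [h0]; unfold B; simp
  have hθm : ∀ z ∈ ball (0 : ℂ) 1, χ (ph n z) ∈ ball (0 : ℂ) 1 := fun z hz =>
    (hχ1 _ (ph_U h hz)).1
  have hθd : DifferentiableOn ℂ (fun z => χ (ph n z)) (ball 0 1) := fun z hz =>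
    ((hχd _ (ph_U h hz)).comp z (ph_deriv_in h hz).differentiableAt).differentiableWithinAt
  have hθ0 : χ (ph n 0) = 0 := by rw [ph_zero h, ← h0]; exact hχ2 0 hz0
  have s1 : ∀ z ∈ ball (0 : ℂ) 1, ‖B n (φ z)‖ ≤ ‖z‖ := fun z hz =>
    Complex.norm_le_norm_of_mapsTo_ball (f := fun z => B n (φ z)) hψd (fun w hw =>
      ball_subset_closedBall (hψm w hw)) hψ0 (by simpa using hz)
  have s2 : ∀ z ∈ ball (0 : ℂ) 1, ‖χ (ph n z)‖ ≤ ‖z‖ := fun z hz =>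
    Complex.norm_le_norm_of_mapsTo_ball (f := fun z => χ (ph n z)) hθd (fun w hw =>
      ball_subset_closedBall (hθm w hw)) hθ0 (by simpa using hz)
  have s3 : ∀ z ∈ ball (0 : ℂ) 1, ‖B n (φ z)‖ = ‖z‖ := by
    intro z hz
    refine le_antisymm (s1 z hz) ?_
    have h1 := s2 _ (hψm z hz)
    rw [ph_B h (subset_closure (hmem z hz)), hχ2 z hz] at h1
    exact h1
  have hhalf : (1 / 2 : ℂ) ∈ ball (0 : ℂ) 1 := by
    rw [mem_ball, dist_zero_right]; norm_num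
  obtain ⟨ω, hω, hE⟩ := Complex.affine_of_mapsTo_ball_of_exists_norm_dslope_eq_div'
    (f := fun z => B n (φ z)) (c := 0) (R₁ := 1) (R₂ := 1) hψd (by
      intro z hz
      show B n (φ z) ∈ closedBall (B n (φ 0)) 1
      rw [hψ0]
      exact ball_subset_closedBall (hψm z hz)) ⟨1 / 2, hhalf, by
      rw [dslope_of_ne _ (by norm_num), slope_def_field]
      show ‖(B n (φ (1 / 2)) - B n (φ 0)) / (1 / 2 - 0)‖ = 1 / 1
      rw [hψ0, sub_zero, sub_zero, norm_div, s3 _ hhalf]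
      norm_num⟩
  refine ⟨ω, by rw [hω]; norm_num, fun z hz => ?_⟩
  have h1 := hE hz
  simp only [smul_eq_mul, sub_zero] at h1
  rw [hψ0, zero_add] at h1
  have h2 := ph_B h (subset_closure (hmem z hz))
  rw [← h2, h1, mul_comm]

theorem hol_rot {α : ℝ} {n : ℤ} {C : ℝ} (h : GT C n) {φ : ℂ → ℂ} {ω : ℂ} (hω : ‖ω‖ = 1)
    (hφ : ∀ z ∈ ball (0 : ℂ) 1, φ z = ph n (ω * z)) :
    Hol α (deriv φ) ↔ Hol α (deriv (ph n)) := by
  have hmem : ∀ (v z : ℂ), ‖v‖ = 1 → z ∈ ball (0 : ℂ) 1 → v * z ∈ ball (0 : ℂ) 1 := by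
    intro v z hv hz
    rw [mem_ball, dist_zero_right] at hz ⊢
    rwa [norm_mul, hv, one_mul]
  have hd : ∀ z ∈ ball (0 : ℂ) 1, deriv φ z = ω * deriv (ph n) (ω * z) := by
    intro z hz
    have h1 := ph_deriv_in h (hmem ω z hω hz)
    have h2 : HasDerivAt (fun z : ℂ => ω * z) ω z := by
      simpa using (hasDerivAt_id z).const_mul ω
    have h3 : HasDerivAt (fun z => ph n (ω * z)) (ph' n (ω * z) * ω) z :=
      HasDerivAt.comp (h₂ := ph n) z h1 h2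
    have h4 : HasDerivAt φ (ph' n (ω * z) * ω) z := by
      refine h3.congr_of_eventuallyEq ?_
      filter_upwards [isOpen_ball.mem_nhds hz] with w hw
      exact hφ w hw
    rw [h4.deriv, h1.deriv, mul_comm]
  have hω0 : ω ≠ 0 := by
    intro h0
    rw [h0, norm_zero] at hω
    norm_num at hω
  constructor
  · rintro ⟨H, hH⟩
    refine ⟨H, fun z hz w hw => ?_⟩
    have hi : ‖ω⁻¹‖ = 1 := by rw [norm_inv, hω, inv_one]
    have h1 := hH _ (hmem ω⁻¹ z hi hz) _ (hmem ω⁻¹ w hi hw)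
    rw [hd _ (hmem ω⁻¹ z hi hz), hd _ (hmem ω⁻¹ w hi hw), mul_inv_cancel_left₀ hω0,
      mul_inv_cancel_left₀ hω0, ← mul_sub, ← mul_sub, norm_mul, norm_mul, hω, hi, one_mul,
      one_mul] at h1
    exact h1
  · rintro ⟨H, hH⟩
    refine ⟨H, fun z hz w hw => ?_⟩
    have h1 := hH _ (hmem ω z hω hz) _ (hmem ω w hω hw)
    rw [← mul_sub, norm_mul, hω, one_mul] at h1
    rw [hd z hz, hd w hw, ← mul_sub, norm_mul, hω, one_mul]
    exact h1

end Pool.Agent.P8H70.SR
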