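import Mathlib
import Pool.Agent.P8H70.SR.Fin2
import Pool.Agent.P8H70.SR.Rot
import Pool.Agent.P8H70.SR.Stm2

/-! Local Hölder continuity implies growth; the final equivalences. -/

set_option autoImplicit false

open Filter Topology Metric Set

namespace Pool.Agent.P8H70.SR

open Pool.Agent.H384R2.Fatou Pool.Agent.H723R2.LSW Pool.Agent.Y282.WD Pool.Agent.P8H70.WD

def HolOn (α : ℝ) (f : ℂ → ℂ) (S : Set ℂ) : Prop :=
  ∃ H : ℝ, ∀ z ∈ S, ∀ w ∈ S, ‖f z - f w‖ ≤ H * ‖z - w‖ ^ α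

theorem hol_mul_on {α : ℝ} (h0 : 0 < α) (h1 : α < 1) {f g : ℂ → ℂ} {F G L : ℝ} {S : Set ℂ}
    (hS : S ⊆ ball (0 : ℂ) 1) (hL : 0 ≤ L) (hF : 0 ≤ F) (hG : 0 ≤ G)
    (hf : ∀ z ∈ S, ‖f z‖ ≤ F) (hg : ∀ z ∈ S, ‖g z‖ ≤ G)
    (hfl : ∀ z ∈ S, ∀ w ∈ S, ‖f z - f w‖ ≤ L * ‖z - w‖)
    (hgh : HolOn α g S) : HolOn α (fun z => f z * g z) S := by
  obtain ⟨H, hH⟩ := hgh
  refine ⟨F * H + 2 * L * G, fun z hz w hw => ?_⟩
  have e : f z * g z - f w * g w = f z * (g z - g w) + (f z - f w) * g w := by ring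
  rw [e]
  have h2 := dist_pow h0 h1 (hS hz) (hS hw)
  have h3 : 0 ≤ ‖z - w‖ ^ α := by positivity
  calc ‖f z * (g z - g w) + (f z - f w) * g w‖
      ≤ ‖f z‖ * ‖g z - g w‖ + ‖f z - f w‖ * ‖g w‖ := by
        refine (norm_add_le _ _).trans ?_
        rw [norm_mul, norm_mul]
    _ ≤ F * (H * ‖z - w‖ ^ α) + (L * ‖z - w‖) * G :=
        add_le_add (mul_le_mul (hf z hz) (hH z hz w hw) (norm_nonneg _) hF)
          (mul_le_mul (hfl z hz w hw) (hg w hw) (norm_nonneg _) (by positivity))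
    _ ≤ F * (H * ‖z - w‖ ^ α) + (L * (2 * ‖z - w‖ ^ α)) * G := by gcongr
    _ = _ := by ring

theorem holOn_congr {α : ℝ} {f g : ℂ → ℂ} {S : Set ℂ} (h : ∀ z ∈ S, f z = g z)
    (hf : HolOn α f S) : HolOn α g S := by
  obtain ⟨H, hH⟩ := hf
  exact ⟨H, fun z hz w hw => by rw [← h z hz, ← h w hw]; exact hH z hz w hw⟩

section
variable {C : ℝ} {n : ℤ} (h : GT C n)
include h

theorem local_P {α : ℝ} (h0 : 0 < α) (h1 : α < 1) {S : Set ℂ} (hS : S ⊆ ball (0 : ℂ) 1)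
    (hH : HolOn α (deriv (ph n)) S) : HolOn α (PP n 0) S := by
  have hr := rho_pos n
  have hr' : (rho n : ℂ) ≠ 0 := by exact_mod_cast hr.ne'
  have hA := h.hA
  have hA0 := AL_nonneg h.he n
  have hd : ∀ z ∈ ball (0 : ℂ) 1, deriv (ph n) z =
      (rho n * Complex.exp (gg n 0 z)) * PP n 0 z := fun z hz => ph_deriv_eq h 0 hz
  have hd' : ∀ z ∈ S, ((rho n : ℂ)⁻¹ * Complex.exp (-gg n 0 z)) * deriv (ph n) z = PP n 0 z := by
    intro z hz
    rw [hd z (hS hz), Complex.exp_neg]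
    have := Complex.exp_ne_zero (gg n 0 z)
    field_simp
  have hg := fun z hz => gg_le h 0 (ζ := z) hz
  have hl : ∀ z ∈ ball (0 : ℂ) 1, ∀ w ∈ ball (0 : ℂ) 1,
      ‖gg n 0 z - gg n 0 w‖ ≤ 1 * ‖z - w‖ := by
    intro z hz w hw
    refine (gg_lip h 0 hz hw).trans ?_
    have : AL C (T^[0] n) ≤ 1 / 100 := hA
    gcongr
    linarith
  refine holOn_congr hd' ?_
  refine hol_mul_on h0 h1 hS (F := (rho n)⁻¹ * 2) (G := rho n * 2 * 2)
      (L := (rho n)⁻¹ * (4 * 1)) (by positivity) (by positivity) (by positivity) ?_ ?_ ?_ hH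
  · intro z hz
    rw [norm_mul, norm_inv, Complex.norm_real, Real.norm_of_nonneg hr.le]
    gcongr
    exact exp_bd (by rw [norm_neg]; exact hg z (hS hz))
  · intro z hz
    rw [hd z (hS hz), norm_mul, norm_mul, Complex.norm_real, Real.norm_of_nonneg hr.le]
    gcongr
    · exact exp_bd (hg z (hS hz))
    · exact PP_le h (hS hz) 0
  · intro z hz w hw
    rw [← mul_sub, norm_mul, norm_inv, Complex.norm_real, Real.norm_of_nonneg hr.le, mul_assoc]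
    gcongr
    refine (exp_lip (by rw [norm_neg]; exact hg z (hS hz))
      (by rw [norm_neg]; exact hg w (hS hw))).trans ?_
    have e : -gg n 0 z - -gg n 0 w = -(gg n 0 z - gg n 0 w) := by ring
    rw [e, norm_neg, mul_assoc]
    gcongr
    exact hl z (hS hz) w (hS hw)

theorem local_growth (hHFL : S_HFL) {α : ℝ} (h0 : 0 < α) (h1 : α < 1) {W : Set ℂ}
    (hW : IsOpen W) (hW1 : (W ∩ sphere (0 : ℂ) 1).Nonempty)
    (hx : ∀ j : ℕ, 1 ≤ |((T^[j] n : ℤ) : ℝ)|)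
    (hX : ∀ m r : ℕ, rho (T^[r] (T^[m] n)) ^ 2 / 4 ≤
      ‖(2 : ℂ) ^ (r + 1) * co (2 ^ (r + 1)) (gg (T^[m] n) 0)‖)
    (hH : HolOn α (deriv (ph n)) (ball 0 1 ∩ W)) :
    ∃ c : ℝ, 0 < c ∧ ∀ j : ℕ, c * (2 : ℝ) ^ (α * j / 2) ≤ |((T^[j] n : ℤ) : ℝ)| := by
  obtain ⟨H, hP⟩ := local_P h h0 h1 inter_subset_left hH
  have hC1 := h.he.one
  have hsmall : ∀ i : ℕ, 30 * C / bt (T^[i] n) ^ 2 ≤ 1 := by
    intro i
    have hb := h.tl i
    have hb0 := bt0 (T^[i] n)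
    rw [div_le_iff₀ (by positivity)]
    nlinarith
  obtain ⟨m, H', hm⟩ := hHFL (PP n) (qq n) (fun i => sg (T^[i] n)) α H W h0 h1
    (fun i => sg_norm _) (PP_diff h) (fun i z hz => PP_le h hz i) (fun i z hz => by
      have h2 := qq_near h i hz
      have h3 := hsmall i
      have h4 : ‖qq n i z‖ ≤ ‖qq n i z - 1‖ + ‖(1 : ℂ)‖ := by
        have := norm_add_le (qq n i z - 1) 1
        rwa [sub_add_cancel] at this
      rw [norm_one] at h4
      linarith) (fun i z hz w hw => by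
      refine (qq_lip h i hz hw).trans ?_
      have := hsmall i
      have h5 : 0 ≤ ‖z - w‖ := norm_nonneg _
      nlinarith) (fun i z hz => PP_rec h i hz) hW hW1 hP
  have hG := GT_iter h m
  obtain ⟨c, hc, hg⟩ := growth_of_decay hco hG h0 h1 (G := |H'| + 1)
    (fun j => by rw [← Function.iterate_add_apply]; exact hx _) (hX m) (by positivity)
    (fun M hM => by
      refine (hm M hM).trans ?_
      have : H' ≤ |H'| + 1 := by linarith [le_abs_self H']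
      gcongr)
  -- from the tail to all indices
  refine ⟨min c 1 * (2 : ℝ) ^ (-(α * m / 2)), by positivity, fun j => ?_⟩
  rw [mul_assoc, ← Real.rpow_add (by norm_num)]
  rcases le_or_gt m j with hmj | hmj
  · obtain ⟨k, rfl⟩ := Nat.exists_eq_add_of_le hmj
    have h2 := hg k
    rw [← Function.iterate_add_apply, add_comm k m] at h2
    refine le_trans ?_ h2
    have e : -(α * m / 2) + α * ((m + k : ℕ) : ℝ) / 2 = α * k / 2 := by push_cast; ring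
    rw [e]
    gcongr
    exact min_le_left _ _
  · have h2 := hx j
    refine le_trans ?_ h2
    have h3 : (2 : ℝ) ^ (-(α * m / 2) + α * j / 2) ≤ 1 := by
      apply Real.rpow_le_one_of_one_le_of_nonpos (by norm_num)
      have : (j : ℝ) ≤ m := by exact_mod_cast hmj.le
      nlinarith
    calc min c 1 * (2 : ℝ) ^ (-(α * m / 2) + α * j / 2) ≤ 1 * 1 := by
          gcongr
          exact min_le_right _ _
      _ = 1 := one_mul 1

end

theorem holOn_rot {α : ℝ} {n : ℤ} {C : ℝ} (h : GT C n) {φ : ℂ → ℂ} {ω : ℂ} (hω : ‖ω‖ = 1)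
    (hφ : ∀ z ∈ ball (0 : ℂ) 1, φ z = ph n (ω * z)) {W : Set ℂ}
    (hH : HolOn α (deriv φ) (ball 0 1 ∩ W)) :
    HolOn α (deriv (ph n)) (ball 0 1 ∩ {z | ω⁻¹ * z ∈ W}) := by
  have hmem : ∀ (v z : ℂ), ‖v‖ = 1 → z ∈ ball (0 : ℂ) 1 → v * z ∈ ball (0 : ℂ) 1 := by
    intro v z hv hz
    rw [mem_ball, dist_zero_right] at hz ⊢
    rwa [norm_mul, hv, one_mul]
  have hd : ∀ z ∈ ball (0 : ℂ) 1, deriv φ z = ω * deriv (ph n) (ω * z) := by
    intro z hz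
    have h1 := ph_deriv_in h (hmem ω z hω hz)
    have h2 : HasDerivAt (fun z : ℂ => ω * z) ω z := by
      simpa using (hasDerivAt_id z).const_mul ω
    have h3 : HasDerivAt (fun z => ph n (ω * z)) (ph' n (ω * z) * ω) z :=
      HasDerivAt.comp (h₂ := ph n) z h1 h2
    have h4 : HasDerivAt φ (ph' n (ω * z) * ω) z := by
      refine h3.congr_of_eventuallyEq ?_
      filter_upwards [isOpen_ball.mem_nhds hz] with w hw
      exact hφ w hw
    rw [h4.deriv, h1.deriv, mul_comm]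
  have hω0 : ω ≠ 0 := by
    intro h0
    rw [h0, norm_zero] at hω
    norm_num at hω
  obtain ⟨H, hH⟩ := hH
  refine ⟨H, fun z hz w hw => ?_⟩
  have hi : ‖ω⁻¹‖ = 1 := by rw [norm_inv, hω, inv_one]
  have h1 := hH _ ⟨hmem ω⁻¹ z hi hz.1, hz.2⟩ _ ⟨hmem ω⁻¹ w hi hw.1, hw.2⟩
  rw [hd _ (hmem ω⁻¹ z hi hz.1), hd _ (hmem ω⁻¹ w hi hw.1), mul_inv_cancel_left₀ hω0,
    mul_inv_cancel_left₀ hω0, ← mul_sub, ← mul_sub, norm_mul, norm_mul, hω, hi, one_mul,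
    one_mul] at h1
  exact h1

/-- **final equivalences** -/
theorem final (hHFL : S_HFL) : ∃ C0 : ℝ, 1 ≤ C0 ∧ ∀ n : ℤ, Wild n →
    (∀ j : ℕ, C0 ≤ |((T^[j] n : ℤ) : ℝ)|) → ∀ φ : ℂ → ℂ, DifferentiableOn ℂ φ (ball 0 1) →
      InjOn φ (ball 0 1) → φ '' ball 0 1 = U n → φ 0 = n → ∀ α : ℝ, 0 < α → α < 1 →
      List.TFAE [HolOn α (deriv φ) (ball 0 1),
        ∃ W : Set ℂ, IsOpen W ∧ (W ∩ sphere (0 : ℂ) 1).Nonempty ∧
          HolOn α (deriv φ) (ball 0 1 ∩ W),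
        ∃ c : ℝ, 0 < c ∧ ∀ j : ℕ, c * (2 : ℝ) ^ (α * j / 2) ≤ |((T^[j] n : ℤ) : ℝ)|] := by
  obtain ⟨C0, hC0, key⟩ := main_const
  refine ⟨C0, hC0, fun n hw hj φ hd hi him hz α h0 h1 => ?_⟩
  obtain ⟨C, hG, hX⟩ := key n hw hj
  obtain ⟨ω, hω, hφ⟩ := conf_eq hG hd hi him hz
  have hj1 : ∀ j : ℕ, 1 ≤ |((T^[j] n : ℤ) : ℝ)| := fun j => hC0.trans (hj j)
  tfae_have 1 → 2 := by
    intro hH
    refine ⟨univ, isOpen_univ, ⟨1, trivial, by simp⟩, ?_⟩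
    rwa [inter_univ]
  tfae_have 2 → 3 := by
    rintro ⟨W, hW, ⟨p, hp, hp1⟩, hH⟩
    have hω0 : ω ≠ 0 := by
      intro h0
      rw [h0, norm_zero] at hω
      norm_num at hω
    refine local_growth hG hHFL h0 h1 (W := {z | ω⁻¹ * z ∈ W}) ?_ ⟨ω * p, ?_, ?_⟩ hj1
      (fun m r => ?_) (holOn_rot hG hω hφ hH)
    · exact hW.preimage (by fun_prop)
    · show ω⁻¹ * (ω * p) ∈ W
      rwa [inv_mul_cancel_left₀ hω0]
    · rw [mem_sphere, dist_zero_right] at hp1 ⊢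
      rw [norm_mul, hω, hp1, one_mul]
    · obtain ⟨C', -, hX'⟩ := key (T^[m] n) (wild_iter hw m) (fun j => by
        rw [← Function.iterate_add_apply]; exact hj _)
      exact (hX' r).1
  tfae_have 3 → 1 := by
    rintro ⟨c, hc, hg⟩
    have h2 := hol_of_growth hG hhb h0 h1 hc fun i => (hg i).trans (bt_ge (hj1 i) le_rfl)
    exact (hol_rot hG hω hφ).2 ((hol_iff hG h0 h1).2 h2)
  tfae_finish

end Pool.Agent.P8H70.SR
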