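import Mathlib
import Pool.Agent.P8H70.SR.Stm3

/-! Elementary facts on Hölder continuous functions. -/

set_option autoImplicit false

open Filter Topology Metric Set

namespace Pool.Agent.P8H70.SR

theorem ho_bdd {α : ℝ} (h0 : 0 < α) {f : ℂ → ℂ} {S : Set ℂ} (hS : S ⊆ ball (0 : ℂ) 1)
    (hf : HO α f S) : ∃ B : ℝ, 0 ≤ B ∧ ∀ z ∈ S, ‖f z‖ ≤ B := by
  obtain ⟨H, hH⟩ := hf
  rcases S.eq_empty_or_nonempty with rfl | ⟨p, hp⟩
  · exact ⟨0, le_rfl, by simp⟩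
  refine ⟨‖f p‖ + |H| * 2 ^ α, by positivity, fun z hz => ?_⟩
  have h1 : ‖f z‖ ≤ ‖f p‖ + ‖f z - f p‖ := by
    have := norm_add_le (f p) (f z - f p)
    rwa [add_sub_cancel] at this
  have h2 := hH z hz p hp
  have h3 : ‖z - p‖ ≤ 2 := by
    have a1 := hS hz
    have a2 := hS hp
    rw [mem_ball, dist_zero_right] at a1 a2
    exact (norm_sub_le _ _).trans (by linarith)
  have h4 : H * ‖z - p‖ ^ α ≤ |H| * 2 ^ α := by
    have : H ≤ |H| := le_abs_self H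
    calc H * ‖z - p‖ ^ α ≤ |H| * ‖z - p‖ ^ α := by gcongr
      _ ≤ |H| * 2 ^ α := by gcongr
  linarith

theorem ho_nonneg {α : ℝ} {f : ℂ → ℂ} {S : Set ℂ} (hf : HO α f S) : ∃ H : ℝ, 0 ≤ H ∧
    ∀ z ∈ S, ∀ w ∈ S, ‖f z - f w‖ ≤ H * ‖z - w‖ ^ α := by
  obtain ⟨H, hH⟩ := hf
  refine ⟨|H|, abs_nonneg _, fun z hz w hw => (hH z hz w hw).trans ?_⟩
  have : H ≤ |H| := le_abs_self H
  gcongr

theorem ho_add {α : ℝ} {f g : ℂ → ℂ} {S : Set ℂ} (hf : HO α f S) (hg : HO α g S) :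
    HO α (fun z => f z + g z) S := by
  obtain ⟨H, hH⟩ := hf
  obtain ⟨G, hG⟩ := hg
  refine ⟨H + G, fun z hz w hw => ?_⟩
  have e : f z + g z - (f w + g w) = (f z - f w) + (g z - g w) := by ring
  rw [e, add_mul]
  exact (norm_add_le _ _).trans (add_le_add (hH z hz w hw) (hG z hz w hw))

theorem ho_smul {α : ℝ} (c : ℂ) {f : ℂ → ℂ} {S : Set ℂ} (hf : HO α f S) :
    HO α (fun z => c * f z) S := by
  obtain ⟨H, hH⟩ := hf
  refine ⟨‖c‖ * H, fun z hz w hw => ?_⟩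
  rw [← mul_sub, norm_mul, mul_assoc]
  have := hH z hz w hw
  gcongr

theorem ho_sub {α : ℝ} {f g : ℂ → ℂ} {S : Set ℂ} (hf : HO α f S) (hg : HO α g S) :
    HO α (fun z => f z - g z) S := by
  have h := ho_add hf (ho_smul (-1) hg)
  obtain ⟨H, hH⟩ := h
  refine ⟨H, fun z hz w hw => ?_⟩
  have := hH z hz w hw
  refine le_trans (le_of_eq ?_) this
  congr 1
  ring

theorem ho_congr {α : ℝ} {f g : ℂ → ℂ} {S : Set ℂ} (h : ∀ z ∈ S, f z = g z)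
    (hf : HO α f S) : HO α g S := by
  obtain ⟨H, hH⟩ := hf
  exact ⟨H, fun z hz w hw => by rw [← h z hz, ← h w hw]; exact hH z hz w hw⟩

theorem ho_mul {α : ℝ} (h0 : 0 < α) {f g : ℂ → ℂ} {S : Set ℂ} (hS : S ⊆ ball (0 : ℂ) 1)
    (hf : HO α f S) (hg : HO α g S) : HO α (fun z => f z * g z) S := by
  obtain ⟨F, hF0, hF⟩ := ho_bdd h0 hS hf
  obtain ⟨G, hG0, hG⟩ := ho_bdd h0 hS hg
  obtain ⟨H, hH0, hH⟩ := ho_nonneg hf
  obtain ⟨J, hJ0, hJ⟩ := ho_nonneg hg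
  refine ⟨F * J + H * G, fun z hz w hw => ?_⟩
  have e : f z * g z - f w * g w = f z * (g z - g w) + (f z - f w) * g w := by ring
  rw [e]
  calc ‖f z * (g z - g w) + (f z - f w) * g w‖
      ≤ ‖f z‖ * ‖g z - g w‖ + ‖f z - f w‖ * ‖g w‖ := by
        refine (norm_add_le _ _).trans ?_
        rw [norm_mul, norm_mul]
    _ ≤ F * (J * ‖z - w‖ ^ α) + (H * ‖z - w‖ ^ α) * G :=
        add_le_add (mul_le_mul (hF z hz) (hJ z hz w hw) (norm_nonneg _) hF0)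
          (mul_le_mul (hH z hz w hw) (hG w hw) (norm_nonneg _) (by positivity))
    _ = _ := by ring

theorem ho_of_lip {α : ℝ} (h0 : 0 < α) (h1 : α < 1) {f : ℂ → ℂ} {S : Set ℂ} {L : ℝ}
    (hS : S ⊆ ball (0 : ℂ) 1) (hL : 0 ≤ L)
    (hf : ∀ z ∈ S, ∀ w ∈ S, ‖f z - f w‖ ≤ L * ‖z - w‖) : HO α f S := by
  refine ⟨L * 2, fun z hz w hw => (hf z hz w hw).trans ?_⟩
  have hz' := hS hz
  have hw' := hS hw
  rw [mem_ball, dist_zero_right] at hz' hw'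
  have h2 : ‖z - w‖ ≤ 2 := (norm_sub_le _ _).trans (by linarith)
  have h3 : 0 ≤ ‖z - w‖ := norm_nonneg _
  have h4 : ‖z - w‖ ≤ 2 * ‖z - w‖ ^ α := by
    rcases h3.eq_or_lt with h | h
    · rw [← h, Real.zero_rpow h0.ne']; norm_num
    · have e : ‖z - w‖ = ‖z - w‖ ^ α * ‖z - w‖ ^ (1 - α) := by
        rw [← Real.rpow_add h, add_sub_cancel, Real.rpow_one]
      have h4 : ‖z - w‖ ^ (1 - α) ≤ 2 ^ (1 - α) := Real.rpow_le_rpow h3 h2 (by linarith)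
      have h5 : (2 : ℝ) ^ (1 - α) ≤ 2 ^ (1 : ℝ) :=
        Real.rpow_le_rpow_of_exponent_le (by norm_num) (by linarith)
      rw [Real.rpow_one] at h5
      calc ‖z - w‖ = ‖z - w‖ ^ α * ‖z - w‖ ^ (1 - α) := e
        _ ≤ ‖z - w‖ ^ α * 2 := by gcongr; linarith
        _ = _ := by ring
  calc L * ‖z - w‖ ≤ L * (2 * ‖z - w‖ ^ α) := by gcongr
    _ = _ := by ring

/-- bounded derivative on a convex set -/
theorem lip_of_deriv {f : ℂ → ℂ} {S : Set ℂ} {L : ℝ} (hc : Convex ℝ S)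
    (hd : ∀ z ∈ S, DifferentiableAt ℂ f z) (hb : ∀ z ∈ S, ‖deriv f z‖ ≤ L) :
    ∀ z ∈ S, ∀ w ∈ S, ‖f z - f w‖ ≤ L * ‖z - w‖ := fun _ hz _ hw =>
  hc.norm_image_sub_le_of_norm_deriv_le hd hb hw hz

theorem ho_id {α : ℝ} (h0 : 0 < α) (h1 : α < 1) {S : Set ℂ} (hS : S ⊆ ball (0 : ℂ) 1) :
    HO α (fun z => z) S :=
  ho_of_lip h0 h1 (L := 1) hS zero_le_one (fun z _ w _ => by rw [one_mul])

theorem ho_mono {α : ℝ} {f : ℂ → ℂ} {S S' : Set ℂ} (h : S' ⊆ S) (hf : HO α f S) : HO α f S' := by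
  obtain ⟨H, hH⟩ := hf
  exact ⟨H, fun z hz w hw => hH z (h hz) w (h hw)⟩

end Pool.Agent.P8H70.SR
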