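import Mathlib
import Pool.Agent.P8H70.SR.Fin1
import Pool.Agent.P8H70.SR.HoA

/-! The second derivative of the conformal maps: growth implies Hölder continuity. -/

set_option autoImplicit false

open Filter Topology Metric Set

namespace Pool.Agent.P8H70.SR

open Pool.Agent.H384R2.Fatou Pool.Agent.H723R2.LSW Pool.Agent.Y282.WD Pool.Agent.P8H70.WD

theorem dTh_le {C : ℝ} (hC : HE C) {m : ℤ} (hb : 100 * C ≤ bt m) {w : ℂ}
    (hw : ‖w‖ ≤ 9 / 2 / bt m) : ‖deriv (Th m) w‖ ≤ 20 * C / bt m := by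
  have hC1 := hC.one
  have hb0 : 0 < bt m := by linarith
  have hin : ∀ z, ‖z - w‖ ≤ 1 / 2 / bt m → ‖z‖ ≤ 5 / bt m := by
    intro z hz
    calc ‖z‖ = ‖(z - w) + w‖ := by rw [sub_add_cancel]
      _ ≤ ‖z - w‖ + ‖w‖ := norm_add_le _ _
      _ ≤ 1 / 2 / bt m + 9 / 2 / bt m := by gcongr
      _ = 5 / bt m := by ring
  have h1 := Complex.norm_deriv_le_of_forall_mem_sphere_norm_le (c := w) (R := 1 / 2 / bt m)
    (C := 10 * C / bt m ^ 2) (f := Th m) (by positivity) (by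
      refine DifferentiableOn.diffContOnCl ?_
      intro z hz
      rw [closure_ball _ (by positivity), mem_closedBall, dist_eq_norm] at hz
      exact (Th_diff hC hb ((hin z hz).trans (by gcongr; norm_num))).differentiableWithinAt) (by
      intro z hz
      rw [mem_sphere, dist_eq_norm] at hz
      exact Th_le hC hb (hin z hz.le))
  refine h1.trans (le_of_eq ?_)
  field_simp
  norm_num

theorem dTh_diff {C : ℝ} (hC : HE C) {m : ℤ} (hb : 100 * C ≤ bt m) :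
    DifferentiableOn ℂ (deriv (Th m)) (ball 0 (6 / bt m)) := by
  have h1 : DifferentiableOn ℂ (Th m) (ball 0 (6 / bt m)) := by
    intro z hz
    rw [mem_ball, dist_zero_right] at hz
    exact (Th_diff hC hb hz.le).differentiableWithinAt
  exact h1.deriv isOpen_ball

theorem dTh_lip {C : ℝ} (hC : HE C) {m : ℤ} (hb : 100 * C ≤ bt m) {w w' : ℂ}
    (hw : ‖w‖ ≤ 4 / bt m) (hw' : ‖w'‖ ≤ 4 / bt m) :
    ‖deriv (Th m) w - deriv (Th m) w'‖ ≤ 40 * C * ‖w - w'‖ := by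
  have hC1 := hC.one
  have hb0 : 0 < bt m := by linarith
  have hlt : ∀ a : ℝ, a < 6 → a / bt m < 6 / bt m := fun a ha => by gcongr
  have hat : ∀ z : ℂ, ‖z‖ ≤ 5 / bt m → DifferentiableAt ℂ (deriv (Th m)) z := fun z hz =>
    (dTh_diff hC hb).differentiableAt (isOpen_ball.mem_nhds (by
      rw [mem_ball, dist_zero_right]; exact hz.trans_lt (hlt 5 (by norm_num))))
  have hder : ∀ w ∈ closedBall (0 : ℂ) (4 / bt m), ‖deriv (deriv (Th m)) w‖ ≤ 40 * C := by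
    intro w hw
    rw [mem_closedBall, dist_zero_right] at hw
    have hin : ∀ z, ‖z - w‖ ≤ 1 / 2 / bt m → ‖z‖ ≤ 9 / 2 / bt m := by
      intro z hz
      calc ‖z‖ = ‖(z - w) + w‖ := by rw [sub_add_cancel]
        _ ≤ ‖z - w‖ + ‖w‖ := norm_add_le _ _
        _ ≤ 1 / 2 / bt m + 4 / bt m := by gcongr
        _ = 9 / 2 / bt m := by ring
    have h1 := Complex.norm_deriv_le_of_forall_mem_sphere_norm_le (c := w) (R := 1 / 2 / bt m)
      (C := 20 * C / bt m) (f := deriv (Th m)) (by positivity) (by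
        refine DifferentiableOn.diffContOnCl ?_
        intro z hz
        rw [closure_ball _ (by positivity), mem_closedBall, dist_eq_norm] at hz
        exact (hat z ((hin z hz).trans (by gcongr; norm_num))).differentiableWithinAt) (by
        intro z hz
        rw [mem_sphere, dist_eq_norm] at hz
        exact dTh_le hC hb (hin z hz.le))
    refine h1.trans (le_of_eq ?_)
    field_simp
    norm_num
  exact (convex_closedBall (0 : ℂ) (4 / bt m)).norm_image_sub_le_of_norm_deriv_le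
    (f := deriv (Th m)) (C := 40 * C) (fun z hz => hat z (by
      rw [mem_closedBall, dist_zero_right] at hz
      exact hz.trans (by gcongr; norm_num))) hder
    (show w' ∈ closedBall (0 : ℂ) (4 / bt m) by simpa using hw')
    (show w ∈ closedBall (0 : ℂ) (4 / bt m) by simpa using hw)

section
variable {C : ℝ} {n : ℤ} (h : GT C n) (i : ℕ)
include h

theorem ph_hasDeriv {ζ : ℂ} (hζ : ζ ∈ ball (0 : ℂ) 1) :
    HasDerivAt (ph (T^[i] n)) (deriv (ph (T^[i] n)) ζ) ζ := by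
  have := ph_deriv_in (GT_iter h i) hζ
  rw [this.deriv]
  exact this

theorem dph_le {ζ : ℂ} (hζ : ζ ∈ ball (0 : ℂ) 1) :
    ‖deriv (ph (T^[i] n)) ζ‖ ≤ 4 * rho (T^[i] n) := by
  rw [ph_deriv_eq h i hζ, norm_mul, norm_mul, Complex.norm_real,
    Real.norm_of_nonneg (rho_pos _).le]
  have hr := rho_pos (T^[i] n)
  calc _ ≤ rho (T^[i] n) * 2 * 2 := by
        gcongr
        · exact exp_bd (gg_le h i hζ)
        · exact PP_le h hζ i
    _ = _ := by ring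

theorem dph_lip {K : ℝ} (hK : ∀ z ∈ ball (0 : ℂ) 1, ∀ w ∈ ball (0 : ℂ) 1,
      ‖PP n i z - PP n i w‖ ≤ K * ‖z - w‖) {ζ ζ' : ℂ} (hζ : ζ ∈ ball (0 : ℂ) 1)
    (hζ' : ζ' ∈ ball (0 : ℂ) 1) :
    ‖deriv (ph (T^[i] n)) ζ - deriv (ph (T^[i] n)) ζ'‖ ≤
      rho (T^[i] n) * (2 * K + 1) * ‖ζ - ζ'‖ := by
  have hr := rho_pos (T^[i] n)
  have hA := AL_iter_le h i
  have hA0 := AL_nonneg h.he (T^[i] n)
  rw [ph_deriv_eq h i hζ, ph_deriv_eq h i hζ']
  have e : rho (T^[i] n) * Complex.exp (gg n i ζ) * PP n i ζ -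
      rho (T^[i] n) * Complex.exp (gg n i ζ') * PP n i ζ' =
      rho (T^[i] n) * (Complex.exp (gg n i ζ) * (PP n i ζ - PP n i ζ') +
        (Complex.exp (gg n i ζ) - Complex.exp (gg n i ζ')) * PP n i ζ') := by ring
  rw [e, norm_mul, Complex.norm_real, Real.norm_of_nonneg hr.le, mul_assoc]
  gcongr
  have hg := gg_lip h i hζ hζ'
  have hD : 0 ≤ ‖ζ - ζ'‖ := norm_nonneg _
  have hPK := hK ζ hζ ζ' hζ'
  have hPK0 : 0 ≤ K * ‖ζ - ζ'‖ := (norm_nonneg _).trans hPK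
  calc ‖Complex.exp (gg n i ζ) * (PP n i ζ - PP n i ζ') +
        (Complex.exp (gg n i ζ) - Complex.exp (gg n i ζ')) * PP n i ζ'‖
      ≤ ‖Complex.exp (gg n i ζ)‖ * ‖PP n i ζ - PP n i ζ'‖ +
        ‖Complex.exp (gg n i ζ) - Complex.exp (gg n i ζ')‖ * ‖PP n i ζ'‖ := by
        refine (norm_add_le _ _).trans ?_
        rw [norm_mul, norm_mul]
    _ ≤ 2 * (K * ‖ζ - ζ'‖) + (4 * (6 * AL C (T^[i] n) * ‖ζ - ζ'‖)) * 2 := by
        refine add_le_add (mul_le_mul (exp_bd (gg_le h i hζ)) hPK (norm_nonneg _) (by norm_num))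
          (mul_le_mul ((exp_lip (gg_le h i hζ) (gg_le h i hζ')).trans (by gcongr))
            (PP_le h hζ' i) (norm_nonneg _) (by positivity))
    _ ≤ 2 * (K * ‖ζ - ζ'‖) + (4 * (6 * (1 / 100) * ‖ζ - ζ'‖)) * 2 := by gcongr
    _ ≤ (2 * K + 1) * ‖ζ - ζ'‖ := by nlinarith

theorem qq_deriv {ζ : ℂ} (hζ : ζ ∈ ball (0 : ℂ) 1) :
    HasDerivAt (qq n i) (deriv (Th (T^[i] n)) (ph (T^[i] n) ζ - (T^[i] n : ℤ)) *
      deriv (ph (T^[i] n)) ζ / 2) ζ := by
  have h1 := GT_iter h i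
  have hb := bt0 (T^[i] n)
  have e1 : HasDerivAt (Th (T^[i] n)) (deriv (Th (T^[i] n)) (ph (T^[i] n) ζ - (T^[i] n : ℤ)))
      (ph (T^[i] n) ζ - (T^[i] n : ℤ)) := by
    refine DifferentiableAt.hasDerivAt ?_
    refine Th_diff h1.he (by simpa using h1.tl 0) ((h_le h i hζ).trans ?_)
    gcongr
    norm_num
  have e2 : HasDerivAt (fun ζ => ph (T^[i] n) ζ - ((T^[i] n : ℤ) : ℂ))
      (deriv (ph (T^[i] n)) ζ) ζ := (ph_hasDeriv h i hζ).sub_const _
  have e3 := HasDerivAt.comp (h₂ := Th (T^[i] n)) ζ e1 e2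
  exact (e3.div_const 2).const_add 1

theorem qq_diff : DifferentiableOn ℂ (qq n i) (ball 0 1) := fun _ hz =>
  (qq_deriv h i hz).differentiableAt.differentiableWithinAt

theorem qq_dle {ζ : ℂ} (hζ : ζ ∈ ball (0 : ℂ) 1) :
    ‖deriv (qq n i) ζ‖ ≤ 30 * C / bt (T^[i] n) ^ 2 := by
  have hC1 := h.he.one
  have hb := bt0 (T^[i] n)
  refine ((qq_diff h i).differentiableAt (isOpen_ball.mem_nhds hζ)).hasDerivAt.le_of_lip'
    (by positivity) ?_
  filter_upwards [isOpen_ball.mem_nhds hζ] with w hw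
  exact qq_lip h i hw hζ

theorem qq_dlip {K : ℝ} (hK0 : 0 ≤ K) (hK : ∀ z ∈ ball (0 : ℂ) 1, ∀ w ∈ ball (0 : ℂ) 1,
      ‖PP n i z - PP n i w‖ ≤ K * ‖z - w‖) {ζ ζ' : ℂ} (hζ : ζ ∈ ball (0 : ℂ) 1)
    (hζ' : ζ' ∈ ball (0 : ℂ) 1) :
    ‖deriv (qq n i) ζ - deriv (qq n i) ζ'‖ ≤
      (49 + 2 * K) * (30 * C / bt (T^[i] n) ^ 2) * ‖ζ - ζ'‖ := by
  have h1 := GT_iter h i
  have hb := bt0 (T^[i] n)
  have hC1 := h.he.one
  have hr := rho_pos (T^[i] n)
  have h5 := (hT.2 (T^[i] n)).2.2.2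
  have h6 : rho (T^[i] n) ≤ 3 / bt (T^[i] n) := by
    rw [le_div_iff₀ hb]; linarith
  rw [(qq_deriv h i hζ).deriv, (qq_deriv h i hζ').deriv]
  have l1 := dTh_lip h1.he (by simpa using h1.tl 0) (h_le h i hζ) (h_le h i hζ')
  rw [sub_sub_sub_cancel_right] at l1
  have l2 := ph_lip h1 (ball_subset_closedBall hζ) (ball_subset_closedBall hζ')
  have l3 := dTh_le h1.he (by simpa using h1.tl 0) ((h_le h i hζ').trans (by gcongr; norm_num))
  have l4 := dph_le h i hζ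
  have l5 := dph_lip h i hK hζ hζ'
  obtain ⟨a, ha⟩ : ∃ a, a = deriv (Th (T^[i] n)) (ph (T^[i] n) ζ - (T^[i] n : ℤ)) := ⟨_, rfl⟩
  obtain ⟨a', ha'⟩ : ∃ a', a' = deriv (Th (T^[i] n)) (ph (T^[i] n) ζ' - (T^[i] n : ℤ)) := ⟨_, rfl⟩
  obtain ⟨d, hd⟩ : ∃ d, d = deriv (ph (T^[i] n)) ζ := ⟨_, rfl⟩
  obtain ⟨d', hd'⟩ : ∃ d', d' = deriv (ph (T^[i] n)) ζ' := ⟨_, rfl⟩
  rw [← ha, ← ha'] at l1
  rw [← ha'] at l3
  rw [← hd] at l4
  rw [← hd, ← hd'] at l5
  rw [← ha, ← ha', ← hd, ← hd']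
  have e : a * d / 2 - a' * d' / 2 = ((a - a') * d + a' * (d - d')) / 2 := by ring
  rw [e, norm_div, Complex.norm_ofNat, div_le_iff₀ (by norm_num)]
  have hD : 0 ≤ ‖ζ - ζ'‖ := norm_nonneg _
  calc ‖(a - a') * d + a' * (d - d')‖ ≤ ‖a - a'‖ * ‖d‖ + ‖a'‖ * ‖d - d'‖ := by
        refine (norm_add_le _ _).trans ?_
        rw [norm_mul, norm_mul]
    _ ≤ (40 * C * (2 * (3 / bt (T^[i] n)) * ‖ζ - ζ'‖)) * (4 * (3 / bt (T^[i] n))) +
        (20 * C / bt (T^[i] n)) * ((3 / bt (T^[i] n)) * (2 * K + 1) * ‖ζ - ζ'‖) := by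
        refine add_le_add (mul_le_mul (l1.trans ?_) (l4.trans ?_) (norm_nonneg _) (by positivity))
          (mul_le_mul l3 (l5.trans ?_) (norm_nonneg _) (by positivity))
        · gcongr
          exact l2.trans (by gcongr)
        · gcongr
        · gcongr
    _ ≤ (49 + 2 * K) * (30 * C / bt (T^[i] n) ^ 2) * ‖ζ - ζ'‖ * 2 := by
        apply le_of_eq
        field_simp
        ring

end

/-- the maps `P` are uniformly Lipschitz if the orbit grows fast -/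
theorem PP_unif (h1 : S_HB1) {C : ℝ} {n : ℤ} (h : GT C n) {β : ℝ} (hβ : 1 < β) {c : ℝ}
    (hc : 0 < c) (hg : ∀ i : ℕ, c * (2 : ℝ) ^ (β * i / 2) ≤ bt (T^[i] n)) :
    ∃ K : ℝ, 0 ≤ K ∧ ∀ i : ℕ, ∀ z ∈ ball (0 : ℂ) 1, ∀ w ∈ ball (0 : ℂ) 1,
      ‖PP n i z - PP n i w‖ ≤ K * ‖z - w‖ := by
  obtain ⟨K, hK, hKK⟩ := h1 (30 * C / c ^ 2) β hβ
  refine ⟨K, hK, fun i => ?_⟩
  have hG := GT_iter h i
  have hC1 := h.he.one
  refine hKK (PP (T^[i] n)) (qq (T^[i] n)) (fun j => sg (T^[j] (T^[i] n)))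
    (fun j => 30 * C / bt (T^[j] (T^[i] n)) ^ 2) (fun j => 6 * AL C (T^[j] (T^[i] n)))
    (fun j => sg_norm _) (fun j => by positivity) (fun j => by
      have hb := hG.tl j
      have hb0 := bt0 (T^[j] (T^[i] n))
      rw [div_le_iff₀ (by positivity)]
      nlinarith) (fun j => by
      have hb : c * (2 : ℝ) ^ (β * j / 2) ≤ bt (T^[j] (T^[i] n)) := by
        have h2 := hg (j + i)
        rw [Function.iterate_add_apply] at h2
        refine le_trans ?_ h2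
        have h3 : (2 : ℝ) ^ (β * j / 2) ≤ (2 : ℝ) ^ (β * ((j + i : ℕ) : ℝ) / 2) := by
          apply Real.rpow_le_rpow_of_exponent_le (by norm_num)
          push_cast
          have : 0 ≤ β * i := by positivity
          linarith
        gcongr
      have hb0 := bt0 (T^[j] (T^[i] n))
      rw [neg_mul, Real.rpow_neg (by norm_num), ← pow_half, div_le_iff₀ (by positivity)]
      have h2 : (c * (2 : ℝ) ^ (β * j / 2)) ^ 2 ≤ bt (T^[j] (T^[i] n)) ^ 2 := by gcongr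
      have h3 : 30 * C / c ^ 2 * (((2 : ℝ) ^ (β * j / 2)) ^ 2)⁻¹ * bt (T^[j] (T^[i] n)) ^ 2 =
          30 * C * (bt (T^[j] (T^[i] n)) ^ 2 / (c * (2 : ℝ) ^ (β * j / 2)) ^ 2) := by
        rw [mul_pow]
        have : (2 : ℝ) ^ (β * j / 2) ≠ 0 := by positivity
        generalize (2 : ℝ) ^ (β * j / 2) = u at *
        field_simp
      rw [h3]
      have h4 : 1 ≤ bt (T^[j] (T^[i] n)) ^ 2 / (c * (2 : ℝ) ^ (β * j / 2)) ^ 2 := by
        rw [one_le_div (by positivity)]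
        exact h2
      nlinarith)
    (fun j z hz => qq_near hG j hz) (fun j z hz w hw => qq_lip hG j hz hw)
    (fun j z hz => PP_rec hG j hz) (fun j z hz => PP_near hG j hz)
    (by simpa using (AL_tendsto (C := C) (n := T^[i] n)).const_mul 6) (fun j => by
      have := AL_iter_le hG j
      linarith)

/-- growth implies Hölder continuity of `P'` -/
theorem dPP_hol (h1 : S_HB1) (h2 : S_HB2) {C : ℝ} {n : ℤ} (h : GT C n) {β : ℝ} (hβ : 1 < β)
    (hβ2 : β < 2) {c : ℝ} (hc : 0 < c)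
    (hg : ∀ i : ℕ, c * (2 : ℝ) ^ (β * i / 2) ≤ bt (T^[i] n)) :
    (∃ K : ℝ, 0 ≤ K ∧ ∀ z ∈ ball (0 : ℂ) 1, ∀ w ∈ ball (0 : ℂ) 1,
      ‖PP n 0 z - PP n 0 w‖ ≤ K * ‖z - w‖) ∧ HO (β - 1) (deriv (PP n 0)) (ball 0 1) := by
  obtain ⟨K, hK, hKK⟩ := PP_unif h1 h hβ hc hg
  have hC1 := h.he.one
  refine ⟨⟨K, hK, hKK 0⟩, ?_⟩
  refine h2 (PP n) (qq n) (fun j => sg (T^[j] n)) (fun j => 30 * C / bt (T^[j] n) ^ 2)
    (30 * C / c ^ 2) β (49 + 2 * K) K hβ hβ2 (by positivity) hK (fun j => sg_norm _)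
    (fun j => by positivity) (fun j => by
      have hb := h.tl j
      have hb0 := bt0 (T^[j] n)
      rw [div_le_iff₀ (by positivity)]
      nlinarith) (fun j => by
      have hb := hg j
      have hb0 := bt0 (T^[j] n)
      rw [neg_mul, Real.rpow_neg (by norm_num), ← pow_half, div_le_iff₀ (by positivity)]
      have h2 : (c * (2 : ℝ) ^ (β * j / 2)) ^ 2 ≤ bt (T^[j] n) ^ 2 := by gcongr
      have h3 : 30 * C / c ^ 2 * (((2 : ℝ) ^ (β * j / 2)) ^ 2)⁻¹ * bt (T^[j] n) ^ 2 =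
          30 * C * (bt (T^[j] n) ^ 2 / (c * (2 : ℝ) ^ (β * j / 2)) ^ 2) := by
        rw [mul_pow]
        have : (2 : ℝ) ^ (β * j / 2) ≠ 0 := by positivity
        generalize (2 : ℝ) ^ (β * j / 2) = u at *
        field_simp
      rw [h3]
      have h4 : 1 ≤ bt (T^[j] n) ^ 2 / (c * (2 : ℝ) ^ (β * j / 2)) ^ 2 := by
        rw [one_le_div (by positivity)]
        exact h2
      nlinarith)
    (PP_diff h) (qq_diff h) (fun j z hz => by
      have h3 := PP_near h j hz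
      have h4 := AL_iter_le h j
      linarith) (fun j z hz => by
      refine (((PP_diff h j).differentiableAt (isOpen_ball.mem_nhds hz)).hasDerivAt).le_of_lip'
        hK ?_
      filter_upwards [isOpen_ball.mem_nhds hz] with w hw
      exact hKK j w hw z hz)
    (fun j z hz => qq_near h j hz) (fun j z hz => qq_dle h j hz)
    (fun j z hz w hw => qq_dlip h j hK (hKK j) hz hw) (fun j z hz => PP_rec h j hz)

/-- growth implies Hölder continuity of the second derivative of the conformal map -/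
theorem ddph_hol (h1 : S_HB1) (h2 : S_HB2) (hdiv : S_DIV) {C : ℝ} {n : ℤ} (h : GT C n) {α : ℝ}
    (h0 : 0 < α) (hα : α < 1) {c : ℝ} (hc : 0 < c)
    (hg : ∀ i : ℕ, c * (2 : ℝ) ^ ((1 + α) * i / 2) ≤ bt (T^[i] n)) :
    HO α (deriv (deriv (ph n))) (ball 0 1) := by
  obtain ⟨⟨K, hK, hKK⟩, hP'⟩ := dPP_hol h1 h2 h (by linarith : 1 < 1 + α) (by linarith) hc hg
  rw [add_sub_cancel_left] at hP'
  have hS : ball (0 : ℂ) 1 ⊆ ball 0 1 := subset_rfl
  have hP : HO α (PP n 0) (ball 0 1) := ho_of_lip h0 hα hS hK hKK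
  -- the derivative of `g`
  have hdg : HO α (deriv (gg n 0)) (ball 0 1) := by
    apply hdiv _ α h0 hα.le ((sys_diff h 0).deriv isOpen_ball)
    have h3 : HO α (fun z => PP n 0 z + (-1)) (ball 0 1) := by
      obtain ⟨H, hH⟩ := hP
      exact ⟨H, fun z hz w hw => by rw [add_sub_add_right_eq_sub]; exact hH z hz w hw⟩
    refine ho_congr (fun z _ => ?_) h3
    unfold PP
    ring
  have hl : ∀ z ∈ ball (0 : ℂ) 1, ∀ w ∈ ball (0 : ℂ) 1,
      ‖Complex.exp (gg n 0 z) - Complex.exp (gg n 0 w)‖ ≤ 4 * ‖z - w‖ := by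
    intro z hz w hw
    refine (exp_lip (gg_le h 0 hz) (gg_le h 0 hw)).trans ?_
    have h3 := gg_lip h 0 hz hw
    have h4 := AL_iter_le h 0
    have hD : 0 ≤ ‖z - w‖ := norm_nonneg _
    nlinarith
  have hexp : HO α (fun z => Complex.exp (gg n 0 z)) (ball 0 1) :=
    ho_of_lip h0 hα hS (by norm_num) hl
  have h3 : HO α (fun z => (rho n : ℂ) * (Complex.exp (gg n 0 z) *
      (deriv (gg n 0) z * PP n 0 z + deriv (PP n 0) z))) (ball 0 1) :=
    ho_smul _ (ho_mul h0 hS hexp (ho_add (ho_mul h0 hS hdg hP) hP'))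
  refine ho_congr (fun z hz => ?_) h3
  have e1 : HasDerivAt (fun z => (rho n : ℂ) * Complex.exp (gg n 0 z) * PP n 0 z)
      ((rho n : ℂ) * (Complex.exp (gg n 0 z) * deriv (gg n 0) z) * PP n 0 z +
        (rho n : ℂ) * Complex.exp (gg n 0 z) * deriv (PP n 0) z) z :=
    (((gg_hasDeriv h 0 hz).cexp).const_mul _).mul
      ((PP_diff h 0).differentiableAt (isOpen_ball.mem_nhds hz)).hasDerivAt
  have e2 : HasDerivAt (deriv (ph n))
      ((rho n : ℂ) * (Complex.exp (gg n 0 z) * deriv (gg n 0) z) * PP n 0 z +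
        (rho n : ℂ) * Complex.exp (gg n 0 z) * deriv (PP n 0) z) z := by
    refine e1.congr_of_eventuallyEq ?_
    filter_upwards [isOpen_ball.mem_nhds hz] with w hw
    exact ph_deriv_eq h 0 hw
  rw [e2.deriv]
  ring

end Pool.Agent.P8H70.SR
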