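import Mathlib
import Pool.Agent.P8H70.SR.Fin2
import Pool.Agent.P8H70.SR.Hold2

/-! Hölder continuity of the second derivative implies growth. -/

set_option autoImplicit false

open Filter Topology Metric Set

namespace Pool.Agent.P8H70.SR

open Pool.Agent.H384R2.Fatou Pool.Agent.H723R2.LSW Pool.Agent.Y282.WD Pool.Agent.P8H70.WD

/-- decay of the coefficients implies growth -/
theorem growth_of_decay2 (hco : S_CO) {C : ℝ} {n : ℤ} (h : GT C n) {α : ℝ}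
    (h1 : α ≤ 2) (hx : ∀ j : ℕ, 1 ≤ |((T^[j] n : ℤ) : ℝ)|)
    (hX : ∀ r : ℕ, rho (T^[r] n) ^ 2 / 4 ≤ ‖(2 : ℂ) ^ (r + 1) * co (2 ^ (r + 1)) (gg n 0)‖)
    {G : ℝ} (hG0 : 0 < G) (h3 : ∀ m : ℕ, 1 ≤ m → ‖co m (PP n 0)‖ ≤ G * (Real.pi / m) ^ α) :
    ∃ c : ℝ, 0 < c ∧ ∀ j : ℕ, c * (2 : ℝ) ^ (α * j / 2) ≤ |((T^[j] n : ℤ) : ℝ)| := by
  refine ⟨Real.sqrt (1 / (1024 * G)), by positivity, fun r => ?_⟩
  have h4 := h3 (2 ^ (r + 1)) Nat.one_le_two_pow
  rw [co_PP hco h (by positivity)] at h4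
  have h5 := hX r
  push_cast at h4
  have h6 := h5.trans h4
  have h7 : (Real.pi / (2 : ℝ) ^ (r + 1)) ^ α ≤ 4 * ((2 : ℝ) ^ (α * r))⁻¹ := by
    have e1 : Real.pi / (2 : ℝ) ^ (r + 1) = (Real.pi / 2) * ((2 : ℝ) ^ (r : ℝ))⁻¹ := by
      rw [Real.rpow_natCast, pow_succ]; field_simp
    rw [e1, Real.mul_rpow (by positivity) (by positivity), Real.inv_rpow (by positivity),
      ← Real.rpow_mul (by norm_num), mul_comm (r : ℝ) α]
    have hp1 := Real.pi_gt_d2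
    have hp2 := Real.pi_lt_d2
    have e2 : (Real.pi / 2) ^ α ≤ (Real.pi / 2) ^ (2 : ℝ) :=
      Real.rpow_le_rpow_of_exponent_le (by linarith) h1
    rw [Real.rpow_two] at e2
    gcongr
    refine e2.trans ?_
    nlinarith
  have h8 := (hT.2 (T^[r] n)).2.2.1
  have h9 := bt_le (hx r)
  have hr := rho_pos (T^[r] n)
  have hxr := hx r
  obtain ⟨X, hX'⟩ : ∃ X : ℝ, X = |((T^[r] n : ℤ) : ℝ)| := ⟨_, rfl⟩
  rw [← hX'] at h9 hxr ⊢
  have h10 : 1 ≤ 8 * X * rho (T^[r] n) := by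
    calc 1 ≤ 2 * bt (T^[r] n) * rho (T^[r] n) := h8
      _ ≤ 2 * (4 * X) * rho (T^[r] n) := by gcongr
      _ = _ := by ring
  have h11 : 1 ≤ 64 * X ^ 2 * rho (T^[r] n) ^ 2 := by nlinarith
  have hu : 0 < (2 : ℝ) ^ (α * r) := by positivity
  have h12 : rho (T^[r] n) ^ 2 ≤ 16 * G * ((2 : ℝ) ^ (α * r))⁻¹ := by
    have : rho (T^[r] n) ^ 2 / 4 ≤ G * (4 * ((2 : ℝ) ^ (α * r))⁻¹) :=
      h6.trans (by gcongr)
    linarith
  have h13 : (2 : ℝ) ^ (α * r) ≤ 1024 * G * X ^ 2 := by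
    have e1 : (2 : ℝ) ^ (α * r) * rho (T^[r] n) ^ 2 ≤ 16 * G := by
      calc (2 : ℝ) ^ (α * r) * rho (T^[r] n) ^ 2
          ≤ (2 : ℝ) ^ (α * r) * (16 * G * ((2 : ℝ) ^ (α * r))⁻¹) := by gcongr
        _ = 16 * G := by field_simp
    calc (2 : ℝ) ^ (α * r) = (2 : ℝ) ^ (α * r) * 1 := (mul_one _).symm
      _ ≤ (2 : ℝ) ^ (α * r) * (64 * X ^ 2 * rho (T^[r] n) ^ 2) := by gcongr
      _ = 64 * X ^ 2 * ((2 : ℝ) ^ (α * r) * rho (T^[r] n) ^ 2) := by ring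
      _ ≤ 64 * X ^ 2 * (16 * G) := by gcongr
      _ = _ := by ring
  have h14 : Real.sqrt (1 / (1024 * G)) * (2 : ℝ) ^ (α * r / 2) =
      Real.sqrt (1 / (1024 * G) * (2 : ℝ) ^ (α * r)) := by
    rw [Real.sqrt_mul (by positivity), ← pow_half, Real.sqrt_sq (by positivity)]
  rw [h14]
  apply Real.sqrt_le_iff.2
  refine ⟨by linarith, ?_⟩
  calc 1 / (1024 * G) * (2 : ℝ) ^ (α * r) ≤ 1 / (1024 * G) * (1024 * G * X ^ 2) := by gcongr
    _ = X ^ 2 := by field_simp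

/-- Hölder continuity of the second derivative implies growth -/
theorem growth_of_ddhol (hco : S_CO) (hHF : S_HF) {C : ℝ} {n : ℤ} (h : GT C n) {α : ℝ}
    (h0 : 0 < α) (h1 : α < 1) (hx : ∀ j : ℕ, 1 ≤ |((T^[j] n : ℤ) : ℝ)|)
    (hX : ∀ r : ℕ, rho (T^[r] n) ^ 2 / 4 ≤ ‖(2 : ℂ) ^ (r + 1) * co (2 ^ (r + 1)) (gg n 0)‖)
    (hH : HO α (deriv (deriv (ph n))) (ball 0 1)) :
    ∃ c : ℝ, 0 < c ∧ ∀ j : ℕ, c * (2 : ℝ) ^ ((1 + α) * j / 2) ≤ |((T^[j] n : ℤ) : ℝ)| := by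
  have hS : ball (0 : ℂ) 1 ⊆ ball 0 1 := subset_rfl
  have hr := rho_pos n
  have hr' : (rho n : ℂ) ≠ 0 := by exact_mod_cast hr.ne'
  have hphd : DifferentiableOn ℂ (ph n) (ball 0 1) := fun z hz =>
    (ph_deriv_in h hz).differentiableAt.differentiableWithinAt
  have hdph : DifferentiableOn ℂ (deriv (ph n)) (ball 0 1) := hphd.deriv isOpen_ball
  obtain ⟨B, hB0, hB⟩ := ho_bdd h0 hS hH
  have hdl : HO α (deriv (ph n)) (ball 0 1) :=
    ho_of_lip h0 h1 hS hB0 (lip_of_deriv (convex_ball 0 1)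
      (fun z hz => hdph.differentiableAt (isOpen_ball.mem_nhds hz)) hB)
  have hl : ∀ z ∈ ball (0 : ℂ) 1, ∀ w ∈ ball (0 : ℂ) 1,
      ‖Complex.exp (-gg n 0 z) - Complex.exp (-gg n 0 w)‖ ≤ 4 * ‖z - w‖ := by
    intro z hz w hw
    refine (exp_lip (by rw [norm_neg]; exact gg_le h 0 hz)
      (by rw [norm_neg]; exact gg_le h 0 hw)).trans ?_
    have h3 := gg_lip h 0 hz hw
    have h4 := AL_iter_le h 0
    have hD : 0 ≤ ‖z - w‖ := norm_nonneg _
    have e : -gg n 0 z - -gg n 0 w = -(gg n 0 z - gg n 0 w) := by ring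
    rw [e, norm_neg]
    nlinarith
  have hexp : HO α (fun z => Complex.exp (-gg n 0 z)) (ball 0 1) :=
    ho_of_lip h0 h1 hS (by norm_num) hl
  have hP1 : ∀ z ∈ ball (0 : ℂ) 1, (rho n : ℂ)⁻¹ * (Complex.exp (-gg n 0 z) * deriv (ph n) z) =
      PP n 0 z := by
    intro z hz
    have e1 : deriv (ph n) z = (rho n * Complex.exp (gg n 0 z)) * PP n 0 z := ph_deriv_eq h 0 hz
    rw [e1, Complex.exp_neg]
    have := Complex.exp_ne_zero (gg n 0 z)
    field_simp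
  have hP : HO α (PP n 0) (ball 0 1) := ho_congr hP1 (ho_smul _ (ho_mul h0 hS hexp hdl))
  have hP2 : HO α (fun z => PP n 0 z + (-1)) (ball 0 1) := by
    obtain ⟨H, hH⟩ := hP
    exact ⟨H, fun z hz w hw => by rw [add_sub_add_right_eq_sub]; exact hH z hz w hw⟩
  have hz : HO α (fun z => z * deriv (PP n 0) z) (ball 0 1) := by
    have h3 : HO α (fun z => (rho n : ℂ)⁻¹ * (Complex.exp (-gg n 0 z) *
        (z * deriv (deriv (ph n)) z)) - (PP n 0 z + (-1)) * PP n 0 z) (ball 0 1) :=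
      ho_sub (ho_smul _ (ho_mul h0 hS hexp (ho_mul h0 hS (ho_id h0 h1 hS) hH)))
        (ho_mul h0 hS hP2 hP)
    refine ho_congr (fun z hz => ?_) h3
    have e1 : HasDerivAt (fun z => (rho n : ℂ)⁻¹ * (Complex.exp (-gg n 0 z) * deriv (ph n) z))
        ((rho n : ℂ)⁻¹ * ((Complex.exp (-gg n 0 z) * (-deriv (gg n 0) z)) * deriv (ph n) z +
          Complex.exp (-gg n 0 z) * deriv (deriv (ph n)) z)) z :=
      (((gg_hasDeriv h 0 hz).neg.cexp).mul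
        (hdph.differentiableAt (isOpen_ball.mem_nhds hz)).hasDerivAt).const_mul _
    have e2 : HasDerivAt (PP n 0)
        ((rho n : ℂ)⁻¹ * ((Complex.exp (-gg n 0 z) * (-deriv (gg n 0) z)) * deriv (ph n) z +
          Complex.exp (-gg n 0 z) * deriv (deriv (ph n)) z)) z := by
      refine e1.congr_of_eventuallyEq ?_
      filter_upwards [isOpen_ball.mem_nhds hz] with w hw
      exact (hP1 w hw).symm
    rw [e2.deriv]
    have e3 := hP1 z hz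
    have e4 : PP n 0 z = 1 + z * deriv (gg n 0) z := rfl
    obtain ⟨p, hp⟩ : ∃ p, p = PP n 0 z := ⟨_, rfl⟩
    rw [← hp] at e3 e4 ⊢
    linear_combination (p - 1) * e3 - ((rho n : ℂ)⁻¹ * (Complex.exp (-gg n 0 z) *
      deriv (ph n) z)) * e4
  obtain ⟨H, hH0, hHz⟩ := ho_nonneg hz
  have hPd := PP_diff h 0
  have h4 := hHF (fun z => z * deriv (PP n 0) z) H α hH0 h0
    (differentiableOn_id.mul (hPd.deriv isOpen_ball)) hHz
  refine growth_of_decay2 hco h (by linarith) hx hX (G := H + 1) (by positivity) ?_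
  intro M hM
  have h5 := h4 M hM
  have ha : AnalyticAt ℂ (PP n 0) 0 := hPd.analyticAt (isOpen_ball.mem_nhds (by simp))
  obtain ⟨-, -, -, -, -, -, -, h7, -⟩ := hco
  rw [h7 M _ ha, norm_mul, Complex.norm_natCast] at h5
  have hM0 : (0 : ℝ) < M := by exact_mod_cast hM
  rw [Real.rpow_add (by positivity), Real.rpow_one]
  have h6 : ‖co M (PP n 0)‖ ≤ H * (Real.pi / M) ^ α / M := by
    rw [le_div_iff₀ hM0, mul_comm]
    exact h5
  refine h6.trans ?_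
  have hpi : 1 ≤ Real.pi := by linarith [Real.pi_gt_three]
  calc H * (Real.pi / M) ^ α / M = H * ((1 / M) * (Real.pi / M) ^ α) := by ring
    _ ≤ (H + 1) * (Real.pi / M * (Real.pi / M) ^ α) := by
        gcongr
        linarith

theorem ph_iter {C : ℝ} {n : ℤ} (h : GT C n) (m : ℕ) : ∃ s : ℂ, ‖s‖ = 1 ∧
    ∀ z ∈ closedBall (0 : ℂ) 1, f₀^[m] (ph n z) = ph (T^[m] n) (s * z ^ (2 ^ m)) := by
  induction m with
  | zero => exact ⟨1, norm_one, fun z _ => by simp⟩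
  | succ m ih =>
    obtain ⟨s, hs, hz⟩ := ih
    refine ⟨sg (T^[m] n) * s ^ 2, by rw [norm_mul, sg_norm, norm_pow, hs]; norm_num, ?_⟩
    intro z hz1
    rw [Function.iterate_succ_apply', hz z hz1, Function.iterate_succ_apply',
      ph_eq (GT_iter h m)]
    · congr 1
      rw [pow_succ 2 m, pow_mul]
      ring
    · rw [mem_closedBall, dist_zero_right] at hz1 ⊢
      rw [norm_mul, hs, one_mul, norm_pow]
      exact pow_le_one₀ (norm_nonneg _) hz1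

theorem ph_bdd {C : ℝ} {n : ℤ} (h : GT C n) : ∃ R : ℝ, ∀ z ∈ ball (0 : ℂ) 1, ‖ph n z‖ ≤ R := by
  have h1 := (W_compact h).isBounded
  obtain ⟨R, hR⟩ := isBounded_iff_forall_norm_le.1 h1
  exact ⟨R, fun z hz => hR _ (ph_mem h (ball_subset_closedBall hz))⟩

/-- from local to global Hölder continuity of the second derivative -/
theorem local_global (hLG : S_LG) (hUP : S_UP) (hCMP : S_CMP) (hCHN : S_CHN) {C : ℝ} {n : ℤ}
    (h : GT C n) {α : ℝ} (h0 : 0 < α) (h1 : α < 1) {p : ℂ} (hp : ‖p‖ = 1) {r : ℝ} (hr : 0 < r)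
    (hH : HO α (deriv (deriv (ph n))) (ball 0 1 ∩ ball p r)) :
    ∃ m : ℕ, HO α (deriv (deriv (ph (T^[m] n)))) (ball 0 1) := by
  obtain ⟨m, hm⟩ := hLG (ball p r) isOpen_ball ⟨p, mem_ball_self hr, by simpa using hp⟩
  refine ⟨m, ?_⟩
  have hG := GT_iter h m
  obtain ⟨s, hs, hit⟩ := ph_iter h m
  have hd : DifferentiableOn ℂ (ph n) (ball 0 1) := fun z hz =>
    (ph_deriv_in h hz).differentiableAt.differentiableWithinAt
  have hdm : DifferentiableOn ℂ (ph (T^[m] n)) (ball 0 1) := fun z hz =>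
    (ph_deriv_in hG hz).differentiableAt.differentiableWithinAt
  obtain ⟨R, hR⟩ := ph_bdd h
  have c1 := hCMP f₀^[m] (ph n) (ball 0 1 ∩ ball p r) R α h0 h1 (f₀_differentiable.iterate m) hd
    (isOpen_ball.inter isOpen_ball) ((convex_ball _ _).inter (convex_ball _ _)) inter_subset_left
    hR hH
  have e1 : ∀ z ∈ ball (0 : ℂ) 1, (fun z => f₀^[m] (ph n z)) =ᶠ[𝓝 z]
      fun z => ph (T^[m] n) (s * z ^ (2 ^ m)) := by
    intro z hz
    filter_upwards [isOpen_ball.mem_nhds hz] with w hw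
    exact hit w (ball_subset_closedBall hw)
  have e2 : ∀ z ∈ ball (0 : ℂ) 1, deriv (fun z => f₀^[m] (ph n z)) z =
      deriv (fun z => ph (T^[m] n) (s * z ^ (2 ^ m))) z := fun z hz => (e1 z hz).deriv_eq
  have e3 : ∀ z ∈ ball (0 : ℂ) 1, deriv (deriv (fun z => f₀^[m] (ph n z))) z =
      deriv (deriv (fun z => ph (T^[m] n) (s * z ^ (2 ^ m)))) z := by
    intro z hz
    refine Filter.EventuallyEq.deriv_eq ?_
    filter_upwards [isOpen_ball.mem_nhds hz] with w hw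
    exact e2 w hw
  have c2 : HO α (fun z => (fun w => w * deriv (ph (T^[m] n)) w +
      w ^ 2 * deriv (deriv (ph (T^[m] n))) w) (s * z ^ (2 ^ m))) (ball 0 1 ∩ ball p r) := by
    refine ho_congr (fun z hz => ?_) (ho_smul ((((2 ^ m : ℕ) : ℂ) ^ 2)⁻¹) c1)
    rw [e2 z hz.1, e3 z hz.1, hCHN (ph (T^[m] n)) s (2 ^ m) Nat.one_le_two_pow hs hdm z hz.1]
    have : ((2 ^ m : ℕ) : ℂ) ≠ 0 := by exact_mod_cast (pow_pos two_pos m).ne'
    rw [inv_mul_cancel_left₀ (pow_ne_zero 2 this)]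
  have hE : DifferentiableOn ℂ (fun w => w * deriv (ph (T^[m] n)) w +
      w ^ 2 * deriv (deriv (ph (T^[m] n))) w) (ball 0 1) := by
    have d1 := hdm.deriv isOpen_ball
    have d2 := d1.deriv isOpen_ball
    exact (differentiableOn_id.mul d1).add ((differentiableOn_id.pow 2).mul d2)
  exact hUP _ α h0 h1 hdm (hm m le_rfl _ s α hs h0 h1 hE c2)

/-- the growth of a tail -/
theorem growth_shift {n : ℤ} (hx : ∀ j : ℕ, 1 ≤ |((T^[j] n : ℤ) : ℝ)|) {β : ℝ} (hβ : 0 < β) (m : ℕ)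
    (h : ∃ c : ℝ, 0 < c ∧ ∀ j : ℕ, c * (2 : ℝ) ^ (β * j / 2) ≤
      |((T^[j] (T^[m] n) : ℤ) : ℝ)|) :
    ∃ c : ℝ, 0 < c ∧ ∀ j : ℕ, c * (2 : ℝ) ^ (β * j / 2) ≤ |((T^[j] n : ℤ) : ℝ)| := by
  obtain ⟨c, hc, hg⟩ := h
  refine ⟨min c 1 * (2 : ℝ) ^ (-(β * m / 2)), by positivity, fun j => ?_⟩
  rw [mul_assoc, ← Real.rpow_add (by norm_num)]
  rcases le_or_gt m j with hmj | hmj
  · obtain ⟨k, rfl⟩ := Nat.exists_eq_add_of_le hmj
    have h2 := hg k
    rw [← Function.iterate_add_apply, add_comm k m] at h2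
    refine le_trans ?_ h2
    have e : -(β * m / 2) + β * ((m + k : ℕ) : ℝ) / 2 = β * k / 2 := by push_cast; ring
    rw [e]
    gcongr
    exact min_le_left _ _
  · have h2 := hx j
    refine le_trans ?_ h2
    have h3 : (2 : ℝ) ^ (-(β * m / 2) + β * j / 2) ≤ 1 := by
      apply Real.rpow_le_one_of_one_le_of_nonpos (by norm_num)
      have : (j : ℝ) ≤ m := by exact_mod_cast hmj.le
      nlinarith
    calc min c 1 * (2 : ℝ) ^ (-(β * m / 2) + β * j / 2) ≤ 1 * 1 := by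
          gcongr
          exact min_le_right _ _
      _ = 1 := one_mul 1

/-- trajectories grow at most like `(3/2)^j` -/
theorem growth_upper (n : ℤ) (j : ℕ) :
    |((T^[j] n : ℤ) : ℝ)| + 1 ≤ (|(n : ℝ)| + 1) * (3 / 2) ^ j := by
  induction j with
  | zero => simp
  | succ j ih =>
    rw [Function.iterate_succ_apply', pow_succ, ← mul_assoc]
    have h1 : |((T (T^[j] n) : ℤ) : ℝ)| + 1 ≤ 3 / 2 * (|((T^[j] n : ℤ) : ℝ)| + 1) := by
      obtain ⟨x, hx⟩ : ∃ x, x = T^[j] n := ⟨_, rfl⟩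
      rw [← hx]
      have h0 : 0 ≤ |(x : ℝ)| := abs_nonneg _
      rcases Int.even_or_odd x with ⟨k, hk⟩ | ⟨k, hk⟩
      · have hT' : T x = k := by rw [hk]; unfold T; rw [if_pos (by omega)]; omega
        have e : (x : ℝ) = 2 * k := by rw [hk]; push_cast; ring
        rw [hT', e, abs_mul, abs_of_pos (by norm_num : (0 : ℝ) < 2)]
        have : 0 ≤ |(k : ℝ)| := abs_nonneg _
        linarith
      · have hT' : T x = 3 * k + 2 := by rw [hk]; unfold T; rw [if_neg (by omega)]; omega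
        have e : ((3 * k + 2 : ℤ) : ℝ) = 3 / 2 * (x : ℝ) + 1 / 2 := by rw [hk]; push_cast; ring
        rw [hT', e]
        have := abs_add_le (3 / 2 * (x : ℝ)) (1 / 2)
        rw [abs_mul, abs_of_pos (by norm_num : (0 : ℝ) < 3 / 2),
          abs_of_pos (by norm_num : (0 : ℝ) < 1 / 2)] at this
        linarith
    linarith

/-- no trajectory grows like `2 ^ (β j / 2)` with `β ≥ 3/2` -/
theorem no_growth (n : ℤ) {β : ℝ} (hβ : 3 / 2 ≤ β) :
    ¬ ∃ c : ℝ, 0 < c ∧ ∀ j : ℕ, c * (2 : ℝ) ^ (β * j / 2) ≤ |((T^[j] n : ℤ) : ℝ)| := by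
  rintro ⟨c, hc, h⟩
  -- `2 ^ (3/4) > 8/5 > 3/2`
  have h1 : ∀ j : ℕ, (8 / 5 : ℝ) ^ j ≤ (2 : ℝ) ^ (β * j / 2) := by
    intro j
    have e1 : (8 / 5 : ℝ) ≤ (2 : ℝ) ^ (β / 2) := by
      have e2 : (2 : ℝ) ^ ((3 : ℝ) / 4) ≤ (2 : ℝ) ^ (β / 2) :=
        Real.rpow_le_rpow_of_exponent_le (by norm_num) (by linarith)
      refine le_trans ?_ e2
      have e3 : ((8 / 5 : ℝ) ^ (4 : ℝ)) ^ ((1 : ℝ) / 4) = 8 / 5 := by
        rw [← Real.rpow_mul (by norm_num)]; norm_num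
      have e4 : ((2 : ℝ) ^ (3 : ℝ)) ^ ((1 : ℝ) / 4) = (2 : ℝ) ^ ((3 : ℝ) / 4) := by
        rw [← Real.rpow_mul (by norm_num)]; norm_num
      rw [← e3, ← e4]
      apply Real.rpow_le_rpow (by positivity) _ (by norm_num)
      have a1 : (8 / 5 : ℝ) ^ (4 : ℝ) = (8 / 5) ^ (4 : ℕ) := by
        rw [← Real.rpow_natCast]; norm_num
      have a2 : (2 : ℝ) ^ (3 : ℝ) = 2 ^ (3 : ℕ) := by
        rw [← Real.rpow_natCast]; norm_num
      rw [a1, a2]
      norm_num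
    calc (8 / 5 : ℝ) ^ j ≤ ((2 : ℝ) ^ (β / 2)) ^ j := by gcongr
      _ = (2 : ℝ) ^ (β * j / 2) := by
        rw [← Real.rpow_natCast, ← Real.rpow_mul (by norm_num)]
        congr 1
        ring
  have h2 : ∀ j : ℕ, c * (16 / 15 : ℝ) ^ j ≤ |(n : ℝ)| + 1 := by
    intro j
    have a1 := h j
    have a2 := growth_upper n j
    have a3 := h1 j
    have a4 : c * (8 / 5 : ℝ) ^ j ≤ (|(n : ℝ)| + 1) * (3 / 2) ^ j := by
      calc c * (8 / 5 : ℝ) ^ j ≤ c * (2 : ℝ) ^ (β * j / 2) := by gcongr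
        _ ≤ |((T^[j] n : ℤ) : ℝ)| := a1
        _ ≤ _ := by linarith
    have a5 : (8 / 5 : ℝ) ^ j = (16 / 15) ^ j * (3 / 2) ^ j := by
      rw [← mul_pow]; norm_num
    rw [a5, ← mul_assoc] at a4
    exact le_of_mul_le_mul_right a4 (by positivity)
  obtain ⟨j, hj⟩ := pow_unbounded_of_one_lt ((|(n : ℝ)| + 1) / c) (by norm_num : (1 : ℝ) < 16 / 15)
  have h3 := h2 j
  rw [div_lt_iff₀ hc] at hj
  linarith

end Pool.Agent.P8H70.SR
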