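import Mathlib
import Pool.Agent.P8H70.SR.Fin3
import Pool.Agent.P8H70.SR.Loc2

/-! All Hölder classes: the final equivalences. -/

set_option autoImplicit false

open Filter Topology Metric Set

namespace Pool.Agent.P8H70.SR

open Pool.Agent.H384R2.Fatou Pool.Agent.H723R2.LSW Pool.Agent.Y282.WD Pool.Agent.P8H70.WD

theorem rot_iter {f φ : ℂ → ℂ} {ω : ℂ}
    (hφ : ∀ z ∈ ball (0 : ℂ) 1, φ z = f (ω * z)) (j : ℕ) :
    ∀ z ∈ ball (0 : ℂ) 1, iteratedDeriv j φ z = ω ^ j * iteratedDeriv j f (ω * z) := by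
  induction j with
  | zero => intro z hz; simpa using hφ z hz
  | succ j ih =>
    intro z hz
    rw [iteratedDeriv_succ, iteratedDeriv_succ]
    have h1 : iteratedDeriv j φ =ᶠ[𝓝 z] fun z => ω ^ j * iteratedDeriv j f (ω * z) := by
      filter_upwards [isOpen_ball.mem_nhds hz] with w hw
      exact ih w hw
    rw [h1.deriv_eq, deriv_const_mul_field, deriv_comp_mul_left, smul_eq_mul, pow_succ]
    ring

theorem ho_rot {α : ℝ} {f φ : ℂ → ℂ} {ω : ℂ} (hω : ‖ω‖ = 1)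
    (hφ : ∀ z ∈ ball (0 : ℂ) 1, φ z = f (ω * z)) (j : ℕ) {W : Set ℂ}
    (hH : HO α (iteratedDeriv j φ) (ball 0 1 ∩ W)) :
    HO α (iteratedDeriv j f) (ball 0 1 ∩ {z | ω⁻¹ * z ∈ W}) := by
  have hmem : ∀ (v z : ℂ), ‖v‖ = 1 → z ∈ ball (0 : ℂ) 1 → v * z ∈ ball (0 : ℂ) 1 := by
    intro v z hv hz
    rw [mem_ball, dist_zero_right] at hz ⊢
    rwa [norm_mul, hv, one_mul]
  have hω0 : ω ≠ 0 := by
    intro h0
    rw [h0, norm_zero] at hω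
    norm_num at hω
  obtain ⟨H, hH⟩ := hH
  refine ⟨H, fun z hz w hw => ?_⟩
  have hi : ‖ω⁻¹‖ = 1 := by rw [norm_inv, hω, inv_one]
  have h1 := hH _ ⟨hmem ω⁻¹ z hi hz.1, hz.2⟩ _ ⟨hmem ω⁻¹ w hi hw.1, hw.2⟩
  rw [rot_iter hφ j _ (hmem ω⁻¹ z hi hz.1), rot_iter hφ j _ (hmem ω⁻¹ w hi hw.1),
    mul_inv_cancel_left₀ hω0, mul_inv_cancel_left₀ hω0, ← mul_sub, ← mul_sub, norm_mul, norm_mul,
    norm_pow, hω, hi, one_pow, one_mul, one_mul] at h1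
  exact h1

/-- from local Hölder continuity to growth, all orders -/
theorem loc_growth (hHFL : S_HFL) (hLG : S_LG) (hUP : S_UP) (hCMP : S_CMP) (hCHN : S_CHN)
    (hDOWN : S_DOWN) {C : ℝ} {n : ℤ} (h : GT C n) (hx : ∀ j : ℕ, 1 ≤ |((T^[j] n : ℤ) : ℝ)|)
    (hX : ∀ m r : ℕ, rho (T^[r] (T^[m] n)) ^ 2 / 4 ≤
      ‖(2 : ℂ) ^ (r + 1) * co (2 ^ (r + 1)) (gg (T^[m] n) 0)‖)
    (k : ℕ) {α : ℝ} (h0 : 0 < α) (h1 : α < 1) {W : Set ℂ}
    (hW : IsOpen W) (hW1 : (W ∩ sphere (0 : ℂ) 1).Nonempty)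
    (hH : HO α (iteratedDeriv (k + 1) (ph n)) (ball 0 1 ∩ W)) :
    ∃ c : ℝ, 0 < c ∧ ∀ j : ℕ, c * (2 : ℝ) ^ ((k + α) * j / 2) ≤ |((T^[j] n : ℤ) : ℝ)| := by
  have hd : DifferentiableOn ℂ (ph n) (ball 0 1) := fun z hz =>
    (ph_deriv_in h hz).differentiableAt.differentiableWithinAt
  obtain ⟨p, hp, hp1⟩ := hW1
  rw [mem_sphere, dist_zero_right] at hp1
  obtain ⟨r, hr, hrW⟩ := Metric.isOpen_iff.1 hW p hp
  have hH' := ho_mono (S' := ball 0 1 ∩ ball p r) (inter_subset_inter_right _ hrW) hH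
  -- the case `k = 1`
  have one : ∀ {α : ℝ}, 0 < α → α < 1 → HO α (deriv (deriv (ph n))) (ball 0 1 ∩ ball p r) →
      ∃ c : ℝ, 0 < c ∧ ∀ j : ℕ, c * (2 : ℝ) ^ ((1 + α) * j / 2) ≤ |((T^[j] n : ℤ) : ℝ)| := by
    intro α h0 h1 hH
    obtain ⟨m, hm⟩ := local_global hLG hUP hCMP hCHN h h0 h1 hp1 hr hH
    refine growth_shift hx (by linarith) m ?_
    exact growth_of_ddhol hco hhf (GT_iter h m) h0 h1
      (fun j => by rw [← Function.iterate_add_apply]; exact hx _) (hX m) hm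
  rcases k with _ | _ | k
  · rw [zero_add, iteratedDeriv_one] at hH
    have h2 := local_growth h hHFL h0 h1 hW ⟨p, hp, by simpa using hp1⟩ hx hX hH
    simpa using h2
  · have e : iteratedDeriv (0 + 1 + 1) (ph n) = deriv (deriv (ph n)) := by
      rw [iteratedDeriv_succ, iteratedDeriv_one]
    rw [e] at hH'
    have h2 := one h0 h1 hH'
    simpa using h2
  · exfalso
    have h2 := hDOWN (ph n) _ (k + 1 + 1) α (1 / 2) h0 h1 (by norm_num) (by norm_num) (by omega) hd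
      (isOpen_ball.inter isOpen_ball) ((convex_ball _ _).inter (convex_ball _ _))
      inter_subset_left hH'
    exact no_growth n (by norm_num : (3 : ℝ) / 2 ≤ 1 + 1 / 2) (one (by norm_num) (by norm_num) h2)

/-- from growth to Hölder continuity, all orders -/
theorem growth_ho (h1 : S_HB1) (h2 : S_HB2) (hdiv : S_DIV) {C : ℝ} {n : ℤ} (h : GT C n)
    (hx : ∀ j : ℕ, 1 ≤ |((T^[j] n : ℤ) : ℝ)|) (k : ℕ) {α : ℝ} (h0 : 0 < α) (hα : α < 1)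
    (hg : ∃ c : ℝ, 0 < c ∧ ∀ j : ℕ, c * (2 : ℝ) ^ ((k + α) * j / 2) ≤
      |((T^[j] n : ℤ) : ℝ)|) :
    HO α (iteratedDeriv (k + 1) (ph n)) (ball 0 1) := by
  rcases k with _ | _ | k
  · obtain ⟨c, hc, hg⟩ := hg
    rw [zero_add, iteratedDeriv_one]
    refine (hol_iff h h0 hα).2 (hol_of_growth h hhb h0 hα hc fun i => ?_)
    have h3 := (hg i).trans (bt_ge (hx i) le_rfl)
    simpa using h3
  · obtain ⟨c, hc, hg⟩ := hg
    have e : iteratedDeriv (0 + 1 + 1) (ph n) = deriv (deriv (ph n)) := by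
      rw [iteratedDeriv_succ, iteratedDeriv_one]
    rw [e]
    refine ddph_hol h1 h2 hdiv h h0 hα hc fun i => ?_
    have h3 := (hg i).trans (bt_ge (hx i) le_rfl)
    simpa using h3
  · exfalso
    refine no_growth n ?_ hg
    push_cast
    have : (0 : ℝ) ≤ k := Nat.cast_nonneg k
    linarith

theorem finalB (hHFL : S_HFL) (hLG : S_LG) (hUP : S_UP) (hCMP : S_CMP) (hCHN : S_CHN)
    (hDOWN : S_DOWN) (h1 : S_HB1) (h2 : S_HB2) (hdiv : S_DIV) :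
    ∃ C0 : ℝ, 1 ≤ C0 ∧ ∀ n : ℤ, Wild n →
    (∀ j : ℕ, C0 ≤ |((T^[j] n : ℤ) : ℝ)|) → ∀ φ : ℂ → ℂ, DifferentiableOn ℂ φ (ball 0 1) →
      InjOn φ (ball 0 1) → φ '' ball 0 1 = U n → φ 0 = n → ∀ (k : ℕ) (α : ℝ), 0 < α → α < 1 →
      List.TFAE [HO α (iteratedDeriv (k + 1) φ) (ball 0 1),
        ∃ W : Set ℂ, IsOpen W ∧ (W ∩ sphere (0 : ℂ) 1).Nonempty ∧
          HO α (iteratedDeriv (k + 1) φ) (ball 0 1 ∩ W),
        ∃ c : ℝ, 0 < c ∧ ∀ j : ℕ, c * (2 : ℝ) ^ ((k + α) * j / 2) ≤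
          |((T^[j] n : ℤ) : ℝ)|] := by
  obtain ⟨C0, hC0, key⟩ := main_const
  refine ⟨C0, hC0, fun n hw hj φ hd hi him hz k α h0 hα => ?_⟩
  obtain ⟨C, hG, hX⟩ := key n hw hj
  obtain ⟨ω, hω, hφ⟩ := conf_eq hG hd hi him hz
  have hj1 : ∀ j : ℕ, 1 ≤ |((T^[j] n : ℤ) : ℝ)| := fun j => hC0.trans (hj j)
  have hω0 : ω ≠ 0 := by
    intro h0
    rw [h0, norm_zero] at hω
    norm_num at hω
  have hi' : ‖ω⁻¹‖ = 1 := by rw [norm_inv, hω, inv_one]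
  have hX' : ∀ m r : ℕ, rho (T^[r] (T^[m] n)) ^ 2 / 4 ≤
      ‖(2 : ℂ) ^ (r + 1) * co (2 ^ (r + 1)) (gg (T^[m] n) 0)‖ := by
    intro m r
    obtain ⟨C', -, hX'⟩ := key (T^[m] n) (wild_iter hw m) (fun j => by
      rw [← Function.iterate_add_apply]; exact hj _)
    exact (hX' r).1
  tfae_have 1 → 2 := by
    intro hH
    refine ⟨univ, isOpen_univ, ⟨1, trivial, by simp⟩, ?_⟩
    rwa [inter_univ]
  tfae_have 2 → 3 := by
    rintro ⟨W, hW, ⟨p, hp, hp1⟩, hH⟩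
    refine loc_growth hHFL hLG hUP hCMP hCHN hDOWN hG hj1 hX' k h0 hα
      (W := {z | ω⁻¹ * z ∈ W}) ?_ ⟨ω * p, ?_, ?_⟩ (ho_rot hω hφ (k + 1) hH)
    · exact hW.preimage (by fun_prop)
    · show ω⁻¹ * (ω * p) ∈ W
      rwa [inv_mul_cancel_left₀ hω0]
    · rw [mem_sphere, dist_zero_right] at hp1 ⊢
      rw [norm_mul, hω, hp1, one_mul]
  tfae_have 3 → 1 := by
    intro hg
    have h3 := growth_ho h1 h2 hdiv hG hj1 k h0 hα hg
    have h4 : ∀ z ∈ ball (0 : ℂ) 1, ph n z = φ (ω⁻¹ * z) := by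
      intro z hz
      have hm : ω⁻¹ * z ∈ ball (0 : ℂ) 1 := by
        rw [mem_ball, dist_zero_right] at hz ⊢
        rwa [norm_mul, hi', one_mul]
      rw [hφ _ hm, mul_inv_cancel_left₀ hω0]
    have h5 := ho_rot (W := univ) hi' h4 (k + 1) (by rwa [inter_univ])
    simpa using h5
  tfae_finish

end Pool.Agent.P8H70.SR
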